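import Pool.Agent.H730.MB.Same

/-!
# Pushing a vertex to a tip
-/

namespace Pool.Agent.H730.MB

section
variable {V : Type} {F : SimpleGraph V}

lemma insert_mid {s : St V} {v u : V} (h : (⟨insert v s.W, s.T, s.σ⟩ : St V).mid u) :
    s.mid u ∧ u ≠ v :=
  ⟨⟨fun h1 => h.1 (Set.mem_insert_of_mem _ h1), h.2⟩,
    fun h1 => h.1 (by rw [h1]; exact Set.mem_insert _ _)⟩

lemma valid_insert {s : St V} (hv : Valid F s) {v : V} (hfar : ∀ t ∈ s.T, ¬ Wd F 3 v t) :
    Valid F ⟨insert v s.W, s.T, s.σ⟩ := by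
  refine ⟨hv.sym, ?_, ?_⟩
  · intro u hu t ht
    rcases hu with rfl | hu
    · exact hfar t ht
    · exact hv.dist u hu t ht
  · intro u w ε ε' h h'
    exact hv.bal u w ε ε' (Wk.congr (fun u hu => (insert_mid hu).1) (fun _ _ _ _ _ => rfl) h)
      (Wk.congr (fun u hu => (insert_mid hu).1) (fun _ _ _ _ _ => rfl) h')

/-- changing the signs of edges which do not matter -/
lemma Rz.congr {W T : Set V} {σ σ' : V → V → ZMod 2} {f : V → R}
    (h : ∀ u v, F.Adj u v → (⟨W, T, σ⟩ : St V).mid u → (⟨W, T, σ⟩ : St V).mid v →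
      σ u v = σ' u v) (hf : Rz F f ⟨W, T, σ⟩) : Rz F f ⟨W, T, σ'⟩ :=
  ⟨hf.hom, hf.w, hf.t, fun u v huv hu hv => by
    have := hf.near u v huv hu hv
    change Near (σ u v) _ _ at this
    change Near (σ' u v) _ _
    rwa [← h u v huv hu hv]⟩

open Classical in
/-- a vertex far from `T` may be added to `W` -/
lemma add_W [Finite V] (hd : ∀ v, (F.neighborSet v).ncard ≤ 3) {s : St V} (hv : Valid F s)
    {v : V} (hfar : ∀ t ∈ s.T, ¬ Wd F 3 v t) {f g : V → R} (hf : Rz F f s)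
    (hg : Rz F g ⟨insert v s.W, s.T, s.σ⟩) : Cn F RAdj f g := by
  by_cases hvW : v ∈ s.W
  · have h1 : (⟨insert v s.W, s.T, s.σ⟩ : St V) = s := by
      rw [Set.insert_eq_of_mem hvW]
    rw [h1] at hg
    exact same_state hd hv hf hg
  have hvT : v ∉ s.T := fun h => hfar v h (Wd.refl _ _)
  have hv' := valid_insert hv hfar
  have hl' := lv_ok hv'
  let l1 : V → Fin 5 := fun u => if u = v then 1 else lv F ⟨insert v s.W, s.T, s.σ⟩ u
  have hl1v : l1 v = 1 := if_pos rfl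
  have hl1n : ∀ u, u ≠ v → l1 u = lv F ⟨insert v s.W, s.T, s.σ⟩ u := fun u hu => if_neg hu
  have hlv : lv F ⟨insert v s.W, s.T, s.σ⟩ v = 0 := (hl'.w v).2 (Set.mem_insert _ _)
  have hl1 : Lv F s l1 := by
    refine ⟨fun u => ?_, fun u => ?_, fun u w huw => ?_⟩
    · by_cases hu : u = v
      · subst hu
        rw [hl1v]
        exact ⟨fun h => absurd h (by decide), fun h => absurd h hvW⟩
      · rw [hl1n u hu, hl'.w u]
        constructor
        · rintro (h | h)
          · exact absurd h hu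
          · exact h
        · exact fun h => Or.inr h
    · by_cases hu : u = v
      · subst hu
        rw [hl1v]
        exact ⟨fun h => absurd h (by decide), fun h => absurd h hvT⟩
      · rw [hl1n u hu, hl'.t u]
    · have h1 := hl'.lip u w huw
      have one : ((1 : Fin 5) : ℕ) = 1 := rfl
      by_cases hu : u = v
      · subst hu
        rw [hl1v, one]
        omega
      · rw [hl1n u hu]
        by_cases hw : w = v
        · subst hw
          rw [hl1v, one]
          rw [hlv] at h1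
          have z : ((0 : Fin 5) : ℕ) = 0 := rfl
          omega
        · rw [hl1n w hw]; exact h1
  obtain ⟨c, hc, _, _⟩ := exists_col (F := F) hd (fun _ => 0) (fun _ => 0)
  have hf1 := rz_mkf hv hl1 hc
  set f1 : V → R := mkf l1 (gs_chn hv hc) with hf1d
  have c1 : Cn F RAdj f f1 := same_state hd hv hf hf1
  let f2 : V → R := fun u => (lv F ⟨insert v s.W, s.T, s.σ⟩ u, (f1 u).2)
  have hnear : ∀ u w, F.Adj u w → (⟨insert v s.W, s.T, s.σ⟩ : St V).mid u →
      (⟨insert v s.W, s.T, s.σ⟩ : St V).mid w → Near (s.σ u w) (f1 u).2 (f1 w).2 :=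
    fun u w huw hu hw => hf1.near u w huw (insert_mid hu).1 (insert_mid hw).1
  have hf2 : Rz F f2 ⟨insert v s.W, s.T, s.σ⟩ := by
    refine ⟨fun u w huw => ?_, fun u => hl'.w u, fun u => hl'.t u, hnear⟩
    exact radj_mk (s := ⟨insert v s.W, s.T, s.σ⟩) (u := u) (v := w) (hl'.lip u w huw)
      (hl'.lip w u huw.symm) (fun h => hl'.tip h) (fun h => hl'.tip h)
      (fun hu hw => ⟨_, hnear u w huw hu hw⟩)
  have c2 : Cn F RAdj f1 f2 := by
    refine Cn.single hf1.hom hf2.hom v ?_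
    intro x hx
    have h1 : (f1 x).1 = l1 x := rfl
    have h2 : f2 x = (lv F ⟨insert v s.W, s.T, s.σ⟩ x, (f1 x).2) := rfl
    rw [h2, ← hl1n x hx, ← h1]
  exact c1.trans (c2.trans (same_state hd hv' hf2 hg))

/-! ### Reversal -/

/-- the reversed state -/
def St.rev (s : St V) : St V := ⟨s.T, s.W, s.σ⟩

/-- the reversal of the levels -/
def rv (p : R) : R := (Fin.rev p.1, p.2)

lemma rv_rv (p : R) : rv (rv p) = p := by
  unfold rv
  dsimp only
  rw [Fin.rev_rev]

lemma rev_val (a : Fin 5) : ((Fin.rev a : Fin 5) : ℕ) = 4 - (a : ℕ) := by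
  rw [Fin.val_rev]; omega

lemma rev_eq_zero {a : Fin 5} : Fin.rev a = 0 ↔ a = 4 := by
  revert a; decide

lemma rev_eq_four {a : Fin 5} : Fin.rev a = 4 ↔ a = 0 := by
  revert a; decide

lemma radj_rv {p q : R} (h : RAdj p q) : RAdj (rv p) (rv q) := by
  obtain ⟨h1, h2, h3⟩ := h
  have a1 := p.1.isLt
  have a2 := q.1.isLt
  refine ⟨?_, ?_, ?_⟩
  · change ((Fin.rev p.1 : Fin 5) : ℕ) ≤ (Fin.rev q.1 : Fin 5) + 1
    rw [rev_val, rev_val]; omega
  · change ((Fin.rev q.1 : Fin 5) : ℕ) ≤ (Fin.rev p.1 : Fin 5) + 1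
    rw [rev_val, rev_val]; omega
  · change Fin.rev p.1 = 0 ∨ Fin.rev p.1 = 4 ∨ Fin.rev q.1 = 0 ∨ Fin.rev q.1 = 4 ∨
      ∃ δ, Near δ p.2 q.2
    rw [rev_eq_zero, rev_eq_four, rev_eq_zero, rev_eq_four]
    rcases h3 with h | h | h | h | h
    · exact Or.inr (Or.inl h)
    · exact Or.inl h
    · exact Or.inr (Or.inr (Or.inr (Or.inl h)))
    · exact Or.inr (Or.inr (Or.inl h))
    · exact Or.inr (Or.inr (Or.inr (Or.inr h)))

lemma Valid.rev {s : St V} (hv : Valid F s) : Valid F s.rev := by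
  refine ⟨hv.sym, fun u hu t ht h => hv.dist t ht u hu h.symm, ?_⟩
  intro u w ε ε' h h'
  refine hv.bal u w ε ε' (Wk.congr (fun u hu => ⟨hu.2, hu.1⟩) (fun _ _ _ _ _ => rfl) h)
    (Wk.congr (fun u hu => ⟨hu.2, hu.1⟩) (fun _ _ _ _ _ => rfl) h')

lemma Rz.rev {s : St V} {f : V → R} (hf : Rz F f s) : Rz F (fun u => rv (f u)) s.rev := by
  refine ⟨fun u v huv => radj_rv (hf.hom u v huv), fun u => ?_, fun u => ?_,
    fun u v huv hu hv => hf.near u v huv ⟨hu.2, hu.1⟩ ⟨hv.2, hv.1⟩⟩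
  · change Fin.rev (f u).1 = 0 ↔ u ∈ s.T
    rw [rev_eq_zero]; exact hf.t u
  · change Fin.rev (f u).1 = 4 ↔ u ∈ s.W
    rw [rev_eq_four]; exact hf.w u

lemma Cn.rv {f g : V → R} (h : Cn F RAdj (fun u => rv (f u)) (fun u => rv (g u))) :
    Cn F RAdj f g := by
  have h1 := h.map (B := RAdj) MB.rv (fun a b hab => radj_rv hab)
  simpa only [rv_rv] using h1

/-- a vertex far from `W` may be added to `T` -/
lemma add_T [Finite V] (hd : ∀ v, (F.neighborSet v).ncard ≤ 3) {s : St V} (hv : Valid F s)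
    {v : V} (hfar : ∀ w ∈ s.W, ¬ Wd F 3 v w) {f g : V → R} (hf : Rz F f s)
    (hg : Rz F g ⟨s.W, insert v s.T, s.σ⟩) : Cn F RAdj f g := by
  apply Cn.rv
  exact add_W hd hv.rev (v := v) hfar hf.rev hg.rev

/-! ### Good states -/

/-- the target -/
def tgt (V : Type) : V → R := fun _ => (4, x0)

/-- all homomorphisms with the state `s` are connected to the constant -/
def Good (F : SimpleGraph V) (s : St V) : Prop := ∀ f, Rz F f s → Cn F RAdj f (tgt V)

lemma good_insert_W [Finite V] (hd : ∀ v, (F.neighborSet v).ncard ≤ 3) {s : St V}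
    (hv : Valid F s) {v : V} (hfar : ∀ t ∈ s.T, ¬ Wd F 3 v t) :
    Good F ⟨insert v s.W, s.T, s.σ⟩ ↔ Good F s := by
  constructor
  · intro h f hf
    obtain ⟨g, hg⟩ := exists_rz hd (valid_insert hv hfar)
    exact (add_W hd hv hfar hf hg).trans (h g hg)
  · intro h g hg
    obtain ⟨f, hf⟩ := exists_rz hd hv
    exact (add_W hd hv hfar hf hg).symm.trans (h f hf)

lemma valid_insert_T {s : St V} (hv : Valid F s) {v : V} (hfar : ∀ w ∈ s.W, ¬ Wd F 3 v w) :
    Valid F ⟨s.W, insert v s.T, s.σ⟩ := (valid_insert hv.rev (v := v) hfar).rev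

lemma good_insert_T [Finite V] (hd : ∀ v, (F.neighborSet v).ncard ≤ 3) {s : St V}
    (hv : Valid F s) {v : V} (hfar : ∀ w ∈ s.W, ¬ Wd F 3 v w) :
    Good F ⟨s.W, insert v s.T, s.σ⟩ ↔ Good F s := by
  constructor
  · intro h f hf
    obtain ⟨g, hg⟩ := exists_rz hd (valid_insert_T hv hfar)
    exact (add_T hd hv hfar hf hg).trans (h g hg)
  · intro h g hg
    obtain ⟨f, hf⟩ := exists_rz hd hv
    exact (add_T hd hv hfar hf hg).symm.trans (h f hf)

lemma good_congr {W T : Set V} {σ σ' : V → V → ZMod 2}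
    (h : ∀ u v, F.Adj u v → (⟨W, T, σ⟩ : St V).mid u → (⟨W, T, σ⟩ : St V).mid v →
      σ u v = σ' u v) (hg : Good F ⟨W, T, σ'⟩) : Good F ⟨W, T, σ⟩ :=
  fun f hf => hg f (hf.congr h)

/-- adding a set of vertices to `W` -/
lemma good_union_W [Finite V] (hd : ∀ v, (F.neighborSet v).ncard ≤ 3) {s : St V}
    (hv : Valid F s) {K : Set V} (hfar : ∀ v ∈ K, ∀ t ∈ s.T, ¬ Wd F 3 v t) :
    Valid F ⟨s.W ∪ K, s.T, s.σ⟩ ∧ (Good F ⟨s.W ∪ K, s.T, s.σ⟩ ↔ Good F s) := by
  classical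
  have hK := Set.toFinite K
  induction K, hK using Set.Finite.induction_on with
  | empty =>
    rw [Set.union_empty]
    exact ⟨hv, Iff.rfl⟩
  | @insert a K ha hK ih =>
    have h1 := ih (fun v hv => hfar v (Set.mem_insert_of_mem _ hv))
    have h2 : s.W ∪ insert a K = insert a (s.W ∪ K) := by
      rw [Set.union_insert]
    rw [h2]
    have h3 : ∀ t ∈ (⟨s.W ∪ K, s.T, s.σ⟩ : St V).T, ¬ Wd F 3 a t :=
      hfar a (Set.mem_insert _ _)
    exact ⟨valid_insert h1.1 h3, (good_insert_W hd h1.1 h3).trans h1.2⟩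

/-- adding a set of vertices to `T` -/
lemma good_union_T [Finite V] (hd : ∀ v, (F.neighborSet v).ncard ≤ 3) {s : St V}
    (hv : Valid F s) {K : Set V} (hfar : ∀ v ∈ K, ∀ w ∈ s.W, ¬ Wd F 3 v w) :
    Valid F ⟨s.W, s.T ∪ K, s.σ⟩ ∧ (Good F ⟨s.W, s.T ∪ K, s.σ⟩ ↔ Good F s) := by
  classical
  have hK := Set.toFinite K
  induction K, hK using Set.Finite.induction_on with
  | empty =>
    rw [Set.union_empty]
    exact ⟨hv, Iff.rfl⟩
  | @insert a K ha hK ih =>
    have h1 := ih (fun v hv => hfar v (Set.mem_insert_of_mem _ hv))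
    have h2 : s.T ∪ insert a K = insert a (s.T ∪ K) := by
      rw [Set.union_insert]
    rw [h2]
    have h3 : ∀ t ∈ (⟨s.W, s.T ∪ K, s.σ⟩ : St V).W, ¬ Wd F 3 a t :=
      hfar a (Set.mem_insert _ _)
    exact ⟨valid_insert_T h1.1 h3, (good_insert_T hd h1.1 h3).trans h1.2⟩

/-- a state without vertices at the lower tip is good -/
lemma good_empty [Finite V] (hd : ∀ v, (F.neighborSet v).ncard ≤ 3) {s : St V}
    (hv : Valid F s) (hW : s.W = ∅) : Good F s := by
  have h1 := good_union_T hd hv (K := Set.univ) (fun v _ w hw => by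
    rw [hW] at hw; exact absurd hw (Set.notMem_empty _))
  refine h1.2.1 ?_
  intro f hf
  have h4 : ∀ u, (f u).1 = 4 := fun u => (hf.t u).2 (Or.inr (Set.mem_univ _))
  apply mix (fun a b h => h.symm)
  · exact hf.hom
  · intro u v _
    refine ⟨?_, ?_, Or.inr (Or.inl (h4 u))⟩
    · rw [h4 u]; exact Nat.le_succ _
    · rw [h4 u]; exact Nat.le_succ _
  · intro u v _
    exact ⟨Nat.le_succ _, Nat.le_succ _, Or.inr (Or.inl rfl)⟩

end

end Pool.Agent.H730.MB
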