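import Pool.Agent.H730.MB.Add

/-!
# Blocked vertices
-/

namespace Pool.Agent.H730.MB

section
variable {V : Type} {F : SimpleGraph V}

/-- balanced signs on the graph induced on `G`: triangles and 4-cycles have sum zero -/
structure Bal (F : SimpleGraph V) (G : V → Prop) (σ : V → V → ZMod 2) : Prop where
  sym : ∀ u v, σ u v = σ v u
  b3 : ∀ u x w, G u → G x → G w → F.Adj u x → F.Adj x w → F.Adj u w → σ u x + σ x w = σ u w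
  b4 : ∀ u x y w, G u → G x → G y → G w → F.Adj u x → F.Adj x w → F.Adj u y → F.Adj y w →
    σ u x + σ x w = σ u y + σ y w

lemma wk1 {σ : V → V → ZMod 2} {G : V → Prop} {u w : V} {ε : ZMod 2} :
    Wk F σ G 1 u w ε ↔ (u = w ∧ ε = 0) ∨ (F.Adj u w ∧ G u ∧ G w ∧ ε = σ u w) := by
  constructor
  · rintro (⟨h1, h2⟩ | ⟨u', h1, h2, h3, h4, h5⟩)
    · exact Or.inl ⟨h1, h2⟩
    · subst h4
      exact Or.inr ⟨h1, h2, h3, CharTwo.add_eq_zero.1 h5⟩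
  · rintro (⟨h1, h2⟩ | ⟨h1, h2, h3, h4⟩)
    · exact Or.inl ⟨h1, h2⟩
    · exact Or.inr ⟨w, h1, h2, h3, rfl, by rw [h4]; exact CharTwo.add_self_eq_zero _⟩

lemma wk2 {σ : V → V → ZMod 2} {G : V → Prop} {u w : V} {ε : ZMod 2} :
    Wk F σ G 2 u w ε ↔ (u = w ∧ ε = 0) ∨ (F.Adj u w ∧ G u ∧ G w ∧ ε = σ u w) ∨
      (∃ x, F.Adj u x ∧ F.Adj x w ∧ G u ∧ G x ∧ G w ∧ ε = σ u x + σ x w) := by
  constructor
  · rintro (h | ⟨u', h1, h2, h3, h4⟩)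
    · rcases wk1.1 h with h | h
      · exact Or.inl h
      · exact Or.inr (Or.inl h)
    · rcases wk1.1 h4 with ⟨h5, h6⟩ | ⟨h5, h6, h7, h8⟩
      · subst h5
        exact Or.inr (Or.inl ⟨h1, h2, h3, CharTwo.add_eq_zero.1 h6⟩)
      · refine Or.inr (Or.inr ⟨u', h1, h5, h2, h3, h7, ?_⟩)
        rw [← h8, add_comm ε, ← add_assoc, CharTwo.add_self_eq_zero, zero_add]
  · rintro (h | h | ⟨x, h1, h2, h3, h4, h5, h6⟩)
    · exact Or.inl (wk1.2 (Or.inl h))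
    · exact Or.inl (wk1.2 (Or.inr h))
    · refine Or.inr ⟨x, h1, h3, h4, wk1.2 (Or.inr ⟨h2, h4, h5, ?_⟩)⟩
      rw [h6, add_comm (σ u x), zadd]

lemma Valid.toBal {s : St V} (hv : Valid F s) : Bal F s.mid s.σ := by
  refine ⟨hv.sym, ?_, ?_⟩
  · intro u x w hu hx hw h1 h2 h3
    exact hv.bal u w _ _ (wk2.2 (Or.inr (Or.inr ⟨x, h1, h2, hu, hx, hw, rfl⟩)))
      (wk2.2 (Or.inr (Or.inl ⟨h3, hu, hw, rfl⟩)))
  · intro u x y w hu hx hy hw h1 h2 h3 h4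
    exact hv.bal u w _ _ (wk2.2 (Or.inr (Or.inr ⟨x, h1, h2, hu, hx, hw, rfl⟩)))
      (wk2.2 (Or.inr (Or.inr ⟨y, h3, h4, hu, hy, hw, rfl⟩)))

lemma Bal.bal {G : V → Prop} {σ : V → V → ZMod 2} (hb : Bal F G σ) (u w : V) (ε ε' : ZMod 2)
    (h : Wk F σ G 2 u w ε) (h' : Wk F σ G 2 u w ε') : ε = ε' := by
  rw [wk2] at h h'
  rcases h with ⟨rfl, rfl⟩ | ⟨h1, h2, h3, rfl⟩ | ⟨x, h1, h2, h3, h4, h5, rfl⟩
  · rcases h' with ⟨_, k⟩ | ⟨k1, _⟩ | ⟨y, k1, k2, k3, k4, k5, k6⟩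
    · exact k.symm
    · exact absurd rfl k1.ne
    · rw [k6, hb.sym y u, CharTwo.add_self_eq_zero]
  · rcases h' with ⟨k, _⟩ | ⟨k1, _, _, k⟩ | ⟨y, k1, k2, k3, k4, k5, k6⟩
    · exact absurd k h1.ne
    · exact k.symm
    · rw [k6]; exact (hb.b3 u y w k3 k4 k5 k1 k2 h1).symm
  · rcases h' with ⟨k, k'⟩ | ⟨k1, _, _, k⟩ | ⟨y, k1, k2, k3, k4, k5, k6⟩
    · subst k
      rw [k', hb.sym x u, CharTwo.add_self_eq_zero]
    · rw [k]; exact hb.b3 u x w h3 h4 h5 h1 h2 k1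
    · rw [k6]; exact hb.b4 u x y w h3 h4 k4 h5 h1 h2 k1 k2

/-- the signs at `a` and `b` of a new vertex adjacent to both have the sum `ε` -/
def Fo (F : SimpleGraph V) (G : V → Prop) (σ : V → V → ZMod 2) (b a : V) (ε : ZMod 2) : Prop :=
  (F.Adj b a ∧ ε = σ b a) ∨ ∃ p, G p ∧ F.Adj b p ∧ F.Adj p a ∧ ε = σ b p + σ p a

lemma Fo.symm {G : V → Prop} {σ : V → V → ZMod 2} (hs : ∀ u v, σ u v = σ v u) {b a : V}
    {ε : ZMod 2} (h : Fo F G σ b a ε) : Fo F G σ a b ε := by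
  rcases h with ⟨h1, h2⟩ | ⟨p, h1, h2, h3, h4⟩
  · exact Or.inl ⟨h1.symm, by rw [h2, hs]⟩
  · exact Or.inr ⟨p, h1, h3.symm, h2.symm, by rw [h4, hs a p, hs p b, add_comm]⟩

lemma Fo.unique {G : V → Prop} {σ : V → V → ZMod 2} (hb : Bal F G σ) {b a : V}
    {ε ε' : ZMod 2} (hB : G b) (hA : G a) (h : Fo F G σ b a ε) (h' : Fo F G σ b a ε') :
    ε = ε' := by
  rcases h with ⟨h1, rfl⟩ | ⟨p, h1, h2, h3, rfl⟩
  · rcases h' with ⟨k1, k2⟩ | ⟨q, k1, k2, k3, k4⟩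
    · exact k2.symm
    · rw [k4]; exact (hb.b3 b q a hB k1 hA k2 k3 h1).symm
  · rcases h' with ⟨k1, k2⟩ | ⟨q, k1, k2, k3, k4⟩
    · rw [k2]; exact hb.b3 b p a hB h1 hA h2 h3 k1
    · rw [k4]; exact hb.b4 b p q a hB h1 k1 hA h2 h3 k2 k3

/-- blocked vertices -/
def Blk (F : SimpleGraph V) (G : V → Prop) (σ : V → V → ZMod 2) (v : V) : Prop :=
  ∃ a b c, a ≠ b ∧ b ≠ c ∧ a ≠ c ∧ F.Adj v a ∧ F.Adj v b ∧ F.Adj v c ∧ G a ∧ G b ∧ G c ∧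
    ∃ ε1 ε2 ε3, Fo F G σ a b ε1 ∧ Fo F G σ b c ε2 ∧ Fo F G σ a c ε3 ∧ ε1 + ε2 ≠ ε3

/-- at most three neighbours -/
lemma deg_cases [Finite V] (hd : ∀ v, (F.neighborSet v).ncard ≤ 3) {v p q r x : V}
    (hp : F.Adj v p) (hq : F.Adj v q) (hr : F.Adj v r) (hpq : p ≠ q) (hpr : p ≠ r) (hqr : q ≠ r)
    (hx : F.Adj v x) : x = p ∨ x = q ∨ x = r := by
  classical
  by_contra h
  push Not at h
  have h1 : ({x, p, q, r} : Finset V).card = 4 := by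
    rw [Finset.card_insert_of_notMem, Finset.card_insert_of_notMem,
      Finset.card_insert_of_notMem, Finset.card_singleton]
    · simpa using hqr
    · simp only [Finset.mem_insert, Finset.mem_singleton, not_or]; exact ⟨hpq, hpr⟩
    · simp only [Finset.mem_insert, Finset.mem_singleton, not_or]; exact ⟨h.1, h.2.1, h.2.2⟩
  have h2 : (({x, p, q, r} : Finset V) : Set V) ⊆ F.neighborSet v := by
    intro y hy
    simp only [Finset.coe_insert, Finset.coe_singleton, Set.mem_insert_iff,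
      Set.mem_singleton_iff] at hy
    rcases hy with rfl | rfl | rfl | rfl
    · exact hx
    · exact hp
    · exact hq
    · exact hr
  have h3 := Set.ncard_le_ncard h2 (Set.toFinite _)
  rw [Set.ncard_coe_finset, h1] at h3
  have := hd v
  omega

lemma sum_ne_perm {x y z : ZMod 2} (h : x + y ≠ z) : x + z ≠ y ∧ z + y ≠ x := by
  revert x y z; decide

/-- every neighbour of a blocked vertex may be put in the first place -/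
lemma Blk.first [Finite V] (hd : ∀ v, (F.neighborSet v).ncard ≤ 3) {G : V → Prop}
    {σ : V → V → ZMod 2} (hs : ∀ u v, σ u v = σ v u) {v : V} (h : Blk F G σ v) {b : V}
    (hb : F.Adj v b) : G b ∧ ∃ a c, b ≠ a ∧ b ≠ c ∧ a ≠ c ∧ F.Adj v a ∧ F.Adj v c ∧ G a ∧ G c ∧
      ∃ ε1 ε2 ε3, Fo F G σ b a ε1 ∧ Fo F G σ b c ε2 ∧ Fo F G σ a c ε3 ∧ ε1 + ε2 ≠ ε3 := by
  obtain ⟨p, q, r, hpq, hqr, hpr, h1, h2, h3, g1, g2, g3, e1, e2, e3, f1, f2, f3, hne⟩ := h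
  have hp := sum_ne_perm hne
  rcases deg_cases hd h1 h2 h3 hpq hpr hqr hb with rfl | rfl | rfl
  · exact ⟨g1, q, r, hpq, hpr, hqr, h2, h3, g2, g3, e1, e3, e2, f1, f3, f2, hp.1⟩
  · exact ⟨g2, p, r, hpq.symm, hqr, hpr, h1, h3, g1, g3, e1, e2, e3, f1.symm hs, f2, f3, hne⟩
  · exact ⟨g3, p, q, hpr.symm, hqr.symm, hpq, h1, h2, g1, g2, e3, e2, e1, f3.symm hs,
      f2.symm hs, f1, hp.2⟩

/-- the second neighbourhood of a blocked vertex -/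
lemma Blk.star [Finite V] (hd : ∀ v, (F.neighborSet v).ncard ≤ 3) {G : V → Prop}
    {σ : V → V → ZMod 2} (hb : Bal F G σ) {v : V} (hG : ¬ G v) (h : Blk F G σ v) {b x : V}
    (hvb : F.Adj v b) (hbx : F.Adj b x) (hxv : x ≠ v) :
    G x ∧ (F.Adj v x ∨ ∃ a, F.Adj v a ∧ a ≠ b ∧ F.Adj x a) := by
  obtain ⟨gb, a, c, hba, hbc, hac, hva, hvc, ga, gc, e1, e2, e3, f1, f2, f3, hne⟩ :=
    h.first hd hb.sym hvb
  -- the next vertices
  obtain ⟨p, gp, hbp, hp⟩ : ∃ p, G p ∧ F.Adj b p ∧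
      ((p = a ∧ e1 = σ b a) ∨ (F.Adj p a ∧ e1 = σ b p + σ p a)) := by
    rcases f1 with ⟨h1, h2⟩ | ⟨p, h1, h2, h3, h4⟩
    · exact ⟨a, ga, h1, Or.inl ⟨rfl, h2⟩⟩
    · exact ⟨p, h1, h2, Or.inr ⟨h3, h4⟩⟩
  obtain ⟨q, gq, hbq, hq⟩ : ∃ q, G q ∧ F.Adj b q ∧
      ((q = c ∧ e2 = σ b c) ∨ (F.Adj q c ∧ e2 = σ b q + σ q c)) := by
    rcases f2 with ⟨h1, h2⟩ | ⟨p, h1, h2, h3, h4⟩
    · exact ⟨c, gc, h1, Or.inl ⟨rfl, h2⟩⟩
    · exact ⟨p, h1, h2, Or.inr ⟨h3, h4⟩⟩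
  have hpq : p ≠ q := by
    rintro rfl
    apply hne
    rcases hp with ⟨rfl, rfl⟩ | ⟨hpa, rfl⟩
    · rcases hq with ⟨h1, _⟩ | ⟨hqc, rfl⟩
      · exact absurd h1 hac
      · have h1 := f3.unique hb ga gc (Or.inl ⟨hqc, rfl⟩)
        rw [h1, ← add_assoc, CharTwo.add_self_eq_zero, zero_add]
    · rcases hq with ⟨rfl, rfl⟩ | ⟨hqc, rfl⟩
      · have h1 := f3.unique hb ga gc (Or.inl ⟨hpa.symm, rfl⟩)
        rw [h1, hb.sym a p, add_right_comm, CharTwo.add_self_eq_zero, zero_add]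
      · have h1 := f3.unique hb ga gc (Or.inr ⟨p, gp, hpa.symm, hqc, rfl⟩)
        rw [h1, hb.sym a p, add_add_add_comm, CharTwo.add_self_eq_zero, zero_add]
  have hvp : v ≠ p := fun h => hG (by rw [h]; exact gp)
  have hvq : v ≠ q := fun h => hG (by rw [h]; exact gq)
  rcases deg_cases hd hvb.symm hbp hbq hvp hvq hpq hbx with h1 | h1 | h1
  · exact absurd h1 hxv
  · subst h1
    refine ⟨gp, ?_⟩
    rcases hp with ⟨rfl, _⟩ | ⟨hpa, _⟩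
    · exact Or.inl hva
    · exact Or.inr ⟨a, hva, hba.symm, hpa⟩
  · subst h1
    refine ⟨gq, ?_⟩
    rcases hq with ⟨rfl, _⟩ | ⟨hqc, _⟩
    · exact Or.inl hvc
    · exact Or.inr ⟨c, hvc, hbc.symm, hqc⟩

end

end Pool.Agent.H730.MB
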