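import Pool.Agent.H730.MB.State

/-!
# Homomorphisms with the same state are connected; valid states are realised
-/

namespace Pool.Agent.H730.MB

section
variable {V : Type} {F : SimpleGraph V}

/-- level functions of a state -/
structure Lv (F : SimpleGraph V) (s : St V) (l : V → Fin 5) : Prop where
  w : ∀ u, l u = 0 ↔ u ∈ s.W
  t : ∀ u, l u = 4 ↔ u ∈ s.T
  lip : ∀ u v, F.Adj u v → (l u : ℕ) ≤ l v + 1

open Classical in
/-- the canonical level function -/
noncomputable def lv (F : SimpleGraph V) (s : St V) (u : V) : Fin 5 :=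
  if u ∈ s.W then 0 else if u ∈ s.T then 4 else if ∃ w ∈ s.W, Wd F 1 u w then 1
  else if ∃ w ∈ s.W, Wd F 2 u w then 2 else 3

lemma lv_le {s : St V} (hv : Valid F s) (u : V) {k : ℕ} (hk : k ≤ 2) :
    (lv F s u : ℕ) ≤ k ↔ ∃ w ∈ s.W, Wd F k u w := by
  constructor
  · intro h
    unfold lv at h
    split_ifs at h with h1 h2 h3 h4
    · exact ⟨u, h1, Wd.refl _ _⟩
    · exfalso
      have : ((4 : Fin 5) : ℕ) = 4 := rfl
      omega
    · obtain ⟨w, hw, h5⟩ := h3
      have : ((1 : Fin 5) : ℕ) = 1 := rfl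
      exact ⟨w, hw, h5.mono' (by omega)⟩
    · obtain ⟨w, hw, h5⟩ := h4
      have : ((2 : Fin 5) : ℕ) = 2 := rfl
      exact ⟨w, hw, h5.mono' (by omega)⟩
    · exfalso
      have : ((3 : Fin 5) : ℕ) = 3 := rfl
      omega
  · rintro ⟨w, hw, h⟩
    have hT : u ∉ s.T := fun hu => hv.dist w hw u hu (h.symm.mono' (by omega))
    unfold lv
    split_ifs with h1 h3 h4
    · simp
    · rcases k with _ | k
      · exact absurd (by rw [show u = w from h]; exact hw) h1
      · have : ((1 : Fin 5) : ℕ) = 1 := rfl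
        omega
    · rcases k with _ | _ | k
      · exact absurd (by rw [show u = w from h]; exact hw) h1
      · exact absurd ⟨w, hw, h⟩ h3
      · have : ((2 : Fin 5) : ℕ) = 2 := rfl
        omega
    · exfalso
      apply h4
      exact ⟨w, hw, h.mono' hk⟩

lemma lv_ok {s : St V} (hv : Valid F s) : Lv F s (lv F s) := by
  refine ⟨fun u => ?_, fun u => ?_, fun u v huv => ?_⟩
  · constructor
    · intro h
      have h1 : (lv F s u : ℕ) ≤ 0 := by rw [h]; simp
      obtain ⟨w, hw, h2⟩ := (lv_le hv u (by omega)).1 h1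
      rw [show u = w from h2]; exact hw
    · intro h
      unfold lv; rw [if_pos h]
  · constructor
    · intro h
      by_contra h2
      unfold lv at h
      rw [if_neg h2] at h
      split_ifs at h <;> exact absurd h (by decide)
    · intro h
      have h1 : u ∉ s.W := fun hw => hv.dist u hw u h (Wd.refl _ _)
      unfold lv; rw [if_neg h1, if_pos h]
  · by_cases h2 : (lv F s v : ℕ) ≤ 1
    · obtain ⟨w, hw, h3⟩ := (lv_le hv v (k := (lv F s v : ℕ)) (by omega)).1 le_rfl
      exact (lv_le hv u (by omega)).2 ⟨w, hw, h3.cons huv⟩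
    · by_cases h3 : (lv F s v : ℕ) ≤ 2
      · have h4 : (lv F s v : ℕ) = 2 := by omega
        obtain ⟨w, hw, h5⟩ := (lv_le hv v (k := 2) (by omega)).1 h3
        have h6 : u ∉ s.T := fun hu => hv.dist w hw u hu (h5.cons huv).symm
        have h7 : lv F s u ≠ 4 := by
          intro h7
          unfold lv at h7
          rw [if_neg h6] at h7
          split_ifs at h7 <;> exact absurd h7 (by decide)
        have h8 := (lv F s u).isLt
        have h9 : (lv F s u : ℕ) ≠ 4 := fun h => h7 (Fin.ext h)
        omega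
      · have h8 := (lv F s u).isLt
        omega

lemma Rz.lv {f : V → R} {s : St V} (hf : Rz F f s) : Lv F s (fun u => (f u).1) :=
  ⟨hf.w, hf.t, fun u v huv => (hf.hom u v huv).1⟩

lemma radj_mk {s : St V} {a b : Fin 5} {u v : V} {x y : X} (h1 : (a : ℕ) ≤ b + 1)
    (h2 : (b : ℕ) ≤ a + 1) (h3 : ¬ s.mid u → a = 0 ∨ a = 4) (h4 : ¬ s.mid v → b = 0 ∨ b = 4)
    (h : s.mid u → s.mid v → ∃ δ, Near δ x y) : RAdj (a, x) (b, y) := by
  refine ⟨h1, h2, ?_⟩
  by_cases hu : s.mid u
  · by_cases hv : s.mid v
    · exact Or.inr (Or.inr (Or.inr (Or.inr (h hu hv))))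
    · rcases h4 hv with h | h
      · exact Or.inr (Or.inr (Or.inl h))
      · exact Or.inr (Or.inr (Or.inr (Or.inl h)))
  · rcases h3 hu with h | h
    · exact Or.inl h
    · exact Or.inr (Or.inl h)

lemma Lv.tip {s : St V} {l : V → Fin 5} (h : Lv F s l) {u : V} (hu : ¬ s.mid u) :
    l u = 0 ∨ l u = 4 := by
  by_cases h1 : u ∈ s.W
  · exact Or.inl ((h.w u).2 h1)
  · by_cases h2 : u ∈ s.T
    · exact Or.inr ((h.t u).2 h2)
    · exact absurd ⟨h1, h2⟩ hu

lemma Lv.of_mid {s : St V} {l : V → Fin 5} (h : Lv F s l) {u : V} (hu : s.mid u) :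
    1 ≤ (l u : ℕ) ∧ (l u : ℕ) ≤ 3 := by
  have h1 : l u ≠ 0 := fun h0 => hu.1 ((h.w u).1 h0)
  have h2 : l u ≠ 4 := fun h0 => hu.2 ((h.t u).1 h0)
  have h3 : (l u : ℕ) ≠ 0 := fun h0 => h1 (Fin.ext h0)
  have h4 : (l u : ℕ) ≠ 4 := fun h0 => h2 (Fin.ext h0)
  have := (l u).isLt
  omega

/-- all levels may be made canonical -/
lemma level_canon [Finite V] {s : St V} (hv : Valid F s) {f : V → R} (hf : Rz F f s) :
    Cn F RAdj f (fun u => (lv F s u, (f u).2)) := by
  classical
  have hl := hf.lv
  have hc := lv_ok hv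
  -- comparison of the levels
  have hle : ∀ u, ((f u).1 : ℕ) ≤ lv F s u := by
    intro u
    by_cases h2 : (lv F s u : ℕ) ≤ 2
    · obtain ⟨w, hw, h3⟩ := (lv_le hv u (k := (lv F s u : ℕ)) h2).1 le_rfl
      have h4 := (level_wd hf.hom h3).1
      have h5 : (f w).1 = 0 := (hf.w w).2 hw
      rw [h5] at h4
      simpa using h4
    · by_cases h3 : u ∈ s.T
      · rw [(hc.t u).2 h3, (hf.t u).2 h3]
      · have h4 : (f u).1 ≠ 4 := fun h => h3 ((hf.t u).1 h)
        have h5 : ((f u).1 : ℕ) ≠ 4 := fun h => h4 (Fin.ext h)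
        have := (f u).1.isLt
        omega
  have h00 : ∀ u, ((f u).1 : ℕ) = 0 ↔ (lv F s u : ℕ) = 0 := by
    intro u
    have a1 := hf.w u
    have a2 := hc.w u
    constructor
    · intro h
      have := a2.2 (a1.1 (Fin.ext h))
      rw [this]; rfl
    · intro h
      have := a1.2 (a2.1 (Fin.ext h))
      rw [this]; rfl
  have h44 : ∀ u, ((f u).1 : ℕ) = 4 ↔ (lv F s u : ℕ) = 4 := by
    intro u
    have a1 := hf.t u
    have a2 := hc.t u
    constructor
    · intro h
      have := a2.2 (a1.1 (Fin.ext h))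
      rw [this]; rfl
    · intro h
      have := a1.2 (a2.1 (Fin.ext h))
      rw [this]; rfl
  let l1 : V → Fin 5 := fun u => if ((f u).1 : ℕ) = 1 ∧ 2 ≤ (lv F s u : ℕ) then 2 else (f u).1
  have hl1 : ∀ u, (l1 u : ℕ) = if ((f u).1 : ℕ) = 1 ∧ 2 ≤ (lv F s u : ℕ) then 2
      else ((f u).1 : ℕ) := by
    intro u
    dsimp only [l1]
    split_ifs <;> rfl
  have hl1tip : ∀ u, ¬ s.mid u → l1 u = 0 ∨ l1 u = 4 := by
    intro u hu
    have h1 := hl.tip hu
    dsimp only [l1]
    rw [if_neg]
    · exact h1
    · rintro ⟨h2, _⟩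
      rcases h1 with h1 | h1
      · have h1' : (f u).1 = 0 := h1
        rw [h1'] at h2
        norm_num at h2
      · have h1' : (f u).1 = 4 := h1
        rw [h1'] at h2
        norm_num at h2
  have hn : ∀ u v, F.Adj u v → s.mid u → s.mid v → ∃ δ, Near δ (f u).2 (f v).2 :=
    fun u v huv hu hv' => ⟨_, hf.near u v huv hu hv'⟩
  have step1 : Cn F RAdj f (fun u => (l1 u, (f u).2)) := by
    apply mix (fun a b h => h.symm)
    · exact hf.hom
    · intro u v huv
      have a1 := hl.lip u v huv
      have a2 := hl.lip v u huv.symm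
      have b1 := hc.lip u v huv
      have b2 := hc.lip v u huv.symm
      have c1 := hl1 v
      have e1 := h00 u
      have e2 := h00 v
      have e3 := h44 u
      have e4 := h44 v
      have e5 := hle u
      have e6 := hle v
      refine radj_mk (s := s) (u := u) (v := v) ?_ ?_ (fun h => hl.tip h) (hl1tip v) (hn u v huv)
      · rw [c1]; split_ifs <;> omega
      · rw [c1]; split_ifs <;> omega
    · intro u v huv
      have a1 := hl.lip u v huv
      have a2 := hl.lip v u huv.symm
      have b1 := hc.lip u v huv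
      have b2 := hc.lip v u huv.symm
      have c1 := hl1 v
      have c2 := hl1 u
      have e1 := h00 u
      have e2 := h00 v
      have e3 := h44 u
      have e4 := h44 v
      have e5 := hle u
      have e6 := hle v
      refine radj_mk (s := s) (u := u) (v := v) ?_ ?_ (hl1tip u) (hl1tip v) (hn u v huv)
      · rw [c1, c2]; split_ifs <;> omega
      · rw [c1, c2]; split_ifs <;> omega
  have step2 : Cn F RAdj (fun u => (l1 u, (f u).2)) (fun u => (lv F s u, (f u).2)) := by
    apply mix (fun a b h => h.symm)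
    · intro u v huv
      have a1 := hl.lip u v huv
      have a2 := hl.lip v u huv.symm
      have b1 := hc.lip u v huv
      have b2 := hc.lip v u huv.symm
      have c1 := hl1 v
      have c2 := hl1 u
      have e1 := h00 u
      have e2 := h00 v
      have e3 := h44 u
      have e4 := h44 v
      have e5 := hle u
      have e6 := hle v
      refine radj_mk (s := s) (u := u) (v := v) ?_ ?_ (hl1tip u) (hl1tip v) (hn u v huv)
      · rw [c1, c2]; split_ifs <;> omega
      · rw [c1, c2]; split_ifs <;> omega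
    · intro u v huv
      have a1 := hl.lip u v huv
      have a2 := hl.lip v u huv.symm
      have b1 := hc.lip u v huv
      have b2 := hc.lip v u huv.symm
      have c2 := hl1 u
      have e1 := h00 u
      have e2 := h00 v
      have e3 := h44 u
      have e4 := h44 v
      have e5 := hle u
      have e6 := hle v
      have e7 := (lv F s u).isLt
      have e8 := (lv F s v).isLt
      refine radj_mk (s := s) (u := u) (v := v) ?_ ?_ (hl1tip u) (fun h => hc.tip h) (hn u v huv)
      · rw [c2]; split_ifs <;> omega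
      · rw [c2]; split_ifs <;> omega
    · intro u v huv
      exact radj_mk (s := s) (u := u) (v := v) (hc.lip u v huv) (hc.lip v u huv.symm)
        (fun h => hc.tip h) (fun h => hc.tip h) (hn u v huv)
  exact step1.trans step2

end

end Pool.Agent.H730.MB
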