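import Mathlib

/-!
# A reflexive graph `R` and a finite graph `H = R × K₅`

`X` is the set of chains `a0 ⊆ a1 ⊆ a2` of consistent sets of signed names, `Near δ x y` the
adjacency with sign `δ`. The reflexive graph `R` is the suspension of `X` with the levels
`0, 1, 2, 3, 4`, the levels `0` and `4` being the two tips. `H` is the tensor product of `R` with
the complete graph on five vertices.
-/

namespace Pool.Agent.H730.MB

/-- names -/
abbrev Nm : Type := Fin 1000

/-- chains of consistent sets of signed names -/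
@[ext] structure X : Type where
  a0 : Set (Nm × ZMod 2)
  a1 : Set (Nm × ZMod 2)
  a2 : Set (Nm × ZMod 2)
  h01 : a0 ⊆ a1
  h12 : a1 ⊆ a2
  ne : a0.Nonempty
  cons : ∀ q ε ε', (q, ε) ∈ a2 → (q, ε') ∈ a2 → ε = ε'

instance : Finite X :=
  Finite.of_injective (fun x : X => (x.a0, x.a1, x.a2)) (by
    intro x y h
    simp only [Prod.mk.injEq] at h
    exact X.ext h.1 h.2.1 h.2.2)

/-- one half of the adjacency with sign `δ` -/
def Half (δ : ZMod 2) (x y : X) : Prop :=
  (∀ q ε, (q, ε) ∈ x.a0 → (q, ε + δ) ∈ y.a1) ∧ (∀ q ε, (q, ε) ∈ x.a1 → (q, ε + δ) ∈ y.a2)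

/-- adjacency with sign `δ` -/
def Near (δ : ZMod 2) (x y : X) : Prop := Half δ x y ∧ Half δ y x

lemma Near.symm {δ : ZMod 2} {x y : X} (h : Near δ x y) : Near δ y x := ⟨h.2, h.1⟩

/-- the vertices of the reflexive graph `R` -/
abbrev R : Type := Fin 5 × X

/-- the adjacency of the reflexive graph `R` -/
def RAdj (p q : R) : Prop :=
  (p.1 : ℕ) ≤ q.1 + 1 ∧ (q.1 : ℕ) ≤ p.1 + 1 ∧
    (p.1 = 0 ∨ p.1 = 4 ∨ q.1 = 0 ∨ q.1 = 4 ∨ ∃ δ, Near δ p.2 q.2)

lemma RAdj.symm {p q : R} (h : RAdj p q) : RAdj q p := by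
  obtain ⟨h1, h2, h3⟩ := h
  refine ⟨h2, h1, ?_⟩
  rcases h3 with h | h | h | h | ⟨δ, h⟩
  · exact Or.inr (Or.inr (Or.inl h))
  · exact Or.inr (Or.inr (Or.inr (Or.inl h)))
  · exact Or.inl h
  · exact Or.inr (Or.inl h)
  · exact Or.inr (Or.inr (Or.inr (Or.inr ⟨δ, h.symm⟩)))

/-- the finite simple graph `H = R × K₅` -/
def H : SimpleGraph (R × Fin 5) where
  Adj a b := RAdj a.1 b.1 ∧ a.2 ≠ b.2
  symm := ⟨fun _ _ h => ⟨h.1.symm, h.2.symm⟩⟩
  loopless := ⟨fun _ h => h.2 rfl⟩

noncomputable instance : Fintype (R × Fin 5) := Fintype.ofFinite _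

/-! ### Geometric realisation of the neighbourhood complex, mobility -/

/-- The geometric realisation of the neighbourhood complex of `H`: probability vectors on `V`
whose support has a common neighbour. -/
def nbhd {V : Type} [Fintype V] (H : SimpleGraph V) : Set (V → ℝ) :=
  {x | (∀ v, 0 ≤ x v) ∧ ∑ v, x v = 1 ∧ ∃ u, ∀ v, x v ≠ 0 → H.Adj u v}

/-- two maps differ at exactly one point -/
def DiffOne {W V : Type} (f g : W → V) : Prop := ∃ w, f w ≠ g w ∧ ∀ x, x ≠ w → f x = g x

/-- `Hom(F,H)` is empty or connected under single vertex changes -/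
def HomConnected {W V : Type} (F : SimpleGraph W) (H : SimpleGraph V) : Prop :=
  ∀ f g : F →g H, Relation.ReflTransGen (fun a b : F →g H => DiffOne a b) f g

/-- `H` is `d`-mobile (`d ≥ 2`): `Hom(F,H)` is empty or connected for all finite simple graphs
`F` of maximum degree at most `d - 2` -/
def Mobile {V : Type} (H : SimpleGraph V) (d : ℕ) : Prop :=
  ∀ (W : Type) [Finite W] (F : SimpleGraph W),
    (∀ v, (F.neighborSet v).ncard ≤ d - 2) → HomConnected F H

/-! ### Homomorphisms as functions, connectedness -/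

section
variable {V α : Type} (F : SimpleGraph V) (A : α → α → Prop)

/-- homomorphism from `F` to the (reflexive) graph with adjacency `A` -/
def IsHom (f : V → α) : Prop := ∀ u v, F.Adj u v → A (f u) (f v)

/-- two homomorphisms differing in at most one vertex -/
def Step (f g : V → α) : Prop := IsHom F A f ∧ IsHom F A g ∧ ∃ w, ∀ x, x ≠ w → f x = g x

/-- connected by changes of single vertices -/
def Cn (f g : V → α) : Prop := Relation.ReflTransGen (Step F A) f g

end

end Pool.Agent.H730.MB
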