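import Pool.Agent.H730.MB.Sgn

/-!
# The explicit labelling has parity one
-/

namespace Pool.Agent.H730.MB

namespace EvalL

lemma two_zero : (2 : ZMod 2) = 0 := by decide

lemma tele (f : ℕ → ZMod 2) (n : ℕ) :
    ∑ k ∈ Finset.range n, (f k + f (k + 1)) = f 0 + f n := by
  induction n with
  | zero => simp only [Finset.range_zero, Finset.sum_empty]; linear_combination (-f 0) * two_zero
  | succ n ih => rw [Finset.sum_range_succ, ih]; linear_combination (f n) * two_zero

lemma mid_of {p : R} (h1 : 1 ≤ (p.1 : ℕ)) (h2 : (p.1 : ℕ) ≤ 3) : mid p := by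
  constructor
  · intro h
    rw [h] at h1
    exact absurd h1 (by decide)
  · intro h
    rw [h] at h2
    exact absurd h2 (by decide)

/-- the sign of the last name -/
def b (M : ℕ) : ZMod 2 := if M = 5 then 1 else 0

lemma bounds {c i n L : ℕ} (hn : 0 < n) (h : |(c : ℝ) * ((i : ℝ) / n) - (L : ℝ)| < 1) :
    c * i < (L + 1) * n ∧ L * n < c * i + n := by
  have hn' : (0 : ℝ) < n := by exact_mod_cast hn
  rw [abs_lt] at h
  obtain ⟨h1, h2⟩ := h
  have e : (c : ℝ) * ((i : ℝ) / n) * n = c * i := by field_simp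
  constructor
  · have h3 : (c : ℝ) * ((i : ℝ) / n) * n < (L + 1) * n :=
      mul_lt_mul_of_pos_right (by linarith) hn'
    rw [e] at h3
    exact_mod_cast h3
  · have h3 : (L : ℝ) * n < (c * ((i : ℝ) / n) + 1) * n :=
      mul_lt_mul_of_pos_right (by linarith) hn'
    rw [add_mul, e, one_mul] at h3
    exact_mod_cast h3

lemma le_of_lt_mul {a c n : ℕ} (h : a * n < c * n) : a < c := Nat.lt_of_mul_lt_mul_right h

lemma sg_th (θ : ℕ → X) (h01 : Near 0 (θ 0) (θ 1)) (h12 : Near 0 (θ 1) (θ 2))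
    (h23 : Near 0 (θ 2) (θ 3)) (h34 : Near 0 (θ 3) (θ 4)) (h40 : Near 1 (θ 4) (θ 5))
    (M M' : ℕ) (hM : M ≤ 5) (hM' : M' ≤ 5) (h1 : M ≤ M' + 2) (h2 : M' ≤ M + 2) :
    sg (θ M) (θ M') = b M + b M' := by
  have hN : ∀ a, a < 5 → Near (b a + b (a + 1)) (θ a) (θ (a + 1)) := by
    intro a ha
    interval_cases a
    · exact h01
    · exact h12
    · exact h23
    · exact h34
    · exact h40
  have key : ∀ M M' : ℕ, M' ≤ 5 → M ≤ M' → M' ≤ M + 2 → sg (θ M) (θ M') = b M + b M' := by
    intro M M' hM' h1 h2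
    obtain ⟨c, rfl⟩ := Nat.exists_eq_add_of_le h1
    have hc : c ≤ 2 := by omega
    interval_cases c
    · rw [add_zero, sg_self]
      linear_combination (-b M) * two_zero
    · exact sg_of_rel2 (rel2_of_near (hN M (by omega)))
    · refine sg_of_rel2 ⟨θ (M + 1), b M + b (M + 1), b (M + 1) + b (M + 2), hN M (by omega),
        hN (M + 1) (by omega), ?_⟩
      linear_combination (-b (M + 1)) * two_zero
  rcases le_total M M' with h | h
  · exact key M M' hM' h h2
  · rw [sg_comm, key M' M hM h h1, add_comm]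

end EvalL

open EvalL

theorem eval (θ : ℕ → X) (h01 : Near 0 (θ 0) (θ 1)) (h12 : Near 0 (θ 1) (θ 2))
    (h23 : Near 0 (θ 2) (θ 3)) (h34 : Near 0 (θ 3) (θ 4)) (h40 : Near 1 (θ 4) (θ 5))
    (h5 : θ 5 = θ 0) (n : ℕ) (hn : 0 < n) (h20 : 20 ∣ n) (r : ℕ → ℕ → R)
    (hs : ∀ i, r i 0 = r i n)
    (hr : ∀ i j, i ≤ n → j ≤ n →
      |4 * ((i : ℝ) / n) - ((r i j).1 : ℕ)| < 1 ∧
      (mid (r i j) → ∃ M : ℕ, M ≤ 5 ∧ (r i j).2 = θ M ∧ |5 * ((j : ℝ) / n) - M| < 1)) :
    ∑ i ∈ Finset.range n, ∑ j ∈ Finset.range n,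
      csq (r i j) (r (i + 1) j) (r (i + 1) (j + 1)) (r i (j + 1)) = 1 := by
  have _ := h5
  obtain ⟨q, hq⟩ := h20
  set m : ℕ := 10 * q with hm
  have hnm : n = m + m := by omega
  have hn20 : 20 ≤ n := by
    rcases Nat.eq_zero_or_pos q with h | h
    · subst h
      omega
    · omega
  have hlev : ∀ i j, i ≤ n → j ≤ n → 4 * i < (((r i j).1 : ℕ) + 1) * n ∧
      ((r i j).1 : ℕ) * n < 4 * i + n := by
    intro i j hi hj
    have h := (hr i j hi hj).1
    have h' : |((4 : ℕ) : ℝ) * ((i : ℝ) / n) - (((r i j).1 : ℕ) : ℝ)| < 1 := by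
      push_cast
      exact h
    exact bounds hn h'
  have hmd : ∀ i j, i ≤ n → j ≤ n → mid (r i j) → ∃ M : ℕ, M ≤ 5 ∧ (r i j).2 = θ M ∧
      5 * j < (M + 1) * n ∧ M * n < 5 * j + n := by
    intro i j hi hj hmid
    obtain ⟨M, hM, hM2, hM3⟩ := (hr i j hi hj).2 hmid
    have h' : |((5 : ℕ) : ℝ) * ((j : ℝ) / n) - (M : ℝ)| < 1 := by
      push_cast
      exact hM3
    exact ⟨M, hM, hM2, bounds hn h'⟩
  -- comparison of the names of adjacent labels
  have hcmp : ∀ j j' M M' : ℕ, j ≤ j' + 1 → 5 * j' < (M' + 1) * n → M * n < 5 * j + n →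
      M ≤ M' + 2 := by
    intro j j' M M' hj h1 h2
    by_contra hc
    have h3 : (M' + 3) * n ≤ M * n := Nat.mul_le_mul_right n (by omega)
    have e1 : (M' + 3) * n = M' * n + 3 * n := by ring
    have e2 : (M' + 1) * n = M' * n + n := by ring
    omega
  have hes : ∀ i j i' j', i ≤ n → j ≤ n → i' ≤ n → j' ≤ n → j ≤ j' + 1 → j' ≤ j + 1 →
      mid (r i j) → mid (r i' j') → ∀ M M', M ≤ 5 → M' ≤ 5 → (r i j).2 = θ M →
      (r i' j').2 = θ M' → 5 * j < (M + 1) * n → M * n < 5 * j + n →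
      5 * j' < (M' + 1) * n → M' * n < 5 * j' + n →
      es (r i j) (r i' j') = b M + b M' := by
    intro i j i' j' hi hj hi' hj' hjj hjj' m1 m2 M M' hM hM' e1 e2 a1 a2 a3 a4
    unfold es
    rw [if_pos ⟨m1, m2⟩, e1, e2]
    exact sg_th θ h01 h12 h23 h34 h40 M M' hM hM' (hcmp j j' M M' hjj a3 a2)
      (hcmp j' j M' M hjj' a1 a4)
  -- the lower half
  have hlow : ∀ i, i < m → ∑ j ∈ Finset.range n,
      csq (r i j) (r (i + 1) j) (r (i + 1) (j + 1)) (r i (j + 1)) = 0 := by
    intro i hi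
    refine Finset.sum_eq_zero fun j hj => ?_
    rw [Finset.mem_range] at hj
    have hnu : ∀ i' j', i' ≤ m → j' ≤ n → ¬ up (r i' j') := by
      intro i' j' hi' hj' hu
      unfold up at hu
      obtain ⟨-, h2⟩ := hlev i' j' (by omega) hj'
      have h3 : 3 * n ≤ ((r i' j').1 : ℕ) * n := Nat.mul_le_mul_right n hu
      omega
    unfold csq
    rw [if_neg]
    rintro (h | h | h | h)
    · exact hnu i j (by omega) (by omega) h
    · exact hnu (i + 1) j (by omega) (by omega) h
    · exact hnu (i + 1) (j + 1) (by omega) (by omega) h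
    · exact hnu i (j + 1) (by omega) (by omega) h
  -- the upper half
  have hlev2 : ∀ i j, m ≤ i → i ≤ n → j ≤ n → 2 ≤ ((r i j).1 : ℕ) := by
    intro i j hi hi' hj
    obtain ⟨h1, -⟩ := hlev i j hi' hj
    by_contra hc
    have h3 : (((r i j).1 : ℕ) + 1) * n ≤ 2 * n := Nat.mul_le_mul_right n (by omega)
    omega
  have hup : ∀ i j, m ≤ i → i < n → j < n →
      csq (r i j) (r (i + 1) j) (r (i + 1) (j + 1)) (r i (j + 1)) =
      (es (r i j) (r (i + 1) j) + es (r i (j + 1)) (r (i + 1) (j + 1))) +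
      (es (r i j) (r i (j + 1)) + es (r (i + 1) j) (r (i + 1) (j + 1))) := by
    intro i j hi hi' hj
    unfold csq
    split_ifs with h
    · rw [es_comm (r (i + 1) (j + 1)) (r i (j + 1)), es_comm (r i (j + 1)) (r i j)]
      ring
    · unfold up at h
      simp only [not_or, not_le] at h
      obtain ⟨g1, g2, g3, g4⟩ := h
      have l1 := hlev2 i j hi (by omega) (by omega)
      have l2 := hlev2 (i + 1) j (by omega) (by omega) (by omega)
      have l3 := hlev2 (i + 1) (j + 1) (by omega) (by omega) (by omega)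
      have l4 := hlev2 i (j + 1) hi (by omega) (by omega)
      have m1 : mid (r i j) := mid_of (by omega) (by omega)
      have m2 : mid (r (i + 1) j) := mid_of (by omega) (by omega)
      have m3 : mid (r (i + 1) (j + 1)) := mid_of (by omega) (by omega)
      have m4 : mid (r i (j + 1)) := mid_of (by omega) (by omega)
      obtain ⟨M1, a1, b1, c1, d1⟩ := hmd i j (by omega) (by omega) m1
      obtain ⟨M2, a2, b2, c2, d2⟩ := hmd (i + 1) j (by omega) (by omega) m2
      obtain ⟨M3, a3, b3, c3, d3⟩ := hmd (i + 1) (j + 1) (by omega) (by omega) m3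
      obtain ⟨M4, a4, b4, c4, d4⟩ := hmd i (j + 1) (by omega) (by omega) m4
      rw [hes i j (i + 1) j (by omega) (by omega) (by omega) (by omega) (by omega) (by omega)
          m1 m2 M1 M2 a1 a2 b1 b2 c1 d1 c2 d2,
        hes i (j + 1) (i + 1) (j + 1) (by omega) (by omega) (by omega) (by omega) (by omega)
          (by omega) m4 m3 M4 M3 a4 a3 b4 b3 c4 d4 c3 d3,
        hes i j i (j + 1) (by omega) (by omega) (by omega) (by omega) (by omega) (by omega)
          m1 m4 M1 M4 a1 a4 b1 b4 c1 d1 c4 d4,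
        hes (i + 1) j (i + 1) (j + 1) (by omega) (by omega) (by omega) (by omega) (by omega)
          (by omega) m2 m3 M2 M3 a2 a3 b2 b3 c2 d2 c3 d3]
      linear_combination (-(b M1 + b M2 + b M3 + b M4)) * two_zero
  set Hh : ℕ → ZMod 2 := fun i => ∑ j ∈ Finset.range n, es (r i j) (r i (j + 1)) with hHh
  have hrow : ∀ i, m ≤ i → i < n → ∑ j ∈ Finset.range n,
      csq (r i j) (r (i + 1) j) (r (i + 1) (j + 1)) (r i (j + 1)) = Hh i + Hh (i + 1) := by
    intro i hi hi'
    rw [Finset.sum_congr rfl fun j hj => hup i j hi hi' (Finset.mem_range.1 hj),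
      Finset.sum_add_distrib, tele (fun j => es (r i j) (r (i + 1) j)) n,
      Finset.sum_add_distrib, hs i, hs (i + 1)]
    simp only [hHh]
    linear_combination (es (r i n) (r (i + 1) n)) * two_zero
  have hHn : Hh n = 0 := by
    simp only [hHh]
    refine Finset.sum_eq_zero fun j hj => ?_
    rw [Finset.mem_range] at hj
    unfold es
    rw [if_neg]
    rintro ⟨⟨-, h⟩, -⟩
    apply h
    obtain ⟨h1, -⟩ := hlev n j le_rfl (by omega)
    have h2 := le_of_lt_mul h1
    have h3 : ((r n j).1 : ℕ) < 5 := (r n j).1.2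
    apply Fin.ext
    have h4 : ((4 : Fin 5) : ℕ) = 4 := rfl
    rw [h4]
    omega
  have hHm : Hh m = 1 := by
    have hmid : ∀ j, j ≤ n → mid (r m j) := by
      intro j hj
      obtain ⟨h1, h2⟩ := hlev m j (by omega) hj
      have h3 : ((r m j).1 : ℕ) * n < 3 * n := by omega
      have h4 := le_of_lt_mul h3
      exact mid_of (by have := hlev2 m j le_rfl (by omega) hj; omega) (by omega)
    have hex : ∀ j, ∃ M : ℕ, j ≤ n → M ≤ 5 ∧ (r m j).2 = θ M ∧
        5 * j < (M + 1) * n ∧ M * n < 5 * j + n := by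
      intro j
      by_cases hj : j ≤ n
      · obtain ⟨M, hM⟩ := hmd m j (by omega) hj (hmid j hj)
        exact ⟨M, fun _ => hM⟩
      · exact ⟨0, fun h => absurd h hj⟩
    choose M hM using hex
    have e : Hh m = ∑ j ∈ Finset.range n, (b (M j) + b (M (j + 1))) := by
      simp only [hHh]
      refine Finset.sum_congr rfl fun j hj => ?_
      rw [Finset.mem_range] at hj
      obtain ⟨a1, b1, c1, d1⟩ := hM j (by omega)
      obtain ⟨a2, b2, c2, d2⟩ := hM (j + 1) (by omega)
      exact hes m j m (j + 1) (by omega) (by omega) (by omega) (by omega) (by omega) (by omega)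
        (hmid j (by omega)) (hmid (j + 1) (by omega)) _ _ a1 a2 b1 b2 c1 d1 c2 d2
    rw [e, tele (fun j => b (M j)) n]
    obtain ⟨a0, -, -, d0⟩ := hM 0 (by omega)
    obtain ⟨an, -, cn, -⟩ := hM n le_rfl
    have m0 : M 0 < 1 := le_of_lt_mul (a := M 0) (c := 1) (n := n) (by omega)
    have mn : 5 < M n + 1 := le_of_lt_mul (n := n) cn
    have e0 : M 0 = 0 := by omega
    have en : M n = 5 := by omega
    rw [e0, en]
    rfl
  -- assembly
  have hsum : ∑ i ∈ Finset.range n, ∑ j ∈ Finset.range n,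
      csq (r i j) (r (i + 1) j) (r (i + 1) (j + 1)) (r i (j + 1)) =
      ∑ x ∈ Finset.range m, (Hh (m + x) + Hh (m + x + 1)) := by
    have h1 : Finset.range n = Finset.range (m + m) := by rw [hnm]
    rw [h1, Finset.sum_range_add, ← h1,
      Finset.sum_eq_zero fun i hi => hlow i (Finset.mem_range.1 hi), zero_add]
    refine Finset.sum_congr rfl fun x hx => ?_
    rw [Finset.mem_range] at hx
    exact hrow (m + x) (by omega) (by omega)
  rw [hsum]
  have ht := tele (fun x => Hh (m + x)) m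
  have e1 : ∑ x ∈ Finset.range m, (Hh (m + x) + Hh (m + x + 1)) =
      ∑ x ∈ Finset.range m, (Hh (m + x) + Hh (m + (x + 1))) := rfl
  rw [e1, ht, ← hnm, hHn, add_zero, add_zero]
  exact hHm

end Pool.Agent.H730.MB
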