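import Pool.Agent.H730.MB.Comb

/-!
# A vertex which is not blocked may be released
-/

namespace Pool.Agent.H730.MB

section
variable {V : Type} {F : SimpleGraph V}

/-- at most three neighbours -/
lemma deg_four [Finite V] (hd : ∀ v, (F.neighborSet v).ncard ≤ 3) {v p q r x : V}
    (hp : F.Adj v p) (hq : F.Adj v q) (hr : F.Adj v r) (hx : F.Adj v x)
    (hpq : p ≠ q) (hpr : p ≠ r) (hpx : p ≠ x) (hqr : q ≠ r) (hqx : q ≠ x) (hrx : r ≠ x) :
    False := by
  rcases deg_cases hd hp hq hr hpq hpr hqr hx with h | h | h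
  · exact hpx h.symm
  · exact hqx h.symm
  · exact hrx h.symm

open Classical in
/-- the forced value of a pair -/
noncomputable def fv (F : SimpleGraph V) (G : V → Prop) (σ : V → V → ZMod 2) (a b : V) : ZMod 2 :=
  if Fo F G σ a b 1 then 1 else 0

lemma fv_eq {G : V → Prop} {σ : V → V → ZMod 2} (hb : Bal F G σ) {a b : V}
    {ε : ZMod 2} (hA : G a) (hB : G b) (h : Fo F G σ a b ε) : fv F G σ a b = ε := by
  unfold fv
  have h01 : ∀ δ : ZMod 2, δ = 0 ∨ δ = 1 := by decide
  split_ifs with h1
  · exact h1.unique hb hA hB h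
  · rcases h01 ε with rfl | rfl
    · rfl
    · exact absurd h h1

/-- signs for the edges at a vertex which is not blocked -/
lemma exists_signs [Finite V] (hd : ∀ v, (F.neighborSet v).ncard ≤ 3) {G : V → Prop}
    {σ : V → V → ZMod 2} (hb : Bal F G σ) {v : V} (h : ¬ Blk F G σ v) :
    ∃ s : V → ZMod 2, ∀ a b, F.Adj v a → F.Adj v b → G a → G b → a ≠ b →
      ∀ ε, Fo F G σ a b ε → s a + s b = ε := by
  classical
  by_cases hne : ∃ c, F.Adj v c ∧ G c
  · -- choose the reference vertex
    have key : ∃ c, F.Adj v c ∧ G c ∧ ∀ a b, F.Adj v a → F.Adj v b → G a → G b → a ≠ b →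
        a ≠ c → b ≠ c → ∀ ε, Fo F G σ a b ε → fv F G σ a c + fv F G σ b c = ε := by
      by_contra hcon
      push Not at hcon
      obtain ⟨c, hvc, gc⟩ := hne
      obtain ⟨a, b, hva, hvb, ga, gb, hab, hac, hbc, e, f1, hn1⟩ := hcon c hvc gc
      obtain ⟨a1, b1, hva1, hvb1, ga1, gb1, hab1, haa1, hba1, e1, f2, hn2⟩ := hcon a hva ga
      obtain ⟨a2, b2, hva2, hvb2, ga2, gb2, hab2, haa2, hba2, e2, f3, hn3⟩ := hcon b hvb gb
      -- all pairs are forced
      have g1 : ∃ e, Fo F G σ b c e := by
        rcases deg_cases hd hva hvb hvc hab hac hbc hva1 with h1 | h1 | h1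
        · exact absurd h1 haa1
        · rcases deg_cases hd hva hvb hvc hab hac hbc hvb1 with h2 | h2 | h2
          · exact absurd h2 hba1
          · exact absurd (h1.trans h2.symm) hab1
          · rw [h1, h2] at f2; exact ⟨e1, f2⟩
        · rcases deg_cases hd hva hvb hvc hab hac hbc hvb1 with h2 | h2 | h2
          · exact absurd h2 hba1
          · rw [h1, h2] at f2; exact ⟨e1, f2.symm hb.sym⟩
          · exact absurd (h1.trans h2.symm) hab1
      have g2 : ∃ e, Fo F G σ a c e := by
        rcases deg_cases hd hva hvb hvc hab hac hbc hva2 with h1 | h1 | h1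
        · rcases deg_cases hd hva hvb hvc hab hac hbc hvb2 with h2 | h2 | h2
          · exact absurd (h1.trans h2.symm) hab2
          · exact absurd h2 hba2
          · rw [h1, h2] at f3; exact ⟨e2, f3⟩
        · exact absurd h1 haa2
        · rcases deg_cases hd hva hvb hvc hab hac hbc hvb2 with h2 | h2 | h2
          · rw [h1, h2] at f3; exact ⟨e2, f3.symm hb.sym⟩
          · exact absurd h2 hba2
          · exact absurd (h1.trans h2.symm) hab2
      obtain ⟨x, hx⟩ := g1
      obtain ⟨y, hy⟩ := g2
      rw [fv_eq hb ga gc hy, fv_eq hb gb gc hx] at hn1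
      apply h
      refine ⟨a, b, c, hab, hbc, hac, hva, hvb, hvc, ga, gb, gc, e, x, y, f1, hx, hy, ?_⟩
      intro h2
      apply hn1
      rw [← h2, zadd]
    obtain ⟨c, hvc, gc, hc⟩ := key
    refine ⟨fun x => if x = c then 0 else fv F G σ x c, ?_⟩
    intro a b hva hvb ga gb hab ε hf
    dsimp only
    by_cases ha : a = c
    · subst ha
      rw [if_pos rfl, if_neg (fun h => hab h.symm), zero_add]
      exact fv_eq hb gb ga (hf.symm hb.sym)
    · by_cases hbc : b = c
      · subst hbc
        rw [if_pos rfl, if_neg hab, add_zero]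
        exact fv_eq hb ga gb hf
      · rw [if_neg ha, if_neg hbc]
        exact hc a b hva hvb ga gb hab ha hbc ε hf
  · exact ⟨fun _ => 0, fun a b hva _ ga _ _ _ _ => absurd ⟨a, hva, ga⟩ hne⟩

open Classical in
/-- extending the signs to a vertex which is not blocked -/
lemma extend [Finite V] (hd : ∀ v, (F.neighborSet v).ncard ≤ 3) {G : V → Prop}
    {σ : V → V → ZMod 2} (hb : Bal F G σ) {v : V} (hG : ¬ G v) (h : ¬ Blk F G σ v) :
    ∃ σ' : V → V → ZMod 2, Bal F (fun u => G u ∨ u = v) σ' ∧
      ∀ u w, G u → G w → σ u w = σ' u w := by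
  obtain ⟨s, hs⟩ := exists_signs hd hb h
  let σ' : V → V → ZMod 2 := fun u w => if u = v then (if w = v then 0 else s w) else
    if w = v then s u else σ u w
  have n1 : ∀ u, G u → u ≠ v := fun u hu h => hG (by rw [← h]; exact hu)
  have e1 : ∀ w, w ≠ v → σ' v w = s w := fun w hw => by
    change (if v = v then (if w = v then 0 else s w) else _) = _
    rw [if_pos rfl, if_neg hw]
  have e2 : ∀ w, w ≠ v → σ' w v = s w := fun w hw => by
    change (if w = v then _ else (if v = v then s w else _)) = _
    rw [if_neg hw, if_pos rfl]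
  have e3 : ∀ u w, u ≠ v → w ≠ v → σ' u w = σ u w := fun u w hu hw => by
    change (if u = v then _ else (if w = v then s u else _)) = _
    rw [if_neg hu, if_neg hw]
  have hsym : ∀ u w, σ' u w = σ' w u := by
    intro u w
    by_cases hu : u = v
    · by_cases hw : w = v
      · rw [hu, hw]
      · rw [hu, e1 w hw, e2 w hw]
    · by_cases hw : w = v
      · rw [hw, e1 u hu, e2 u hu]
      · rw [e3 u w hu hw, e3 w u hw hu, hb.sym]
  have hG' : ∀ u, (G u ∨ u = v) → u ≠ v → G u := fun u hu hne => hu.resolve_right hne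
  refine ⟨σ', ⟨hsym, ?_, ?_⟩, fun u w hu hw => (e3 u w (n1 u hu) (n1 w hw)).symm⟩
  · -- triangles
    intro u x w hu hx hw h1 h2 h3
    by_cases u0 : u = v
    · subst u0
      have x0 : x ≠ u := h1.ne.symm
      have w0 : w ≠ u := h3.ne.symm
      rw [e1 x x0, e1 w w0, e3 x w x0 w0]
      have := hs x w h1 h3 (hG' x hx x0) (hG' w hw w0) h2.ne _ (Or.inl ⟨h2, rfl⟩)
      rw [← this, ← add_assoc, CharTwo.add_self_eq_zero, zero_add]
    · by_cases x0 : x = v
      · subst x0
        have w0 : w ≠ x := h2.ne.symm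
        rw [e2 u u0, e1 w w0, e3 u w u0 w0]
        exact hs u w h1.symm h2 (hG' u hu u0) (hG' w hw w0) h3.ne _ (Or.inl ⟨h3, rfl⟩)
      · by_cases w0 : w = v
        · subst w0
          rw [e3 u x u0 x0, e2 x x0, e2 u u0]
          have := hs u x h3.symm h2.symm (hG' u hu u0) (hG' x hx x0) h1.ne _ (Or.inl ⟨h1, rfl⟩)
          rw [← this, zadd]
        · rw [e3 u x u0 x0, e3 x w x0 w0, e3 u w u0 w0]
          exact hb.b3 u x w (hG' u hu u0) (hG' x hx x0) (hG' w hw w0) h1 h2 h3
  · -- 4-cycles
    -- the basic cases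
    have base : ∀ x u y, F.Adj v x → F.Adj x u → F.Adj u y → F.Adj v y → G x → G u → G y →
        σ' v x + σ' x u = σ' v y + σ' y u := by
      intro x u y h1 h2 h3 h4 gx gu gy
      rw [e1 x (n1 x gx), e1 y (n1 y gy), e3 x u (n1 x gx) (n1 u gu),
        e3 y u (n1 y gy) (n1 u gu)]
      by_cases hxy : x = y
      · rw [hxy]
      · have := hs x y h1 h4 gx gy hxy _ (Or.inr ⟨u, gu, h2, h3, rfl⟩)
        have h5 : s x = σ x u + σ u y + s y := by rw [← this, zadd]
        rw [h5, hb.sym y u]
        have h6 : σ x u + σ u y + s y + σ x u = (σ x u + σ x u) + (σ u y + s y) := by ring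
        rw [h6, CharTwo.add_self_eq_zero, zero_add, add_comm]
    have two : ∀ a b : ZMod 2, a = b ↔ a + b = 0 := fun a b => by
      constructor
      · intro h; rw [h]; exact CharTwo.add_self_eq_zero _
      · intro h; exact CharTwo.add_eq_zero.1 h
    intro u x y w hu hx hy hw h1 h2 h3 h4
    by_cases u0 : u = v
    · have x0 : x ≠ v := fun h => h1.ne (u0.trans h.symm)
      have y0 : y ≠ v := fun h => h3.ne (u0.trans h.symm)
      by_cases w0 : w = v
      · rw [u0, w0, hsym x v, hsym y v, CharTwo.add_self_eq_zero, CharTwo.add_self_eq_zero]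
      · subst u0
        exact base x w y h1 h2 h4.symm h3 (hG' x hx x0) (hG' w hw w0) (hG' y hy y0)
    · by_cases w0 : w = v
      · subst w0
        have x0 : x ≠ w := h2.ne
        have y0 : y ≠ w := h4.ne
        have := base x u y h2.symm h1.symm h3 h4.symm (hG' x hx x0) (hG' u hu u0) (hG' y hy y0)
        rw [hsym u x, hsym x w, hsym u y, hsym y w, add_comm (σ' x u), add_comm (σ' y u)]
        exact this
      · by_cases x0 : x = v
        · by_cases y0 : y = v
          · rw [x0, y0]
          · subst x0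
            have := base u y w h1.symm h3 h4 h2 (hG' u hu u0) (hG' y hy y0) (hG' w hw w0)
            rw [hsym w y] at this
            rw [two] at this ⊢
            rw [hsym u x, ← this]
            ring
        · by_cases y0 : y = v
          · subst y0
            have := base u x w h3.symm h1 h2 h4 (hG' u hu u0) (hG' x hx x0) (hG' w hw w0)
            rw [hsym w x] at this
            rw [two] at this ⊢
            rw [hsym u y, ← this]
            ring
          · rw [e3 u x u0 x0, e3 x w x0 w0, e3 u y u0 y0, e3 y w y0 w0]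
            exact hb.b4 u x y w (hG' u hu u0) (hG' x hx x0) (hG' y hy y0) (hG' w hw w0) h1 h2
              h3 h4

end

end Pool.Agent.H730.MB
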