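import Pool.Agent.H730.MB.Defs

/-!
# Greedy colouring with forbidden names
-/

namespace Pool.Agent.H730.MB

theorem greedy {V : Type} [Finite V] (Cf : V → V → Prop) (hsymm : ∀ v w, Cf v w → Cf w v)
    (D E : ℕ) (hD : ∀ v, {w | Cf v w}.ncard ≤ D) (Fb : V → Set Nm)
    (hE : ∀ v, (Fb v).ncard ≤ E) (hm : D + E < 1000) :
    ∃ c : V → Nm, (∀ v, c v ∉ Fb v) ∧ ∀ v w, v ≠ w → Cf v w → c v ≠ c w := by
  classical
  haveI : Fintype V := Fintype.ofFinite V
  have key : ∀ S : Finset V, ∃ c : V → Nm, (∀ v ∈ S, c v ∉ Fb v) ∧
      ∀ v ∈ S, ∀ w ∈ S, v ≠ w → Cf v w → c v ≠ c w := by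
    intro S
    induction S using Finset.induction_on with
    | empty =>
      refine ⟨fun _ => 0, ?_, ?_⟩
      · intro v hv
        exact absurd hv (Finset.notMem_empty v)
      · intro v hv
        exact absurd hv (Finset.notMem_empty v)
    | insert v S hvS ih =>
      obtain ⟨c, hc1, hc2⟩ := ih
      have hq : ∃ q : Nm, q ∉ Fb v ∪ c '' {w | Cf v w} := by
        by_contra hcon
        push Not at hcon
        have huniv : Fb v ∪ c '' {w | Cf v w} = Set.univ := Set.eq_univ_of_forall hcon
        have h1 : (Fb v ∪ c '' {w | Cf v w}).ncard = 1000 := by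
          rw [huniv, Set.ncard_univ, Nat.card_eq_fintype_card, Fintype.card_fin]
        have h2 : (Fb v ∪ c '' {w | Cf v w}).ncard ≤ (Fb v).ncard + (c '' {w | Cf v w}).ncard :=
          Set.ncard_union_le _ _
        have h3 : (c '' {w | Cf v w}).ncard ≤ {w | Cf v w}.ncard :=
          Set.ncard_image_le (Set.toFinite _)
        have h4 := hD v
        have h5 := hE v
        omega
      obtain ⟨q, hq⟩ := hq
      have hq1 : q ∉ Fb v := fun h => hq (Or.inl h)
      have hq2 : ∀ w, Cf v w → c w ≠ q := fun w hw he => hq (Or.inr ⟨w, hw, he⟩)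
      refine ⟨Function.update c v q, ?_, ?_⟩
      · intro x hx
        by_cases hxv : x = v
        · rw [hxv, Function.update_self]
          exact hq1
        · rw [Function.update_of_ne hxv]
          exact hc1 x (Finset.mem_of_mem_insert_of_ne hx hxv)
      · intro x hx y hy hxy hC
        by_cases hxv : x = v
        · have hyv : y ≠ v := fun h => hxy (hxv.trans h.symm)
          rw [hxv, Function.update_self, Function.update_of_ne hyv]
          rw [hxv] at hC
          exact fun h => hq2 y hC h.symm
        · by_cases hyv : y = v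
          · rw [hyv, Function.update_self, Function.update_of_ne hxv]
            rw [hyv] at hC
            exact hq2 x (hsymm _ _ hC)
          · rw [Function.update_of_ne hxv, Function.update_of_ne hyv]
            exact hc2 x (Finset.mem_of_mem_insert_of_ne hx hxv) y
              (Finset.mem_of_mem_insert_of_ne hy hyv) hxy hC
  obtain ⟨c, hc1, hc2⟩ := key Finset.univ
  exact ⟨c, fun v => hc1 v (Finset.mem_univ v),
    fun v w => hc2 v (Finset.mem_univ v) w (Finset.mem_univ w)⟩

end Pool.Agent.H730.MB
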