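import Pool.Agent.H730.MB.Sgn

/-!
# Parity of the squares on the bottom face of a labelled grid cube
-/

namespace Pool.Agent.H730.MB

namespace GridL

lemma two_zero : (2 : ZMod 2) = 0 := by decide

lemma tele (f : ℕ → ZMod 2) (n : ℕ) :
    ∑ k ∈ Finset.range n, (f k + f (k + 1)) = f 0 + f n := by
  induction n with
  | zero => simp only [Finset.range_zero, Finset.sum_empty]; linear_combination (-f 0) * two_zero
  | succ n ih => rw [Finset.sum_range_succ, ih]; linear_combination (f n) * two_zero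

/-- the sum of the four edges -/
noncomputable def sq4 (a b c d : R) : ZMod 2 := es a b + es b c + es c d + es d a

lemma mid_of {p : R} (h1 : 1 ≤ (p.1 : ℕ)) (h2 : (p.1 : ℕ) ≤ 3) : mid p := by
  constructor
  · intro h
    rw [h] at h1
    exact absurd h1 (by decide)
  · intro h
    rw [h] at h2
    exact absurd h2 (by decide)

lemma coh {y p : R} (hy : mid y) (h : RAdj y p) (hp : mid p) : ∃ δ, Near δ y.2 p.2 := by
  obtain ⟨-, -, h3⟩ := h
  rcases h3 with h | h | h | h | h
  · exact absurd h hy.1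
  · exact absurd h hy.2
  · exact absurd h hp.1
  · exact absurd h hp.2
  · exact h

lemma es_coh {y p q : R} (hp : mid p) (hq : mid q) {δ ε : ZMod 2} (h1 : Near δ y.2 p.2)
    (h2 : Near ε y.2 q.2) : es p q = δ + ε := by
  unfold es
  rw [if_pos ⟨hp, hq⟩]
  exact sg_of_rel2 ⟨y.2, δ, ε, h1.symm, h2, rfl⟩

lemma face {y a b c d : R} (hy : 2 ≤ (y.1 : ℕ)) (ha : RAdj y a) (hb : RAdj y b) (hc : RAdj y c)
    (hd : RAdj y d) : csq a b c d = sq4 a b c d := by
  unfold csq sq4
  split_ifs with h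
  · rfl
  · unfold up at h
    simp only [not_or, not_le] at h
    obtain ⟨h1, h2, h3, h4⟩ := h
    have ya := ha.1
    have yb := hb.1
    have yc := hc.1
    have yd := hd.1
    have my : mid y := mid_of (by omega) (by omega)
    have ma : mid a := mid_of (by omega) (by omega)
    have mb : mid b := mid_of (by omega) (by omega)
    have mc : mid c := mid_of (by omega) (by omega)
    have md : mid d := mid_of (by omega) (by omega)
    obtain ⟨da, na⟩ := coh my ha ma
    obtain ⟨db, nb⟩ := coh my hb mb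
    obtain ⟨dc, nc⟩ := coh my hc mc
    obtain ⟨dd, nd⟩ := coh my hd md
    rw [es_coh ma mb na nb, es_coh mb mc nb nc, es_coh mc md nc nd, es_coh md ma nd na]
    linear_combination (-(da + db + dc + dd)) * two_zero

lemma csq_zero {a b c d : R} (ha : ¬ up a) (hb : ¬ up b) (hc : ¬ up c) (hd : ¬ up d) :
    csq a b c d = 0 := by
  unfold csq
  rw [if_neg]
  rintro (h | h | h | h)
  · exact ha h
  · exact hb h
  · exact hc h
  · exact hd h

lemma cube {y : R} (l : ℕ → ℕ → ℕ → R) (h : ∀ a b c, a ≤ 1 → b ≤ 1 → c ≤ 1 → RAdj y (l a b c)) :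
    csq (l 0 0 0) (l 1 0 0) (l 1 1 0) (l 0 1 0) + csq (l 0 0 1) (l 1 0 1) (l 1 1 1) (l 0 1 1) +
    (csq (l 0 0 0) (l 1 0 0) (l 1 0 1) (l 0 0 1) + csq (l 0 1 0) (l 1 1 0) (l 1 1 1) (l 0 1 1)) +
    (csq (l 0 0 0) (l 0 1 0) (l 0 1 1) (l 0 0 1) + csq (l 1 0 0) (l 1 1 0) (l 1 1 1) (l 1 0 1))
      = 0 := by
  have h000 := h 0 0 0 (by omega) (by omega) (by omega)
  have h001 := h 0 0 1 (by omega) (by omega) (by omega)
  have h010 := h 0 1 0 (by omega) (by omega) (by omega)
  have h011 := h 0 1 1 (by omega) (by omega) (by omega)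
  have h100 := h 1 0 0 (by omega) (by omega) (by omega)
  have h101 := h 1 0 1 (by omega) (by omega) (by omega)
  have h110 := h 1 1 0 (by omega) (by omega) (by omega)
  have h111 := h 1 1 1 (by omega) (by omega) (by omega)
  by_cases hu : ∃ p, RAdj y p ∧ up p
  · obtain ⟨p, hp1, hp2⟩ := hu
    unfold up at hp2
    have hy : 2 ≤ (y.1 : ℕ) := by
      have := hp1.2.1
      omega
    rw [face hy h000 h100 h110 h010, face hy h001 h101 h111 h011, face hy h000 h100 h101 h001,
      face hy h010 h110 h111 h011, face hy h000 h010 h011 h001, face hy h100 h110 h111 h101]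
    unfold sq4
    rw [es_comm (l 0 1 0) (l 0 0 0), es_comm (l 0 1 1) (l 0 0 1), es_comm (l 0 0 1) (l 0 0 0),
      es_comm (l 0 1 1) (l 0 1 0), es_comm (l 1 0 1) (l 1 0 0), es_comm (l 1 0 1) (l 0 0 1),
      es_comm (l 1 1 0) (l 0 1 0), es_comm (l 1 1 1) (l 0 1 1), es_comm (l 1 1 1) (l 1 0 1)]
    linear_combination (es (l 0 0 0) (l 1 0 0) + es (l 1 0 0) (l 1 1 0) + es (l 0 1 0) (l 1 1 0) +
      es (l 0 0 0) (l 0 1 0) + es (l 0 0 1) (l 1 0 1) + es (l 1 0 1) (l 1 1 1) +
      es (l 0 1 1) (l 1 1 1) + es (l 0 0 1) (l 0 1 1) + es (l 0 0 0) (l 0 0 1) +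
      es (l 1 0 0) (l 1 0 1) + es (l 1 1 0) (l 1 1 1) + es (l 0 1 0) (l 0 1 1)) * two_zero
  · have hn : ∀ p, RAdj y p → ¬ up p := fun p hp hu' => hu ⟨p, hp, hu'⟩
    rw [csq_zero (hn _ h000) (hn _ h100) (hn _ h110) (hn _ h010),
      csq_zero (hn _ h001) (hn _ h101) (hn _ h111) (hn _ h011),
      csq_zero (hn _ h000) (hn _ h100) (hn _ h101) (hn _ h001),
      csq_zero (hn _ h010) (hn _ h110) (hn _ h111) (hn _ h011),
      csq_zero (hn _ h000) (hn _ h010) (hn _ h011) (hn _ h001),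
      csq_zero (hn _ h100) (hn _ h110) (hn _ h111) (hn _ h101)]
    simp only [add_zero]

lemma csq_deg (a b : R) : csq a a b b = 0 := by
  unfold csq
  split_ifs with h
  · rw [es_self, es_self, es_comm b a]
    linear_combination (es a b) * two_zero
  · rfl

lemma top_face {y : R} (n : ℕ) (m : ℕ → ℕ → R) (hy : ∀ i j, i ≤ n → j ≤ n → RAdj y (m i j))
    (hs : ∀ i, m i 0 = m i n) (h0 : ∀ j, m 0 j = m 0 0) (h1 : ∀ j, m n j = m n 0) :
    ∑ i ∈ Finset.range n, ∑ j ∈ Finset.range n,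
      csq (m i j) (m (i + 1) j) (m (i + 1) (j + 1)) (m i (j + 1)) = 0 := by
  by_cases hu : ∃ p, RAdj y p ∧ up p
  · obtain ⟨p, hp1, hp2⟩ := hu
    unfold up at hp2
    have hy2 : 2 ≤ (y.1 : ℕ) := by
      have := hp1.2.1
      omega
    have e : ∑ i ∈ Finset.range n, ∑ j ∈ Finset.range n,
        csq (m i j) (m (i + 1) j) (m (i + 1) (j + 1)) (m i (j + 1)) =
        ∑ i ∈ Finset.range n, ∑ j ∈ Finset.range n,
          ((es (m i j) (m (i + 1) j) + es (m i (j + 1)) (m (i + 1) (j + 1))) +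
          (es (m i j) (m i (j + 1)) + es (m (i + 1) j) (m (i + 1) (j + 1)))) := by
      refine Finset.sum_congr rfl fun i hi => Finset.sum_congr rfl fun j hj => ?_
      rw [Finset.mem_range] at hi hj
      rw [face hy2 (hy i j (by omega) (by omega)) (hy (i + 1) j (by omega) (by omega))
        (hy (i + 1) (j + 1) (by omega) (by omega)) (hy i (j + 1) (by omega) (by omega))]
      unfold sq4
      rw [es_comm (m (i + 1) (j + 1)) (m i (j + 1)), es_comm (m i (j + 1)) (m i j)]
      ring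
    rw [e]
    simp only [Finset.sum_add_distrib (s := Finset.range n)]
    have e1 : ∀ i, ∑ j ∈ Finset.range n, es (m i j) (m (i + 1) j) +
        ∑ j ∈ Finset.range n, es (m i (j + 1)) (m (i + 1) (j + 1)) = 0 := by
      intro i
      rw [← Finset.sum_add_distrib, tele (fun j => es (m i j) (m (i + 1) j)) n, hs i, hs (i + 1)]
      linear_combination (es (m i n) (m (i + 1) n)) * two_zero
    have e2 : ∑ i ∈ Finset.range n, ∑ j ∈ Finset.range n, es (m i j) (m i (j + 1)) +
        ∑ i ∈ Finset.range n, ∑ j ∈ Finset.range n, es (m (i + 1) j) (m (i + 1) (j + 1)) = 0 := by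
      rw [← Finset.sum_add_distrib,
        tele (fun i => ∑ j ∈ Finset.range n, es (m i j) (m i (j + 1))) n]
      have z0 : ∑ j ∈ Finset.range n, es (m 0 j) (m 0 (j + 1)) = 0 :=
        Finset.sum_eq_zero fun j _ => by rw [h0 j, h0 (j + 1), es_self]
      have z1 : ∑ j ∈ Finset.range n, es (m n j) (m n (j + 1)) = 0 :=
        Finset.sum_eq_zero fun j _ => by rw [h1 j, h1 (j + 1), es_self]
      rw [z0, z1, add_zero]
    have e3 : ∑ i ∈ Finset.range n, ∑ j ∈ Finset.range n, es (m i j) (m (i + 1) j) +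
        ∑ i ∈ Finset.range n, ∑ j ∈ Finset.range n, es (m i (j + 1)) (m (i + 1) (j + 1)) = 0 := by
      rw [← Finset.sum_add_distrib]
      exact Finset.sum_eq_zero fun i _ => e1 i
    rw [e2, e3, add_zero]
  · have hn : ∀ p, RAdj y p → ¬ up p := fun p hp hu' => hu ⟨p, hp, hu'⟩
    refine Finset.sum_eq_zero fun i hi => Finset.sum_eq_zero fun j hj => ?_
    rw [Finset.mem_range] at hi hj
    exact csq_zero (hn _ (hy i j (by omega) (by omega))) (hn _ (hy (i + 1) j (by omega) (by omega)))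
      (hn _ (hy (i + 1) (j + 1) (by omega) (by omega))) (hn _ (hy i (j + 1) (by omega) (by omega)))

end GridL

open GridL

theorem grid (n : ℕ) (r : ℕ → ℕ → ℕ → R)
    (hc : ∀ i j k, i < n → j < n → k < n → ∃ y, ∀ a b c, a ≤ 1 → b ≤ 1 → c ≤ 1 →
        RAdj y (r (i + a) (j + b) (k + c)))
    (hs : ∀ i k, r i 0 k = r i n k) (h0 : ∀ j k, r 0 j k = r 0 0 k)
    (h1 : ∀ j k, r n j k = r n 0 k) (ht : ∃ y, ∀ i j, i ≤ n → j ≤ n → RAdj y (r i j n)) :
    ∑ i ∈ Finset.range n, ∑ j ∈ Finset.range n,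
      csq (r i j 0) (r (i + 1) j 0) (r (i + 1) (j + 1) 0) (r i (j + 1) 0) = 0 := by
  set P : ℕ → ℕ → ℕ → ZMod 2 := fun i j k =>
    csq (r i j k) (r (i + 1) j k) (r (i + 1) (j + 1) k) (r i (j + 1) k) with hP
  set Q : ℕ → ℕ → ℕ → ZMod 2 := fun i j k =>
    csq (r i j k) (r (i + 1) j k) (r (i + 1) j (k + 1)) (r i j (k + 1)) with hQ
  set S : ℕ → ℕ → ℕ → ZMod 2 := fun i j k =>
    csq (r i j k) (r i (j + 1) k) (r i (j + 1) (k + 1)) (r i j (k + 1)) with hS
  have hcube : ∀ i j k, i < n → j < n → k < n →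
      (P i j k + P i j (k + 1)) + (Q i j k + Q i (j + 1) k) + (S i j k + S (i + 1) j k) = 0 := by
    intro i j k hi hj hk
    obtain ⟨y, hy⟩ := hc i j k hi hj hk
    exact cube (fun a b c => r (i + a) (j + b) (k + c)) hy
  have htot : ∑ i ∈ Finset.range n, ∑ j ∈ Finset.range n, ∑ k ∈ Finset.range n,
      ((P i j k + P i j (k + 1)) + (Q i j k + Q i (j + 1) k) + (S i j k + S (i + 1) j k)) = 0 := by
    refine Finset.sum_eq_zero fun i hi => Finset.sum_eq_zero fun j hj =>
      Finset.sum_eq_zero fun k hk => ?_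
    exact hcube i j k (Finset.mem_range.1 hi) (Finset.mem_range.1 hj) (Finset.mem_range.1 hk)
  have hsplit : ∑ i ∈ Finset.range n, ∑ j ∈ Finset.range n, ∑ k ∈ Finset.range n,
      ((P i j k + P i j (k + 1)) + (Q i j k + Q i (j + 1) k) + (S i j k + S (i + 1) j k)) =
      ∑ i ∈ Finset.range n, ∑ j ∈ Finset.range n, ∑ k ∈ Finset.range n,
        (P i j k + P i j (k + 1)) +
      ∑ i ∈ Finset.range n, ∑ j ∈ Finset.range n, ∑ k ∈ Finset.range n,
        (Q i j k + Q i (j + 1) k) +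
      ∑ i ∈ Finset.range n, ∑ j ∈ Finset.range n, ∑ k ∈ Finset.range n,
        (S i j k + S (i + 1) j k) := by
    rw [← Finset.sum_add_distrib, ← Finset.sum_add_distrib]
    refine Finset.sum_congr rfl fun i _ => ?_
    rw [← Finset.sum_add_distrib, ← Finset.sum_add_distrib]
    refine Finset.sum_congr rfl fun j _ => ?_
    rw [← Finset.sum_add_distrib, ← Finset.sum_add_distrib]
  have hPs : ∑ i ∈ Finset.range n, ∑ j ∈ Finset.range n, ∑ k ∈ Finset.range n,
      (P i j k + P i j (k + 1)) = ∑ i ∈ Finset.range n, ∑ j ∈ Finset.range n, P i j 0 := by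
    have e : ∀ i j, ∑ k ∈ Finset.range n, (P i j k + P i j (k + 1)) = P i j 0 + P i j n :=
      fun i j => tele (fun k => P i j k) n
    simp only [e, Finset.sum_add_distrib]
    obtain ⟨y, hy⟩ := ht
    have htop := top_face (y := y) n (fun i j => r i j n) hy (fun i => hs i n) (fun j => h0 j n)
      (fun j => h1 j n)
    have e2 : ∑ i ∈ Finset.range n, ∑ j ∈ Finset.range n, P i j n = 0 := htop
    rw [e2, add_zero]
  have hQs : ∑ i ∈ Finset.range n, ∑ j ∈ Finset.range n, ∑ k ∈ Finset.range n,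
      (Q i j k + Q i (j + 1) k) = 0 := by
    refine Finset.sum_eq_zero fun i _ => ?_
    rw [Finset.sum_comm]
    refine Finset.sum_eq_zero fun k _ => ?_
    rw [tele (fun j => Q i j k) n]
    have e : Q i 0 k = Q i n k := by
      simp only [hQ]
      rw [hs i k, hs (i + 1) k, hs (i + 1) (k + 1), hs i (k + 1)]
    rw [e]
    linear_combination (Q i n k) * two_zero
  have hSs : ∑ i ∈ Finset.range n, ∑ j ∈ Finset.range n, ∑ k ∈ Finset.range n,
      (S i j k + S (i + 1) j k) = 0 := by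
    rw [Finset.sum_comm]
    refine Finset.sum_eq_zero fun j _ => ?_
    rw [Finset.sum_comm]
    refine Finset.sum_eq_zero fun k _ => ?_
    rw [tele (fun i => S i j k) n]
    have e1 : S 0 j k = 0 := by
      simp only [hS]
      rw [h0 j k, h0 (j + 1) k, h0 (j + 1) (k + 1), h0 j (k + 1)]
      exact csq_deg _ _
    have e2 : S n j k = 0 := by
      simp only [hS]
      rw [h1 j k, h1 (j + 1) k, h1 (j + 1) (k + 1), h1 j (k + 1)]
      exact csq_deg _ _
    rw [e1, e2, add_zero]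
  rw [hsplit, hPs, hQs, hSs, add_zero, add_zero] at htot
  exact htot

end Pool.Agent.H730.MB
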