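import Pool.Agent.H730.MB.Defs

/-!
# Proper 5-colourings of graphs of maximum degree at most 3 are connected under single changes
-/

namespace Pool.Agent.H730.MB

namespace K5L

variable {V : Type} {F : SimpleGraph V}

/-- recolouring one vertex -/
theorem step_update [DecidableEq V] {f : V → Fin 5} (hf : IsHom F (· ≠ ·) f) (w : V) (c : Fin 5)
    (hc : ∀ x, F.Adj w x → f x ≠ c) :
    Step F (· ≠ ·) f (Function.update f w c) := by
  refine ⟨hf, ?_, w, ?_⟩
  · intro x y hxy
    have hne : x ≠ y := hxy.ne
    by_cases hx : x = w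
    · subst hx
      rw [Function.update_self, Function.update_of_ne (Ne.symm hne)]
      exact (hc y hxy).symm
    · by_cases hy : y = w
      · subst hy
        rw [Function.update_self, Function.update_of_ne hx]
        exact hc x hxy.symm
      · rw [Function.update_of_ne hx, Function.update_of_ne hy]
        exact hf x y hxy
  · intro x hx
    rw [Function.update_of_ne hx]

theorem exists_colour [Finite V] (hd : ∀ v, (F.neighborSet v).ncard ≤ 3) (f : V → Fin 5) (w : V)
    (b : Fin 5) : ∃ c : Fin 5, c ≠ b ∧ ∀ x, F.Adj w x → f x ≠ c := by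
  have h1 : (insert b (f '' (F.neighborSet w))).ncard ≤ 4 := by
    refine (Set.ncard_insert_le _ _).trans ?_
    have := Set.ncard_image_le (f := f) (Set.toFinite (F.neighborSet w))
    have := hd w
    omega
  have h2 : (insert b (f '' (F.neighborSet w))) ≠ Set.univ := by
    intro h
    rw [h, Set.ncard_univ, Nat.card_eq_fintype_card, Fintype.card_fin] at h1
    omega
  obtain ⟨c, hc⟩ := (Set.ne_univ_iff_exists_notMem _).1 h2
  refine ⟨c, fun h => hc (h ▸ Set.mem_insert _ _), fun x hx h => hc ?_⟩
  exact Set.mem_insert_of_mem _ ⟨x, hx, h⟩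

theorem clear [Finite V] (hd : ∀ v, (F.neighborSet v).ncard ≤ 3) {g : V → Fin 5}
    (hg : IsHom F (· ≠ ·) g) (u : V) :
    ∀ (n : ℕ) (f : V → Fin 5), IsHom F (· ≠ ·) f → {w | F.Adj u w ∧ f w = g u}.ncard ≤ n →
      ∃ f' : V → Fin 5, IsHom F (· ≠ ·) f' ∧ Cn F (· ≠ ·) f f' ∧ (∀ v, f v = g v → f' v = g v) ∧
        ∀ w, F.Adj u w → f' w ≠ g u := by
  classical
  intro n
  induction n with
  | zero =>
    intro f hf hn
    refine ⟨f, hf, Relation.ReflTransGen.refl, fun v h => h, fun w hw h => ?_⟩
    have h0 := (Set.ncard_eq_zero (Set.toFinite _)).1 (Nat.le_zero.1 hn)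
    have : w ∈ {w | F.Adj u w ∧ f w = g u} := ⟨hw, h⟩
    rw [h0] at this
    exact this
  | succ n ih =>
    intro f hf hn
    by_cases hex : ∃ w, F.Adj u w ∧ f w = g u
    · obtain ⟨w, hw, hfw⟩ := hex
      obtain ⟨c, hcb, hc⟩ := exists_colour hd f w (g u)
      have hst := step_update hf w c hc
      have hlt : {x | F.Adj u x ∧ Function.update f w c x = g u}.ncard ≤ n := by
        have hss : {x | F.Adj u x ∧ Function.update f w c x = g u} ⊂ {x | F.Adj u x ∧ f x = g u} := by
          rw [Set.ssubset_iff_exists]
          refine ⟨?_, w, ⟨hw, hfw⟩, ?_⟩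
          · rintro x ⟨hx1, hx2⟩
            by_cases hxw : x = w
            · subst hxw
              rw [Function.update_self] at hx2
              exact absurd hx2 hcb
            · rw [Function.update_of_ne hxw] at hx2
              exact ⟨hx1, hx2⟩
          · rintro ⟨_, h2⟩
            rw [Function.update_self] at h2
            exact hcb h2
        have := Set.ncard_lt_ncard hss (Set.toFinite _)
        omega
      obtain ⟨f', h1, h2, h3, h4⟩ := ih _ hst.2.1 hlt
      refine ⟨f', h1, Relation.ReflTransGen.head hst h2, fun v hv => h3 v ?_, h4⟩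
      have hvw : v ≠ w := by
        rintro rfl
        exact hg u v hw (by rw [← hfw, hv])
      rw [Function.update_of_ne hvw]
      exact hv
    · refine ⟨f, hf, Relation.ReflTransGen.refl, fun v h => h, fun w hw h => hex ⟨w, hw, h⟩⟩

end K5L

open K5L in
theorem k5 {V : Type} [Finite V] (F : SimpleGraph V) (hd : ∀ v, (F.neighborSet v).ncard ≤ 3)
    (f g : V → Fin 5) (hf : IsHom F (· ≠ ·) f) (hg : IsHom F (· ≠ ·) g) :
    Cn F (· ≠ ·) f g := by
  classical
  suffices H : ∀ (n : ℕ) (f : V → Fin 5), IsHom F (· ≠ ·) f → {v | f v ≠ g v}.ncard ≤ n →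
      Cn F (· ≠ ·) f g from H _ f hf le_rfl
  intro n
  induction n with
  | zero =>
    intro f hf hn
    have h0 := (Set.ncard_eq_zero (Set.toFinite _)).1 (Nat.le_zero.1 hn)
    have hfg : f = g := by
      funext v
      by_contra h
      have : v ∈ {v | f v ≠ g v} := h
      rw [h0] at this
      exact this
    rw [hfg]
    exact Relation.ReflTransGen.refl
  | succ n ih =>
    intro f hf hn
    by_cases hex : ∃ u, f u ≠ g u
    · obtain ⟨u, hu⟩ := hex
      obtain ⟨f', h1, h2, h3, h4⟩ := clear hd hg u _ f hf le_rfl
      have hst := step_update h1 u (g u) h4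
      have hlt : {v | Function.update f' u (g u) v ≠ g v}.ncard ≤ n := by
        have hss : {v | Function.update f' u (g u) v ≠ g v} ⊂ {v | f v ≠ g v} := by
          rw [Set.ssubset_iff_exists]
          refine ⟨?_, u, hu, ?_⟩
          · intro v hv hfv
            apply hv
            by_cases hvu : v = u
            · subst hvu
              rw [Function.update_self]
            · rw [Function.update_of_ne hvu]
              exact h3 v hfv
          · intro hv
            exact hv (by rw [Function.update_self])
        have := Set.ncard_lt_ncard hss (Set.toFinite _)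
        omega
      exact (h2.tail hst).trans (ih _ hst.2.1 hlt)
    · have hfg : f = g := by
        funext v
        by_contra h
        exact hex ⟨v, h⟩
      rw [hfg]
      exact Relation.ReflTransGen.refl

end Pool.Agent.H730.MB
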