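import Pool.Agent.H730.MB.Defs

namespace Pool.Agent.H730.MB

namespace LabelsAux

open Real

/-- the point of `ℝ³` with the given spherical coordinates -/
noncomputable def Qf (p : unitInterval × unitInterval) : EuclideanSpace ℝ (Fin 3) :=
  WithLp.toLp 2 ![sin (π * (p.1 : ℝ)) * cos (2 * π * (p.2 : ℝ)),
    sin (π * (p.1 : ℝ)) * sin (2 * π * (p.2 : ℝ)), -cos (π * (p.1 : ℝ))]

lemma Qf_cont : Continuous Qf := by
  unfold Qf
  apply (PiLp.continuous_toLp 2 _).comp
  apply continuous_pi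
  intro i
  fin_cases i
  · show Continuous fun p : unitInterval × unitInterval =>
      sin (π * (p.1 : ℝ)) * cos (2 * π * (p.2 : ℝ))
    fun_prop
  · show Continuous fun p : unitInterval × unitInterval =>
      sin (π * (p.1 : ℝ)) * sin (2 * π * (p.2 : ℝ))
    fun_prop
  · show Continuous fun p : unitInterval × unitInterval => -cos (π * (p.1 : ℝ))
    fun_prop

lemma Qf_norm (p : unitInterval × unitInterval) : ‖Qf p‖ = 1 := by
  rw [EuclideanSpace.norm_eq, Fin.sum_univ_three]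
  have h0 : (Qf p) 0 = sin (π * (p.1 : ℝ)) * cos (2 * π * (p.2 : ℝ)) := rfl
  have h1 : (Qf p) 1 = sin (π * (p.1 : ℝ)) * sin (2 * π * (p.2 : ℝ)) := rfl
  have h2 : (Qf p) 2 = -cos (π * (p.1 : ℝ)) := rfl
  rw [h0, h1, h2]
  simp only [Real.norm_eq_abs, sq_abs]
  have e1 := sin_sq_add_cos_sq (π * (p.1 : ℝ))
  have e2 := sin_sq_add_cos_sq (2 * π * (p.2 : ℝ))
  have e : (sin (π * (p.1 : ℝ)) * cos (2 * π * (p.2 : ℝ))) ^ 2 +
      (sin (π * (p.1 : ℝ)) * sin (2 * π * (p.2 : ℝ))) ^ 2 + (-cos (π * (p.1 : ℝ))) ^ 2 = 1 := by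
    have : (sin (π * (p.1 : ℝ)) * cos (2 * π * (p.2 : ℝ))) ^ 2 +
      (sin (π * (p.1 : ℝ)) * sin (2 * π * (p.2 : ℝ))) ^ 2 + (-cos (π * (p.1 : ℝ))) ^ 2
      = sin (π * (p.1 : ℝ)) ^ 2 * (sin (2 * π * (p.2 : ℝ)) ^ 2 + cos (2 * π * (p.2 : ℝ)) ^ 2)
        + cos (π * (p.1 : ℝ)) ^ 2 := by ring
    rw [this, e2, mul_one, e1]
  rw [e, Real.sqrt_one]

lemma Qf_mem (p : unitInterval × unitInterval) :
    Qf p ∈ Metric.sphere (0 : EuclideanSpace ℝ (Fin 3)) 1 := by
  rw [mem_sphere_zero_iff_norm]; exact Qf_norm p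

/-- the quotient map from the square to the sphere -/
noncomputable def Q : C(unitInterval × unitInterval, Metric.sphere (0 : EuclideanSpace ℝ (Fin 3)) 1) where
  toFun p := ⟨Qf p, Qf_mem p⟩
  continuous_toFun := Qf_cont.subtype_mk Qf_mem

/-- a point of the unit circle has an angle `2 π t` with `t ∈ [0,1]` -/
lemma exists_angle (a b : ℝ) (h : a ^ 2 + b ^ 2 = 1) :
    ∃ t : unitInterval, cos (2 * π * (t : ℝ)) = a ∧ sin (2 * π * (t : ℝ)) = b := by
  set z : ℂ := ⟨a, b⟩ with hz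
  have hn : ‖z‖ = 1 := by
    rw [Complex.norm_def, Complex.normSq_mk]
    rw [show a * a + b * b = 1 by nlinarith, Real.sqrt_one]
  have hz0 : z ≠ 0 := by
    intro h0
    rw [h0, norm_zero] at hn
    exact zero_ne_one hn
  have hc : cos (Complex.arg z) = a := by
    rw [Complex.cos_arg hz0, hn, div_one]
  have hs : sin (Complex.arg z) = b := by
    rw [Complex.sin_arg, hn, div_one]
  refine ⟨⟨Int.fract (Complex.arg z / (2 * π)), Int.fract_nonneg _, (Int.fract_lt_one _).le⟩, ?_⟩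
  have hpi : (2 * π) ≠ 0 := by positivity
  have e : 2 * π * (Int.fract (Complex.arg z / (2 * π)))
      = Complex.arg z - (⌊Complex.arg z / (2 * π)⌋ : ℝ) * (2 * π) := by
    rw [Int.fract]
    field_simp
  constructor
  · show cos (2 * π * (Int.fract (Complex.arg z / (2 * π)))) = a
    rw [e, Real.cos_sub_int_mul_two_pi, hc]
  · show sin (2 * π * (Int.fract (Complex.arg z / (2 * π)))) = b
    rw [e, Real.sin_sub_int_mul_two_pi, hs]

lemma Q_surj : Function.Surjective Q := by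
  rintro ⟨x, hx⟩
  rw [mem_sphere_zero_iff_norm, EuclideanSpace.norm_eq, Fin.sum_univ_three] at hx
  simp only [Real.norm_eq_abs, sq_abs] at hx
  have hx1 : x 0 ^ 2 + x 1 ^ 2 + x 2 ^ 2 = 1 := by
    have := Real.sqrt_eq_one.mp hx
    exact this
  have hz1 : -1 ≤ -x 2 := by nlinarith [sq_nonneg (x 0), sq_nonneg (x 1)]
  have hz2 : -x 2 ≤ 1 := by nlinarith [sq_nonneg (x 0), sq_nonneg (x 1)]
  have hs0 : 0 ≤ arccos (-x 2) / π := by
    apply div_nonneg (arccos_nonneg _) pi_pos.le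
  have hs1 : arccos (-x 2) / π ≤ 1 := by
    rw [div_le_one pi_pos]
    exact arccos_le_pi _
  have hpis : π * (arccos (-x 2) / π) = arccos (-x 2) := by
    field_simp
  have hcos : cos (π * (arccos (-x 2) / π)) = -x 2 := by
    rw [hpis, cos_arccos hz1 hz2]
  have hsin : sin (π * (arccos (-x 2) / π)) = √(1 - x 2 ^ 2) := by
    rw [hpis, sin_arccos, neg_sq]
  set ss := √(1 - x 2 ^ 2) with hss
  have hss2 : ss ^ 2 = x 0 ^ 2 + x 1 ^ 2 := by
    rw [hss, Real.sq_sqrt (by nlinarith [sq_nonneg (x 0), sq_nonneg (x 1)])]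
    linarith
  obtain ⟨t, ht0, ht1⟩ : ∃ t : unitInterval,
      ss * cos (2 * π * (t : ℝ)) = x 0 ∧ ss * sin (2 * π * (t : ℝ)) = x 1 := by
    rcases eq_or_ne ss 0 with h0 | h0
    · refine ⟨0, ?_, ?_⟩
      · have : x 0 = 0 := by
          rw [h0] at hss2
          nlinarith [sq_nonneg (x 0), sq_nonneg (x 1)]
        rw [h0, this, zero_mul]
      · have : x 1 = 0 := by
          rw [h0] at hss2
          nlinarith [sq_nonneg (x 0), sq_nonneg (x 1)]
        rw [h0, this, zero_mul]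
    · obtain ⟨t, ht0, ht1⟩ := exists_angle (x 0 / ss) (x 1 / ss) (by
        rw [div_pow, div_pow, ← add_div, ← hss2, div_self (pow_ne_zero 2 h0)])
      refine ⟨t, ?_, ?_⟩
      · rw [ht0]; field_simp
      · rw [ht1]; field_simp
  refine ⟨(⟨arccos (-x 2) / π, hs0, hs1⟩, t), ?_⟩
  apply Subtype.ext
  show Qf (⟨arccos (-x 2) / π, hs0, hs1⟩, t) = x
  unfold Qf
  ext i
  fin_cases i
  · show sin (π * (arccos (-x 2) / π)) * cos (2 * π * (t : ℝ)) = x 0
    rw [hsin, ht0]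
  · show sin (π * (arccos (-x 2) / π)) * sin (2 * π * (t : ℝ)) = x 1
    rw [hsin, ht1]
  · show -cos (π * (arccos (-x 2) / π)) = x 2
    rw [hcos, neg_neg]

lemma Q_fib {p p' : unitInterval × unitInterval} (h : Q p = Q p') :
    p.1 = p'.1 ∧ (p.1 = 0 ∨ p.1 = 1 ∨ p.2 = p'.2 ∨ (p.2 = 0 ∧ p'.2 = 1) ∨ (p.2 = 1 ∧ p'.2 = 0)) := by
  have hq : Qf p = Qf p' := congrArg Subtype.val h
  have e0 : sin (π * (p.1 : ℝ)) * cos (2 * π * (p.2 : ℝ))
      = sin (π * (p'.1 : ℝ)) * cos (2 * π * (p'.2 : ℝ)) := congrArg (fun v => v 0) hq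
  have e1 : sin (π * (p.1 : ℝ)) * sin (2 * π * (p.2 : ℝ))
      = sin (π * (p'.1 : ℝ)) * sin (2 * π * (p'.2 : ℝ)) := congrArg (fun v => v 1) hq
  have e2 : -cos (π * (p.1 : ℝ)) = -cos (π * (p'.1 : ℝ)) := congrArg (fun v => v 2) hq
  have hmem : ∀ s : unitInterval, π * (s : ℝ) ∈ Set.Icc 0 π := by
    intro s
    refine ⟨mul_nonneg pi_pos.le s.2.1, ?_⟩
    have := s.2.2
    nlinarith [pi_pos]
  have hs : (p.1 : ℝ) = p'.1 := by
    have := injOn_cos (hmem p.1) (hmem p'.1) (neg_injective e2)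
    exact mul_left_cancel₀ pi_pos.ne' this
  have hs' : p.1 = p'.1 := Subtype.ext hs
  refine ⟨hs', ?_⟩
  rcases eq_or_ne p.1 0 with h0 | h0
  · exact Or.inl h0
  rcases eq_or_ne p.1 1 with h1 | h1
  · exact Or.inr (Or.inl h1)
  right; right
  have hlt0 : 0 < (p.1 : ℝ) := lt_of_le_of_ne p.1.2.1 (fun h => h0 (Subtype.ext h.symm))
  have hlt1 : (p.1 : ℝ) < 1 := lt_of_le_of_ne p.1.2.2 (fun h => h1 (Subtype.ext h))
  have hsp : 0 < sin (π * (p.1 : ℝ)) := by
    apply sin_pos_of_pos_of_lt_pi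
    · positivity
    · nlinarith [pi_pos]
  rw [← hs] at e0 e1
  have c0 := mul_left_cancel₀ hsp.ne' e0
  have c1 := mul_left_cancel₀ hsp.ne' e1
  have hang := Real.Angle.cos_sin_inj c0 c1
  rw [Real.Angle.angle_eq_iff_two_pi_dvd_sub] at hang
  obtain ⟨k, hk⟩ := hang
  have hk' : (p.2 : ℝ) - p'.2 = k := by
    have hpi : (2 * π) ≠ 0 := by positivity
    apply mul_left_cancel₀ hpi
    linarith
  have a1 := p.2.2.1
  have a2 := p.2.2.2
  have a3 := p'.2.2.1
  have a4 := p'.2.2.2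
  have hk1 : (k : ℝ) ≤ 1 := by linarith
  have hk2 : (-1 : ℝ) ≤ k := by linarith
  have hk1' : k ≤ 1 := by exact_mod_cast hk1
  have hk2' : -1 ≤ k := by exact_mod_cast hk2
  have hk3 : k = -1 ∨ k = 0 ∨ k = 1 := by omega
  rcases hk3 with rfl | rfl | rfl
  · right; left
    push_cast at hk'
    constructor
    · apply Subtype.ext
      show (p.2 : ℝ) = 0
      linarith
    · apply Subtype.ext
      show (p'.2 : ℝ) = 1
      linarith
  · left
    push_cast at hk'
    apply Subtype.ext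
    linarith
  · right; right
    push_cast at hk'
    constructor
    · apply Subtype.ext
      show (p.2 : ℝ) = 1
      linarith
    · apply Subtype.ext
      show (p'.2 : ℝ) = 0
      linarith

/-- a homotopy of the square from `Φ` to a constant map which respects the identifications -/
lemma exists_G {V : Type} [Fintype V] (H : SimpleGraph V)
    (Φ : C(unitInterval × unitInterval, nbhd H))
    (hseam : ∀ s, Φ (s, 0) = Φ (s, 1)) (h0 : ∀ t, Φ (0, t) = Φ (0, 0))
    (h1 : ∀ t, Φ (1, t) = Φ (1, 0))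
    (hnull : ∀ φ : C(Metric.sphere (0 : EuclideanSpace ℝ (Fin 3)) 1, nbhd H), φ.Nullhomotopic) :
    ∃ (x₀ : nbhd H) (G : C(unitInterval × (unitInterval × unitInterval), nbhd H)),
      (∀ p, G (0, p) = Φ p) ∧ (∀ p, G (1, p) = x₀) ∧
      (∀ u s, G (u, (s, 0)) = G (u, (s, 1))) ∧ (∀ u t, G (u, (0, t)) = G (u, (0, 0))) ∧
      (∀ u t, G (u, (1, t)) = G (u, (1, 0))) := by
  have hQ : Topology.IsQuotientMap Q :=
    Topology.IsQuotientMap.of_surjective_continuous Q_surj Q.continuous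
  have hfac : Function.FactorsThrough Φ Q := by
    intro p p' h
    obtain ⟨e1, e2⟩ := Q_fib h
    obtain ⟨s, t⟩ := p
    obtain ⟨s', t'⟩ := p'
    simp only at e1 e2
    subst e1
    rcases e2 with e | e | e | ⟨e, e'⟩ | ⟨e, e'⟩
    · subst e
      rw [h0 t, h0 t']
    · subst e
      rw [h1 t, h1 t']
    · subst e; rfl
    · subst e; subst e'
      exact hseam s
    · subst e; subst e'
      exact (hseam s).symm
  set φ := hQ.lift Φ hfac with hφ
  have hφQ : ∀ p, φ (Q p) = Φ p := by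
    intro p
    have := hQ.lift_comp Φ hfac
    exact DFunLike.congr_fun this p
  obtain ⟨x₀, ⟨h⟩⟩ := hnull φ
  have q1 : ∀ s, Q (s, 0) = Q (s, 1) := by
    intro s
    apply Subtype.ext
    show Qf (s, 0) = Qf (s, 1)
    unfold Qf
    simp
  have q2 : ∀ t, Q (0, t) = Q (0, 0) := by
    intro s
    apply Subtype.ext
    show Qf (0, s) = Qf (0, 0)
    unfold Qf
    simp
  have q3 : ∀ t, Q (1, t) = Q (1, 0) := by
    intro s
    apply Subtype.ext
    show Qf (1, s) = Qf (1, 0)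
    unfold Qf
    simp
  refine ⟨x₀, ⟨fun p => h (p.1, Q p.2), ?_⟩, ?_, ?_, ?_, ?_, ?_⟩
  · exact h.continuous.comp (continuous_fst.prodMk (Q.continuous.comp continuous_snd))
  · intro p
    show h (0, Q p) = Φ p
    rw [h.apply_zero, hφQ]
  · intro p
    show h (1, Q p) = x₀
    rw [h.apply_one]
    rfl
  · intro u s
    show h (u, Q (s, 0)) = h (u, Q (s, 1))
    rw [q1]
  · intro u t
    show h (u, Q (0, t)) = h (u, Q (0, 0))
    rw [q2]
  · intro u t
    show h (u, Q (1, t)) = h (u, Q (1, 0))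
    rw [q3]

/-- a vertex with a large coordinate -/
lemma exists_big {V : Type} [Fintype V] (H : SimpleGraph V) (x : nbhd H) :
    ∃ v, 1 ≤ (Fintype.card V : ℝ) * (x : V → ℝ) v := by
  by_contra hcon
  push Not at hcon
  obtain ⟨h0, h1, -⟩ := x.2
  have hne : Nonempty V := by
    by_contra hV
    rw [not_nonempty_iff] at hV
    rw [Finset.univ_eq_empty, Finset.sum_empty] at h1
    exact zero_ne_one h1
  have hlt : ∑ v : V, (Fintype.card V : ℝ) * (x : V → ℝ) v < ∑ v : V, (1 : ℝ) := by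
    apply Finset.sum_lt_sum_of_nonempty Finset.univ_nonempty
    intro v _
    exact hcon v
  rw [← Finset.mul_sum, h1, Finset.sum_const, Finset.card_univ, nsmul_eq_mul] at hlt
  exact lt_irrefl _ hlt

/-- the grid point `min (i / n) 1` -/
noncomputable def gp (n i : ℕ) : unitInterval :=
  ⟨min ((i : ℝ) / n) 1, le_min (by positivity) zero_le_one, min_le_right _ _⟩

lemma gp_zero (n : ℕ) : gp n 0 = 0 := by
  apply Subtype.ext
  show min (((0 : ℕ) : ℝ) / n) 1 = 0
  simp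

lemma gp_self {n : ℕ} (hn : 0 < n) : gp n n = 1 := by
  apply Subtype.ext
  show min ((n : ℝ) / n) 1 = 1
  have : (n : ℝ) ≠ 0 := by positivity
  rw [div_self this, min_self]

lemma gp_of_le {n i : ℕ} (hn : 0 < n) (hi : i ≤ n) : (gp n i : ℝ) = i / n := by
  show min ((i : ℝ) / n) 1 = i / n
  apply min_eq_left
  rw [div_le_one (by exact_mod_cast hn)]
  exact_mod_cast hi

lemma gp_dist {n i a : ℕ} (hn : 0 < n) (ha : a ≤ 1) : dist (gp n (i + a)) (gp n i) ≤ 1 / n := by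
  have hn' : (0 : ℝ) < n := by exact_mod_cast hn
  rw [Subtype.dist_eq]
  show dist (min (((i + a : ℕ) : ℝ) / n) 1) (min ((i : ℝ) / n) 1) ≤ 1 / n
  rw [Real.dist_eq]
  have h1 : |min (((i + a : ℕ) : ℝ) / n) 1 - min ((i : ℝ) / n) 1|
      ≤ |((i + a : ℕ) : ℝ) / n - (i : ℝ) / n| := by
    have := abs_min_sub_min_le_max (((i + a : ℕ) : ℝ) / n) 1 ((i : ℝ) / n) 1
    rw [sub_self, abs_zero, max_eq_left (abs_nonneg _)] at this
    exact this
  refine h1.trans ?_
  have e : ((i + a : ℕ) : ℝ) / n - (i : ℝ) / n = a / n := by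
    push_cast; ring
  rw [e, abs_of_nonneg (by positivity)]
  have : (a : ℝ) ≤ 1 := by exact_mod_cast ha
  gcongr

end LabelsAux

open LabelsAux in
theorem labels {V : Type} [Fintype V] (H : SimpleGraph V)
    (Φ : C(unitInterval × unitInterval, nbhd H))
    (hseam : ∀ s, Φ (s, 0) = Φ (s, 1)) (h0 : ∀ t, Φ (0, t) = Φ (0, 0))
    (h1 : ∀ t, Φ (1, t) = Φ (1, 0))
    (hnull : ∀ φ : C(Metric.sphere (0 : EuclideanSpace ℝ (Fin 3)) 1, nbhd H), φ.Nullhomotopic)
    (q : ℕ) (hq : 0 < q) :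
    ∃ n : ℕ, 0 < n ∧ q ∣ n ∧ ∃ r : ℕ → ℕ → ℕ → V,
      (∀ i j k, i < n → j < n → k < n → ∃ y, ∀ a b c, a ≤ 1 → b ≤ 1 → c ≤ 1 →
        H.Adj y (r (i + a) (j + b) (k + c))) ∧
      (∀ i k, r i 0 k = r i n k) ∧
      (∀ j k, r 0 j k = r 0 0 k) ∧ (∀ j k, r n j k = r n 0 k) ∧
      (∃ y, ∀ i j, i ≤ n → j ≤ n → H.Adj y (r i j n)) ∧
      (∀ (s t : unitInterval) (i j : ℕ), (s : ℝ) = i / n → (t : ℝ) = j / n → i ≤ n → j ≤ n →
        0 < (Φ (s, t) : V → ℝ) (r i j 0)) := by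
  obtain ⟨x₀, G, g0, g1, g2, g3, g4⟩ := exists_G H Φ hseam h0 h1 hnull
  choose ρ hρ using exists_big H
  have hpos : ∀ x : nbhd H, 0 < (x : V → ℝ) (ρ x) := by
    intro x
    have := hρ x
    by_contra hcon
    push Not at hcon
    have h2 : (Fintype.card V : ℝ) * (x : V → ℝ) (ρ x) ≤ 0 :=
      mul_nonpos_of_nonneg_of_nonpos (by positivity) hcon
    linarith
  have hcard : (0 : ℝ) < Fintype.card V := by
    have := hρ x₀
    by_contra hcon
    have h2 : (Fintype.card V : ℝ) = 0 := le_antisymm (not_lt.mp hcon) (by positivity)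
    rw [h2, zero_mul] at this
    linarith
  have hG : UniformContinuous G := CompactSpace.uniformContinuous_of_continuous G.continuous
  rw [Metric.uniformContinuous_iff] at hG
  obtain ⟨δ, hδ, hG⟩ := hG (1 / Fintype.card V) (by positivity)
  obtain ⟨N, hN⟩ := exists_nat_gt (1 / δ)
  have hN0 : 0 < N := by
    have : (0 : ℝ) < N := lt_trans (by positivity) hN
    exact_mod_cast this
  set n := q * N with hn
  have hn0 : 0 < n := Nat.mul_pos hq hN0
  have hnδ : 1 / (n : ℝ) < δ := by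
    have hn1 : (N : ℝ) ≤ n := by
      rw [hn]
      exact_mod_cast Nat.le_mul_of_pos_left N hq
    have hN' : (0 : ℝ) < N := by exact_mod_cast hN0
    calc 1 / (n : ℝ) ≤ 1 / N := by gcongr
      _ < δ := by
        rw [div_lt_iff₀ hN']
        rw [div_lt_iff₀ hδ] at hN
        linarith
  refine ⟨n, hn0, Dvd.intro _ rfl, fun i j k => ρ (G (gp n k, (gp n i, gp n j))), ?_, ?_, ?_, ?_,
    ?_, ?_⟩
  · intro i j k hi hj hk
    set x := G (gp n k, (gp n i, gp n j)) with hx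
    obtain ⟨-, -, y, hy⟩ := x.2
    refine ⟨y, ?_⟩
    intro a b c ha hb hc
    apply hy
    apply ne_of_gt
    set x' := G (gp n (k + c), (gp n (i + a), gp n (j + b))) with hx'
    have hd : dist x' x < 1 / Fintype.card V := by
      apply hG
      refine lt_of_le_of_lt ?_ hnδ
      rw [Prod.dist_eq, Prod.dist_eq]
      exact max_le (gp_dist hn0 hc) (max_le (gp_dist hn0 ha) (gp_dist hn0 hb))
    have hd2 : |(x' : V → ℝ) (ρ x') - (x : V → ℝ) (ρ x')| < 1 / Fintype.card V := by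
      rw [← Real.dist_eq]
      exact lt_of_le_of_lt (dist_le_pi_dist (x' : V → ℝ) (x : V → ℝ) (ρ x')) hd
    have hb1 : 1 / (Fintype.card V : ℝ) ≤ (x' : V → ℝ) (ρ x') := by
      rw [div_le_iff₀ hcard]
      have := hρ x'
      linarith
    have := (abs_lt.mp hd2).2
    linarith
  · intro i k
    show ρ (G (gp n k, (gp n i, gp n 0))) = ρ (G (gp n k, (gp n i, gp n n)))
    rw [gp_zero, gp_self hn0, g2]
  · intro j k
    show ρ (G (gp n k, (gp n 0, gp n j))) = ρ (G (gp n k, (gp n 0, gp n 0)))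
    rw [gp_zero, g3]
  · intro j k
    show ρ (G (gp n k, (gp n n, gp n j))) = ρ (G (gp n k, (gp n n, gp n 0)))
    rw [gp_self hn0, g4, gp_zero]
  · obtain ⟨-, -, y, hy⟩ := x₀.2
    refine ⟨y, ?_⟩
    intro i j _ _
    show H.Adj y (ρ (G (gp n n, (gp n i, gp n j))))
    rw [gp_self hn0, g1]
    exact hy _ (hpos x₀).ne'
  · intro s t i j hs ht hi hj
    show 0 < (Φ (s, t) : V → ℝ) (ρ (G (gp n 0, (gp n i, gp n j))))
    have es : gp n i = s := by
      apply Subtype.ext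
      rw [gp_of_le hn0 hi, hs]
    have et : gp n j = t := by
      apply Subtype.ext
      rw [gp_of_le hn0 hj, ht]
    rw [gp_zero, es, et, g0]
    exact hpos _

end Pool.Agent.H730.MB
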