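import Pool.Agent.H730.MB.Free

/-!
# All states are good; `Hom(F,R)` is connected
-/

namespace Pool.Agent.H730.MB

section
variable {V : Type} {F : SimpleGraph V}

lemma release [Finite V] (hd : ∀ v, (F.neighborSet v).ncard ≤ 3) {s : St V} (hv : Valid F s)
    {v : V} (hm : ¬ s.mid v) (hb : ¬ Blk F s.mid s.σ v) : ∃ σ' : V → V → ZMod 2,
      Bal F (fun u => s.mid u ∨ u = v) σ' ∧ ∀ u w, s.mid u → s.mid w → s.σ u w = σ' u w :=
  extend hd hv.toBal hm hb

/-- a vertex of `W` which is not blocked may be released -/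
lemma release_W [Finite V] (hd : ∀ v, (F.neighborSet v).ncard ≤ 3) {s : St V} (hv : Valid F s)
    {v : V} (hvW : v ∈ s.W) (hb : ¬ Blk F s.mid s.σ v) :
    ∃ σ' : V → V → ZMod 2, Valid F ⟨s.W \ {v}, s.T, σ'⟩ ∧
      (Good F ⟨s.W \ {v}, s.T, σ'⟩ → Good F s) := by
  obtain ⟨σ', h1, h2⟩ := release hd hv (fun h => h.1 hvW) hb
  have hval : Valid F ⟨s.W \ {v}, s.T, σ'⟩ := by
    refine ⟨h1.sym, fun u hu t ht => hv.dist u hu.1 t ht, ?_⟩
    intro u w ε ε' k k'
    have hsub : ∀ u, (⟨s.W \ {v}, s.T, σ'⟩ : St V).mid u → s.mid u ∨ u = v := by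
      intro u hu
      by_cases huv : u = v
      · exact Or.inr huv
      · exact Or.inl ⟨fun h => hu.1 ⟨h, huv⟩, hu.2⟩
    exact h1.bal u w ε ε' (Wk.congr hsub (fun _ _ _ _ _ => rfl) k)
      (Wk.congr hsub (fun _ _ _ _ _ => rfl) k')
  refine ⟨σ', hval, fun hg => ?_⟩
  have h3 := (good_insert_W hd hval (v := v) (fun t ht => hv.dist v hvW t ht)).2 hg
  have h4 : insert v (s.W \ {v}) = s.W := Set.insert_sdiff_self_of_mem hvW
  change Good F ⟨insert v (s.W \ {v}), s.T, σ'⟩ at h3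
  rw [h4] at h3
  exact good_congr (fun u w _ hu hw => h2 u w hu hw) h3

/-- a vertex of `T` which is not blocked may be released -/
lemma release_T [Finite V] (hd : ∀ v, (F.neighborSet v).ncard ≤ 3) {s : St V} (hv : Valid F s)
    {v : V} (hvT : v ∈ s.T) (hb : ¬ Blk F s.mid s.σ v) :
    ∃ σ' : V → V → ZMod 2, Valid F ⟨s.W, s.T \ {v}, σ'⟩ ∧
      (Good F ⟨s.W, s.T \ {v}, σ'⟩ → Good F s) := by
  obtain ⟨σ', h1, h2⟩ := release hd hv (fun h => h.2 hvT) hb
  have hval : Valid F ⟨s.W, s.T \ {v}, σ'⟩ := by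
    refine ⟨h1.sym, fun u hu t ht => hv.dist u hu t ht.1, ?_⟩
    intro u w ε ε' k k'
    have hsub : ∀ u, (⟨s.W, s.T \ {v}, σ'⟩ : St V).mid u → s.mid u ∨ u = v := by
      intro u hu
      by_cases huv : u = v
      · exact Or.inr huv
      · exact Or.inl ⟨hu.1, fun h => hu.2 ⟨h, huv⟩⟩
    exact h1.bal u w ε ε' (Wk.congr hsub (fun _ _ _ _ _ => rfl) k)
      (Wk.congr hsub (fun _ _ _ _ _ => rfl) k')
  refine ⟨σ', hval, fun hg => ?_⟩
  have h3 := (good_insert_T hd hval (v := v) (fun w hw h => hv.dist w hw v hvT h.symm)).2 hg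
  have h4 : insert v (s.T \ {v}) = s.T := Set.insert_sdiff_self_of_mem hvT
  change Good F ⟨s.W, insert v (s.T \ {v}), σ'⟩ at h3
  rw [h4] at h3
  exact good_congr (fun u w _ hu hw => h2 u w hu hw) h3

lemma wd1 {a b : V} (h : F.Adj a b) : Wd F 1 a b := Wd.cons h (Wd.refl 0 b)

/-- the neighbours of blocked vertices are far from the blocked vertices at the other tip -/
lemma far_of_blk [Finite V] (hd : ∀ v, (F.neighborSet v).ncard ≤ 3) {G : V → Prop}
    {σ : V → V → ZMod 2} (hb : Bal F G σ) {v t : V} (hGv : ¬ G v) (hGt : ¬ G t)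
    (hv : Blk F G σ v) (ht : Blk F G σ t) (hvt : ¬ Wd F 3 v t) {b : V} (hvb : F.Adj v b) :
    ¬ Wd F 3 b t := by
  intro h
  rcases h with h | ⟨x, hbx, h⟩
  · exact hvt (Wd.cons hvb h)
  rcases h with h | ⟨y, hxy, h⟩
  · exact hvt (Wd.cons hvb (Wd.cons hbx h))
  rcases h with h | ⟨z, hyz, h⟩
  · cases h
    exact hvt (Wd.cons hvb (Wd.cons hbx (wd1 hxy)))
  have hz : z = t := h
  rw [hz] at hyz
  -- now v ~ b ~ x ~ y ~ t
  have hxv : x ≠ v := by
    intro h
    rw [h] at hxy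
    exact hvt (Wd.cons hxy (wd1 hyz)).mono
  have hxt : x ≠ t := by
    intro h
    rw [h] at hbx
    exact hvt (Wd.cons hvb (wd1 hbx)).mono
  obtain ⟨_, h1⟩ := hv.star hd hb hGv hvb hbx hxv
  rcases h1 with h1 | ⟨a, hva, hab, hxa⟩
  · exact hvt (Wd.cons h1 (Wd.cons hxy (wd1 hyz)))
  obtain ⟨_, h2⟩ := ht.star hd hb hGt hyz.symm hxy.symm hxt
  rcases h2 with h2 | ⟨y', hty', hyy', hxy'⟩
  · exact hvt (Wd.cons hvb (Wd.cons hbx (wd1 h2.symm)))
  have ne1 : ∀ p q, F.Adj v p → F.Adj q t → p ≠ q := by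
    rintro p q h1 h2 rfl
    exact hvt (Wd.cons h1 (wd1 h2)).mono
  exact deg_four hd hbx.symm hxa hxy hxy' hab.symm (ne1 b y hvb hyz) (ne1 b y' hvb hty'.symm)
    (ne1 a y hva hyz) (ne1 a y' hva hty'.symm) hyy'.symm

/-- if all the neighbours of a blocked vertex are bad, the component is small -/
lemma closed_of_bad [Finite V] (hd : ∀ v, (F.neighborSet v).ncard ≤ 3) {G : V → Prop}
    {σ : V → V → ZMod 2} (hb : Bal F G σ) {v : V} (hGv : ¬ G v) (hv : Blk F G σ v)
    (hQ : ∀ b, F.Adj v b → ∀ x z, F.Adj b x → F.Adj x z → z ≠ b →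
      F.Adj b z ∨ ∃ y, F.Adj b y ∧ y ≠ x ∧ F.Adj z y) (u : V) (hu : Wd F 4 v u) :
    Wd F 3 v u := by
  by_contra hnot
  rcases hu with h | ⟨b, hvb, h⟩
  · exact hnot h
  rcases h with h | ⟨x, hbx, h⟩
  · exact hnot (Wd.cons hvb h)
  rcases h with h | ⟨z, hxz, h⟩
  · exact hnot (Wd.cons hvb (Wd.cons hbx h))
  rcases h with h | ⟨u', hzu, h⟩
  · cases h
    exact hnot (Wd.cons hvb (Wd.cons hbx (wd1 hxz)))
  have hu' : u' = u := h
  rw [hu'] at hzu
  -- v ~ b ~ x ~ z ~ u
  have hz2 : ¬ Wd F 2 v z := fun h => hnot (h.snoc hzu)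
  have hx1 : ¬ F.Adj v x := fun h => hz2 ((wd1 h).snoc hxz)
  have hz1 : ¬ F.Adj v z := fun h => hz2 (wd1 h).mono
  have hvz : v ≠ z := fun h => hz2 (by rw [← h]; exact Wd.refl _ _)
  have hvx : x ≠ v := fun h => hz1 (by rw [← h]; exact hxz)
  have npz : ∀ p, F.Adj v p → ¬ F.Adj p z := fun p h1 h2 => hz2 ((wd1 h1).snoc h2)
  have npu : ∀ p, F.Adj v p → ¬ F.Adj p u := fun p h1 h2 => hnot ((wd1 h1).snoc h2).mono
  have nez : ∀ p, F.Adj v p → p ≠ z := fun p h1 h2 => hz1 (by rw [← h2]; exact h1)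
  have hux : x ≠ u := fun h => npu b hvb (by rw [← h]; exact hbx)
  -- badness of b
  obtain ⟨y, hby, hyx, hzy⟩ := (hQ b hvb x z hbx hxz (nez b hvb).symm).resolve_left (npz b hvb)
  have hvy1 : ¬ F.Adj v y := fun h => npz y h hzy.symm
  have hyv : y ≠ v := fun h => hz1 (by rw [← h]; exact hzy.symm)
  have huy : y ≠ u := fun h => npu b hvb (by rw [← h]; exact hby)
  obtain ⟨a, hva, hab, hxa⟩ := (hv.star hd hb hGv hvb hbx hvx).2.resolve_left hx1
  -- badness of a
  obtain ⟨y', hay', hyx', hzy'⟩ :=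
    (hQ a hva x z hxa.symm hxz (nez a hva).symm).resolve_left (npz a hva)
  have hay : F.Adj a y := by
    rcases deg_cases hd hxz.symm hzy hzu hyx.symm hux huy hzy' with h | h | h
    · exact absurd h hyx'
    · rw [← h]; exact hay'
    · exact absurd (by rw [← h]; exact hay') (npu a hva)
  -- the third neighbour of v
  obtain ⟨_, p, c, hap, hac, hpc, hvp, hvc, _, _, e1, e2, e3, f1, f2, f3, _⟩ :=
    hv.first hd hb.sym hva
  -- one of them is not b
  have key : ∃ c, F.Adj v c ∧ c ≠ a ∧ c ≠ b ∧ ∃ e, Fo F G σ a c e := by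
    by_cases hpb : p = b
    · exact ⟨c, hvc, hac.symm, fun h => hpc (hpb.trans h.symm), e2, f2⟩
    · exact ⟨p, hvp, hap.symm, hpb, e1, f1⟩
  obtain ⟨c, hvc, hca, hcb, e, hf⟩ := key
  rcases hf with ⟨h1, _⟩ | ⟨q, gq, haq, hqc, _⟩
  · rcases deg_cases hd hva.symm hxa.symm hay hvx.symm hyv.symm hyx.symm h1 with h | h | h
    · exact hvc.ne h.symm
    · exact hx1 (by rw [← h]; exact hvc)
    · exact hvy1 (by rw [← h]; exact hvc)
  · rcases deg_cases hd hva.symm hxa.symm hay hvx.symm hyv.symm hyx.symm haq with h | h | h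
    · exact hGv (by rw [← h]; exact gq)
    · rw [h] at hqc
      exact deg_four hd hqc hbx.symm hxa hxz hcb hca (nez c hvc) hab.symm (nez b hvb) (nez a hva)
    · rw [h] at hqc
      exact deg_four hd hqc hby.symm hay.symm hzy.symm hcb hca (nez c hvc) hab.symm (nez b hvb)
        (nez a hva)

/-- every valid state is good -/
theorem all_good [Finite V] (hd : ∀ v, (F.neighborSet v).ncard ≤ 3) (n : ℕ) : ∀ s : St V,
    Valid F s → s.W.ncard + s.T.ncard ≤ n → Good F s := by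
  classical
  induction n with
  | zero =>
    intro s hv hn
    have h0 : s.W.ncard = 0 := by omega
    exact good_empty hd hv ((Set.ncard_eq_zero (Set.toFinite _)).1 h0)
  | succ n ih =>
    intro s hv hn
    rcases Set.eq_empty_or_nonempty s.W with hW | ⟨v, hvW⟩
    · exact good_empty hd hv hW
    have hlt : ∀ w ∈ s.W, (s.W \ {w}).ncard < s.W.ncard := fun w hw =>
      Set.ncard_sdiff_singleton_lt_of_mem hw (Set.toFinite _)
    by_cases h1 : ∃ w ∈ s.W, ¬ Blk F s.mid s.σ w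
    · obtain ⟨w, hw, hnb⟩ := h1
      obtain ⟨σ', k1, k2⟩ := release_W hd hv hw hnb
      refine k2 (ih _ k1 ?_)
      have := hlt w hw
      change (s.W \ {w}).ncard + s.T.ncard ≤ n
      omega
    by_cases h2 : ∃ t ∈ s.T, ¬ Blk F s.mid s.σ t
    · obtain ⟨t, ht, hnb⟩ := h2
      obtain ⟨σ', k1, k2⟩ := release_T hd hv ht hnb
      refine k2 (ih _ k1 ?_)
      have : (s.T \ {t}).ncard < s.T.ncard :=
        Set.ncard_sdiff_singleton_lt_of_mem ht (Set.toFinite _)
      change s.W.ncard + (s.T \ {t}).ncard ≤ n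
      omega
    push Not at h1 h2
    have hb := hv.toBal
    have hGv : ¬ s.mid v := fun h => h.1 hvW
    have hfar : ∀ b, F.Adj v b → ∀ t ∈ s.T, ¬ Wd F 3 b t := fun b hvb t ht =>
      far_of_blk hd hb hGv (fun h => h.2 ht) (h1 v hvW) (h2 t ht) (hv.dist v hvW t ht) hvb
    by_cases h3 : ∀ b, F.Adj v b → ∀ x z, F.Adj b x → F.Adj x z → z ≠ b →
        F.Adj b z ∨ ∃ y, F.Adj b y ∧ y ≠ x ∧ F.Adj z y
    · -- the component is small
      have hK := closed_of_bad hd hb hGv (h1 v hvW) h3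
      let K : Set V := {u | Wd F 3 v u}
      have hKadj : ∀ u w, F.Adj u w → u ∈ K → w ∈ K := fun u w huw hu => hK w (Wd.snoc hu huw)
      have hKadj' : ∀ u w, F.Adj u w → u ∉ K → w ∉ K := fun u w huw hu hw =>
        hu (hKadj w u huw.symm hw)
      have hKwd : ∀ k u w, Wd F k u w → u ∈ K → w ∈ K := by
        intro k
        induction k with
        | zero => intro u w h hu; rw [← show u = w from h]; exact hu
        | succ k ihk =>
          intro u w h hu
          rcases h with h | ⟨u', h4, h5⟩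
          · exact ihk u w h hu
          · exact ihk u' w h5 (hKadj u u' h4 hu)
      have hKfar : ∀ k ∈ K, ∀ t ∈ s.T, ¬ Wd F 3 k t := fun k hk t ht h =>
        hv.dist v hvW t ht (hKwd 3 k t h hk)
      let σ' : V → V → ZMod 2 := fun u w => if u ∈ K ∨ w ∈ K then 0 else s.σ u w
      have e1 : ∀ u w, u ∈ K → σ' u w = 0 := fun u w hu => if_pos (Or.inl hu)
      have e2 : ∀ u w, w ∈ K → σ' u w = 0 := fun u w hw => if_pos (Or.inr hw)
      have e3 : ∀ u w, u ∉ K → w ∉ K → σ' u w = s.σ u w := fun u w hu hw =>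
        if_neg (fun h => h.elim hu hw)
      have hmid : ∀ u, u ∉ K → (⟨s.W \ K, s.T, σ'⟩ : St V).mid u → s.mid u :=
        fun u hu h => ⟨fun h' => h.1 ⟨h', hu⟩, h.2⟩
      have hbal : Bal F (⟨s.W \ K, s.T, σ'⟩ : St V).mid σ' := by
        refine ⟨?_, ?_, ?_⟩
        · intro u w
          by_cases hu : u ∈ K
          · rw [e1 u w hu, e2 w u hu]
          · by_cases hw : w ∈ K
            · rw [e2 u w hw, e1 w u hw]
            · rw [e3 u w hu hw, e3 w u hw hu, hv.sym]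
        · intro u x w hu hx hw h4 h5 h6
          by_cases hK' : u ∈ K
          · rw [e1 u x hK', e1 u w hK', e1 x w (hKadj u x h4 hK'), add_zero]
          · have hx' := hKadj' u x h4 hK'
            have hw' := hKadj' u w h6 hK'
            rw [e3 u x hK' hx', e3 x w hx' hw', e3 u w hK' hw']
            exact hb.b3 u x w (hmid u hK' hu) (hmid x hx' hx) (hmid w hw' hw) h4 h5 h6
        · intro u x y w hu hx hy hw h4 h5 h6 h7
          by_cases hK' : u ∈ K
          · rw [e1 u x hK', e1 u y hK', e1 x w (hKadj u x h4 hK'), e1 y w (hKadj u y h6 hK')]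
          · have hx' := hKadj' u x h4 hK'
            have hy' := hKadj' u y h6 hK'
            have hw' := hKadj' x w h5 hx'
            rw [e3 u x hK' hx', e3 x w hx' hw', e3 u y hK' hy', e3 y w hy' hw']
            exact hb.b4 u x y w (hmid u hK' hu) (hmid x hx' hx) (hmid y hy' hy)
              (hmid w hw' hw) h4 h5 h6 h7
      have hval : Valid F ⟨s.W \ K, s.T, σ'⟩ :=
        ⟨hbal.sym, fun u hu t ht => hv.dist u hu.1 t ht, hbal.bal⟩
      have hlt' : (s.W \ K).ncard < s.W.ncard := by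
        refine lt_of_le_of_lt (Set.ncard_le_ncard ?_ (Set.toFinite _)) (hlt v hvW)
        intro w hw
        refine ⟨hw.1, ?_⟩
        rintro rfl
        exact hw.2 (Wd.refl 3 w)
      have g1 : Good F ⟨s.W \ K, s.T, σ'⟩ := ih _ hval (by
        change (s.W \ K).ncard + s.T.ncard ≤ n
        omega)
      have g2 := (good_union_W hd hval (K := K) hKfar).2.2 g1
      change Good F ⟨(s.W \ K) ∪ K, s.T, σ'⟩ at g2
      rw [Set.sdiff_union_self] at g2
      have g3 : Good F ⟨s.W ∪ K, s.T, s.σ⟩ := by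
        refine good_congr (fun u w _ hu hw => ?_) g2
        exact (e3 u w (fun h => hu.1 (Or.inr h)) (fun h => hw.1 (Or.inr h))).symm
      exact (good_union_W hd hv (K := K) hKfar).2.1 g3
    · -- a neighbour which is not bad
      push Not at h3
      obtain ⟨b, hvb, x, z, hbx, hxz, hzb, hnbz, hny⟩ := h3
      have hs1 := valid_insert hv (hfar b hvb)
      have hg1 := good_insert_W hd hv (hfar b hvb)
      have nb1 : ¬ Blk F (⟨insert b s.W, s.T, s.σ⟩ : St V).mid s.σ v := by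
        rintro ⟨p, q, r, hpq, hqr, hpr, a1, a2, a3, g1, g2, g3, _⟩
        exact deg_four hd hvb a1 a2 a3 (insert_mid g1).2.symm (insert_mid g2).2.symm
          (insert_mid g3).2.symm hpq hpr hqr
      obtain ⟨σ2, v2, g2⟩ := release_W hd hs1 (v := v) (Set.mem_insert_of_mem _ hvW) nb1
      change Valid F ⟨insert b s.W \ {v}, s.T, σ2⟩ at v2
      change Good F ⟨insert b s.W \ {v}, s.T, σ2⟩ → Good F ⟨insert b s.W, s.T, s.σ⟩ at g2
      have hbW2 : b ∈ insert b s.W \ {v} := ⟨Set.mem_insert _ _, hvb.ne.symm⟩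
      have nb2 : ¬ Blk F (⟨insert b s.W \ {v}, s.T, σ2⟩ : St V).mid σ2 b := by
        intro hblk
        have hx : z ≠ b := hzb
        obtain ⟨_, h4⟩ := hblk.star hd v2.toBal (fun h => h.1 hbW2) hbx hxz hx
        rcases h4 with h4 | ⟨y, h5, h6, h7⟩
        · exact hnbz h4
        · exact hny y h5 h6 h7
      obtain ⟨σ3, v3, g3⟩ := release_W hd v2 (v := b) hbW2 nb2
      change Valid F ⟨(insert b s.W \ {v}) \ {b}, s.T, σ3⟩ at v3
      have hlt3 : ((insert b s.W \ {v}) \ {b}).ncard < s.W.ncard := by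
        refine lt_of_le_of_lt (Set.ncard_le_ncard ?_ (Set.toFinite _)) (hlt v hvW)
        intro w hw
        refine ⟨?_, hw.1.2⟩
        rcases hw.1.1 with h | h
        · exact absurd h hw.2
        · exact h
      refine hg1.1 (g2 (g3 (ih _ v3 ?_)))
      change ((insert b s.W \ {v}) \ {b}).ncard + s.T.ncard ≤ n
      omega

/-- `Hom(F,R)` is connected for all `F` of maximum degree at most three -/
theorem hom_R [Finite V] (hd : ∀ v, (F.neighborSet v).ncard ≤ 3) (f g : V → R)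
    (hf : IsHom F RAdj f) (hg : IsHom F RAdj g) : Cn F RAdj f g := by
  obtain ⟨s, hs, hfs⟩ := exists_state hf
  obtain ⟨s', hs', hgs⟩ := exists_state hg
  exact (all_good hd _ s hs le_rfl f hfs).trans (all_good hd _ s' hs' le_rfl g hgs).symm

end

end Pool.Agent.H730.MB
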