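import Pool.Agent.H730.MB.Defs

/-!
# Changing many vertices one after the other
-/

namespace Pool.Agent.H730.MB

section
variable {V α : Type} {F : SimpleGraph V} {A : α → α → Prop}

lemma Cn.refl (f : V → α) : Cn F A f f := Relation.ReflTransGen.refl

lemma Cn.trans {f g h : V → α} (h1 : Cn F A f g) (h2 : Cn F A g h) : Cn F A f h :=
  Relation.ReflTransGen.trans h1 h2

lemma Step.symm {f g : V → α} (h : Step F A f g) : Step F A g f := by
  obtain ⟨h1, h2, w, hw⟩ := h
  exact ⟨h2, h1, w, fun x hx => (hw x hx).symm⟩

lemma Cn.symm {f g : V → α} (h : Cn F A f g) : Cn F A g f := by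
  induction h with
  | refl => exact Cn.refl _
  | tail _ hab ih => exact Relation.ReflTransGen.head hab.symm ih

lemma Cn.single {f g : V → α} (hf : IsHom F A f) (hg : IsHom F A g) (w : V)
    (h : ∀ x, x ≠ w → f x = g x) : Cn F A f g :=
  Relation.ReflTransGen.single ⟨hf, hg, w, h⟩

/-- If `f` and `g` may be mixed arbitrarily, they are connected. -/
lemma mix [Finite V] (hA : ∀ a b, A a b → A b a) (f g : V → α)
    (hff : ∀ u v, F.Adj u v → A (f u) (f v)) (hfg : ∀ u v, F.Adj u v → A (f u) (g v))
    (hgg : ∀ u v, F.Adj u v → A (g u) (g v)) : Cn F A f g := by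
  classical
  have := Fintype.ofFinite V
  have key : ∀ S : Finset V, Cn F A f (fun u => if u ∈ S then g u else f u) := by
    intro S
    induction S using Finset.induction_on with
    | empty => simpa using Cn.refl f
    | insert a S ha ih =>
      refine ih.trans (Cn.single ?_ ?_ a ?_)
      · intro u v huv
        dsimp only
        split_ifs
        · exact hgg u v huv
        · exact hA _ _ (hfg v u huv.symm)
        · exact hfg u v huv
        · exact hff u v huv
      · intro u v huv
        dsimp only
        split_ifs
        · exact hgg u v huv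
        · exact hA _ _ (hfg v u huv.symm)
        · exact hfg u v huv
        · exact hff u v huv
      · intro x hx
        simp [Finset.mem_insert, hx]
  have h1 := key Finset.univ
  simpa using h1

lemma IsHom.of_cn {f g : V → α} (h : Cn F A f g) (hf : IsHom F A f) : IsHom F A g := by
  induction h with
  | refl => exact hf
  | tail _ hab _ => exact hab.2.1

/-- transport of connectedness along an automorphism -/
lemma Cn.map {β : Type} {B : β → β → Prop} (e : α → β) (he : ∀ a b, A a b → B (e a) (e b))
    {f g : V → α} (h : Cn F A f g) : Cn F B (fun u => e (f u)) (fun u => e (g u)) := by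
  induction h with
  | refl => exact Cn.refl _
  | tail _ hab ih =>
    obtain ⟨h1, h2, w, hw⟩ := hab
    exact ih.trans (Cn.single (fun u v huv => he _ _ (h1 u v huv))
      (fun u v huv => he _ _ (h2 u v huv)) w (fun x hx => by rw [hw x hx]))

end

end Pool.Agent.H730.MB
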