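import Pool.Agent.H730.MB.Sgn

/-!
# The explicit map of the square into the neighbourhood complex
-/

namespace Pool.Agent.H730.MB

namespace PhiL

/-- hat functions -/
noncomputable def ht (k : ℕ) (x : ℝ) : ℝ := max 0 (1 - |x - k|)

lemma ht_nonneg (k : ℕ) (x : ℝ) : 0 ≤ ht k x := le_max_left _ _

lemma ht_cont (k : ℕ) : Continuous (ht k) := by
  unfold ht
  exact continuous_const.max (continuous_const.sub (continuous_id.sub continuous_const).abs)

lemma ht_ne {k : ℕ} {x : ℝ} (h : ht k x ≠ 0) : |x - k| < 1 := by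
  by_contra hc
  apply h
  unfold ht
  exact max_eq_left (by linarith)

lemma ht_nat (k m : ℕ) : ht k (m : ℝ) = if k = m then 1 else 0 := by
  unfold ht
  split_ifs with h
  · rw [h, sub_self, abs_zero, sub_zero]
    exact max_eq_right zero_le_one
  · refine max_eq_left ?_
    rw [sub_nonpos]
    have h1 : (1 : ℤ) ≤ |(m : ℤ) - k| := by
      apply Int.one_le_abs
      intro h2
      apply h
      omega
    have h2 : ((1 : ℤ) : ℝ) ≤ ((|(m : ℤ) - k| : ℤ) : ℝ) := Int.cast_le.2 h1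
    push_cast at h2
    exact h2

lemma ht_sum_aux (n : ℕ) (x : ℝ) (hx : 0 ≤ x) :
    ∑ k ∈ Finset.range (n + 1), ht k x = max 0 (min 1 ((n : ℝ) + 1 - x)) := by
  induction n with
  | zero =>
    rw [Finset.sum_range_one]
    unfold ht
    rw [Nat.cast_zero, sub_zero, abs_of_nonneg hx, zero_add, min_eq_right (by linarith)]
  | succ n ih =>
    rw [Finset.sum_range_succ, ih]
    unfold ht
    push_cast
    rcases le_total x (n : ℝ) with h1 | h1
    · rw [min_eq_left (by linarith), max_eq_right zero_le_one, abs_of_nonpos (by linarith),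
        max_eq_left (by linarith), min_eq_left (by linarith), max_eq_right zero_le_one, add_zero]
    · rcases le_total x ((n : ℝ) + 1) with h2 | h2
      · rw [min_eq_right (by linarith), max_eq_right (by linarith), abs_of_nonpos (by linarith),
          max_eq_right (by linarith), min_eq_left (by linarith), max_eq_right zero_le_one]
        ring
      · rw [min_eq_right (by linarith), max_eq_left (by linarith), abs_of_nonneg (by linarith),
          zero_add]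
        rw [min_eq_right (by linarith)]
        congr 1
        ring

lemma ht_sum (n : ℕ) (x : ℝ) (hx : 0 ≤ x) (hn : x ≤ n) :
    ∑ k ∈ Finset.range (n + 1), ht k x = 1 := by
  rw [ht_sum_aux n x hx, min_eq_left (by linarith), max_eq_right zero_le_one]

/-- the vertices -/
noncomputable def vt (θ : ℕ → X) (l M : ℕ) : R × Fin 5 :=
  ((Fin.ofNat 5 l, if l = 0 ∨ l = 4 then θ 0 else θ M), 0)

lemma vt_lev (θ : ℕ → X) {l : ℕ} (M : ℕ) (hl : l < 5) : ((vt θ l M).1.1 : ℕ) = l := by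
  unfold vt
  simp only [Fin.ofNat]
  exact Nat.mod_eq_of_lt hl

open Classical in
/-- the values of the map -/
noncomputable def Fv (θ : ℕ → X) (x y : ℝ) (v : R × Fin 5) : ℝ :=
  ∑ l ∈ Finset.range 5, ∑ M ∈ Finset.range 6, ht l x * ht M y * (if v = vt θ l M then 1 else 0)

lemma Fv_nonneg (θ : ℕ → X) (x y : ℝ) (v : R × Fin 5) : 0 ≤ Fv θ x y v := by
  classical
  unfold Fv
  refine Finset.sum_nonneg fun l _ => Finset.sum_nonneg fun M _ => ?_
  refine mul_nonneg (mul_nonneg (ht_nonneg _ _) (ht_nonneg _ _)) ?_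
  split_ifs
  · exact zero_le_one
  · exact le_rfl

lemma Fv_sum (θ : ℕ → X) (x y : ℝ) (hx : 0 ≤ x) (hx' : x ≤ 4) (hy : 0 ≤ y) (hy' : y ≤ 5) :
    ∑ v, Fv θ x y v = 1 := by
  classical
  unfold Fv
  rw [Finset.sum_comm]
  have e : ∀ l ∈ Finset.range 5, ∑ v : R × Fin 5, ∑ M ∈ Finset.range 6,
      ht l x * ht M y * (if v = vt θ l M then (1 : ℝ) else 0) = ht l x := by
    intro l _
    rw [Finset.sum_comm]
    have e2 : ∀ M ∈ Finset.range 6, ∑ v : R × Fin 5,
        ht l x * ht M y * (if v = vt θ l M then (1 : ℝ) else 0) = ht l x * ht M y := by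
      intro M _
      rw [← Finset.mul_sum, Finset.sum_ite_eq' Finset.univ (vt θ l M) (fun _ => (1 : ℝ)),
        if_pos (Finset.mem_univ _), mul_one]
    rw [Finset.sum_congr rfl e2, ← Finset.mul_sum, ht_sum 5 y hy (by exact_mod_cast hy'), mul_one]
  rw [Finset.sum_congr rfl e, ht_sum 4 x hx (by exact_mod_cast hx')]

lemma Fv_supp (θ : ℕ → X) (x y : ℝ) (v : R × Fin 5) (h : Fv θ x y v ≠ 0) :
    ∃ l M : ℕ, l < 5 ∧ M < 6 ∧ |x - l| < 1 ∧ |y - M| < 1 ∧ v = vt θ l M := by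
  classical
  unfold Fv at h
  obtain ⟨l, hl, h1⟩ := Finset.exists_ne_zero_of_sum_ne_zero h
  obtain ⟨M, hM, h2⟩ := Finset.exists_ne_zero_of_sum_ne_zero h1
  rw [Finset.mem_range] at hl hM
  have h3 := left_ne_zero_of_mul h2
  have h4 := right_ne_zero_of_mul h2
  refine ⟨l, M, hl, hM, ht_ne (left_ne_zero_of_mul h3), ht_ne (right_ne_zero_of_mul h3), ?_⟩
  by_contra hc
  rw [if_neg hc] at h4
  exact h4 rfl

lemma floor_cmp {x : ℝ} (hx : 0 ≤ x) {l : ℕ} (h : |x - l| < 1) :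
    ⌊x⌋₊ ≤ l ∧ l ≤ ⌊x⌋₊ + 1 := by
  have h1 := Nat.floor_le hx
  have h2 := Nat.lt_floor_add_one x
  rw [abs_lt] at h
  obtain ⟨h3, h4⟩ := h
  constructor
  · have h5 : (⌊x⌋₊ : ℝ) < ((l + 1 : ℕ) : ℝ) := by push_cast; linarith
    have := Nat.cast_lt.1 h5
    omega
  · have h5 : (l : ℝ) < ((⌊x⌋₊ + 2 : ℕ) : ℝ) := by push_cast; linarith
    have := Nat.cast_lt.1 h5
    omega

lemma common (θ : ℕ → X) (hN : ∀ a, a < 5 → ∃ δ, Near δ (θ a) (θ (a + 1))) (x y : ℝ)
    (hx : 0 ≤ x) (hx' : x ≤ 4) (hy : 0 ≤ y) :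
    ∃ u, ∀ v, Fv θ x y v ≠ 0 → H.Adj u v := by
  have hl0 : ⌊x⌋₊ < 5 := by
    rw [Nat.floor_lt hx]
    push_cast
    linarith
  refine ⟨((⟨⌊x⌋₊, hl0⟩, θ ⌊y⌋₊), 1), fun v hv => ?_⟩
  obtain ⟨l, M, hl, hM, h1, h2, rfl⟩ := Fv_supp θ x y v hv
  obtain ⟨a1, a2⟩ := floor_cmp hx h1
  obtain ⟨b1, b2⟩ := floor_cmp hy h2
  refine ⟨⟨?_, ?_, ?_⟩, ?_⟩
  · rw [vt_lev θ M hl]
    change ⌊x⌋₊ ≤ l + 1
    omega
  · rw [vt_lev θ M hl]
    exact a2
  · by_cases h0 : l = 0
    · right; right; left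
      apply Fin.ext
      rw [vt_lev θ M hl, h0]
      rfl
    · by_cases h4 : l = 4
      · right; right; right; left
        apply Fin.ext
        rw [vt_lev θ M hl, h4]
        rfl
      · right; right; right; right
        have e : (vt θ l M).1.2 = θ M := by
          unfold vt
          simp only
          rw [if_neg]
          rintro (h | h)
          · exact h0 h
          · exact h4 h
        rw [e]
        rcases Nat.lt_or_ge ⌊y⌋₊ M with h | h
        · have h5 : M = ⌊y⌋₊ + 1 := by omega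
          rw [h5]
          exact hN _ (by omega)
        · have h5 : M = ⌊y⌋₊ := by omega
          rw [h5]
          exact ⟨0, near_self _⟩
  · intro h
    have : (1 : Fin 5) = 0 := h
    exact absurd this (by decide)

lemma Fv_cont (θ : ℕ → X) : Continuous (fun p : unitInterval × unitInterval =>
    Fv θ (4 * (p.1 : ℝ)) (5 * (p.2 : ℝ))) := by
  classical
  unfold Fv
  refine continuous_pi fun v => ?_
  refine continuous_finsetSum _ fun l _ => continuous_finsetSum _ fun M _ => ?_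
  have c1 : Continuous (fun p : unitInterval × unitInterval => 4 * (p.1 : ℝ)) := by fun_prop
  have c2 : Continuous (fun p : unitInterval × unitInterval => 5 * (p.2 : ℝ)) := by fun_prop
  exact (((ht_cont l).comp c1).mul ((ht_cont M).comp c2)).mul continuous_const

lemma vt_pole (θ : ℕ → X) {l : ℕ} (hl : l = 0 ∨ l = 4) (M : ℕ) : vt θ l M = vt θ l 0 := by
  unfold vt
  rw [if_pos hl, if_pos hl]

lemma Fv_x (θ : ℕ → X) (m : ℕ) (hm : m = 0 ∨ m = 4) (y : ℝ) (hy : 0 ≤ y) (hy' : y ≤ 5)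
    (v : R × Fin 5) : Fv θ (m : ℝ) y v = Fv θ (m : ℝ) 0 v := by
  classical
  have key : ∀ y : ℝ, 0 ≤ y → y ≤ 5 → Fv θ (m : ℝ) y v =
      if v = vt θ m 0 then 1 else 0 := by
    intro y hy hy'
    unfold Fv
    rw [Finset.sum_eq_single m]
    · rw [ht_nat, if_pos rfl]
      have e : ∀ M ∈ Finset.range 6, 1 * ht M y * (if v = vt θ m M then (1 : ℝ) else 0) =
          ht M y * (if v = vt θ m 0 then (1 : ℝ) else 0) := by
        intro M _
        rw [vt_pole θ hm M, one_mul]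
      rw [Finset.sum_congr rfl e, ← Finset.sum_mul, ht_sum 5 y hy (by exact_mod_cast hy'), one_mul]
    · intro l _ hlm
      rw [ht_nat, if_neg hlm]
      exact Finset.sum_eq_zero fun M _ => by rw [zero_mul, zero_mul]
    · intro h
      exfalso
      apply h
      rw [Finset.mem_range]
      omega
  rw [key y hy hy', key 0 le_rfl (by norm_num)]

lemma Fv_y (θ : ℕ → X) (h5 : θ 5 = θ 0) (x : ℝ) (v : R × Fin 5) :
    Fv θ x ((0 : ℕ) : ℝ) v = Fv θ x ((5 : ℕ) : ℝ) v := by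
  classical
  unfold Fv
  refine Finset.sum_congr rfl fun l _ => ?_
  rw [Finset.sum_eq_single 0, Finset.sum_eq_single 5]
  · rw [ht_nat, ht_nat, if_pos rfl, if_pos rfl]
    have e : vt θ l 5 = vt θ l 0 := by
      unfold vt
      rw [h5]
    rw [e]
  · intro M _ hM
    rw [ht_nat, if_neg hM, mul_zero, zero_mul]
  · intro h
    exact absurd (Finset.mem_range.2 (by norm_num)) h
  · intro M _ hM
    rw [ht_nat, if_neg hM, mul_zero, zero_mul]
  · intro h
    exact absurd (Finset.mem_range.2 (by norm_num)) h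

end PhiL

open PhiL

theorem exists_phi (θ : ℕ → X) (h01 : Near 0 (θ 0) (θ 1)) (h12 : Near 0 (θ 1) (θ 2))
    (h23 : Near 0 (θ 2) (θ 3)) (h34 : Near 0 (θ 3) (θ 4)) (h40 : Near 1 (θ 4) (θ 5))
    (h5 : θ 5 = θ 0) :
    ∃ Φ : C(unitInterval × unitInterval, nbhd H),
      (∀ s, Φ (s, 0) = Φ (s, 1)) ∧ (∀ t, Φ (0, t) = Φ (0, 0)) ∧ (∀ t, Φ (1, t) = Φ (1, 0)) ∧
      ∀ (s t : unitInterval) (v : R × Fin 5), 0 < (Φ (s, t) : R × Fin 5 → ℝ) v →
        |4 * (s : ℝ) - (v.1.1 : ℕ)| < 1 ∧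
        (mid v.1 → ∃ M : ℕ, M ≤ 5 ∧ v.1.2 = θ M ∧ |5 * (t : ℝ) - M| < 1) := by
  have hN : ∀ a, a < 5 → ∃ δ, Near δ (θ a) (θ (a + 1)) := by
    intro a ha
    interval_cases a
    · exact ⟨0, h01⟩
    · exact ⟨0, h12⟩
    · exact ⟨0, h23⟩
    · exact ⟨0, h34⟩
    · exact ⟨1, h40⟩
  have hb : ∀ s : unitInterval, 0 ≤ 4 * (s : ℝ) ∧ 4 * (s : ℝ) ≤ 4 ∧ 0 ≤ 5 * (s : ℝ) ∧
      5 * (s : ℝ) ≤ 5 := by
    intro s
    have h1 := s.2.1
    have h2 := s.2.2
    refine ⟨?_, ?_, ?_, ?_⟩ <;> linarith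
  refine ⟨⟨fun p => ⟨Fv θ (4 * (p.1 : ℝ)) (5 * (p.2 : ℝ)), Fv_nonneg θ _ _,
    Fv_sum θ _ _ (hb p.1).1 (hb p.1).2.1 (hb p.2).2.2.1 (hb p.2).2.2.2,
    common θ hN _ _ (hb p.1).1 (hb p.1).2.1 (hb p.2).2.2.1⟩,
    (Fv_cont θ).subtype_mk _⟩, ?_, ?_, ?_, ?_⟩
  · intro s
    apply Subtype.ext
    funext v
    have h := Fv_y θ h5 (4 * (s : ℝ)) v
    have e0 : 5 * ((0 : unitInterval) : ℝ) = ((0 : ℕ) : ℝ) := by simp
    have e1 : 5 * ((1 : unitInterval) : ℝ) = ((5 : ℕ) : ℝ) := by simp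
    change Fv θ (4 * (s : ℝ)) (5 * ((0 : unitInterval) : ℝ)) v =
      Fv θ (4 * (s : ℝ)) (5 * ((1 : unitInterval) : ℝ)) v
    rw [e0, e1]
    exact h
  · intro t
    apply Subtype.ext
    funext v
    have h := Fv_x θ 0 (Or.inl rfl) (5 * (t : ℝ)) (hb t).2.2.1 (hb t).2.2.2 v
    have e0 : 4 * ((0 : unitInterval) : ℝ) = ((0 : ℕ) : ℝ) := by simp
    have e1 : 5 * ((0 : unitInterval) : ℝ) = 0 := by simp
    change Fv θ (4 * ((0 : unitInterval) : ℝ)) (5 * (t : ℝ)) v =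
      Fv θ (4 * ((0 : unitInterval) : ℝ)) (5 * ((0 : unitInterval) : ℝ)) v
    rw [e0, e1]
    exact h
  · intro t
    apply Subtype.ext
    funext v
    have h := Fv_x θ 4 (Or.inr rfl) (5 * (t : ℝ)) (hb t).2.2.1 (hb t).2.2.2 v
    have e0 : 4 * ((1 : unitInterval) : ℝ) = ((4 : ℕ) : ℝ) := by simp
    have e1 : 5 * ((0 : unitInterval) : ℝ) = 0 := by simp
    change Fv θ (4 * ((1 : unitInterval) : ℝ)) (5 * (t : ℝ)) v =
      Fv θ (4 * ((1 : unitInterval) : ℝ)) (5 * ((0 : unitInterval) : ℝ)) v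
    rw [e0, e1]
    exact h
  · intro s t v hv
    have hv' : Fv θ (4 * (s : ℝ)) (5 * (t : ℝ)) v ≠ 0 := ne_of_gt hv
    obtain ⟨l, M, hl, hM, h1, h2, rfl⟩ := Fv_supp θ _ _ v hv'
    rw [vt_lev θ M hl]
    refine ⟨h1, fun hmid => ⟨M, by omega, ?_, h2⟩⟩
    unfold vt
    simp only
    rw [if_neg]
    rintro (h | h)
    · apply hmid.1
      apply Fin.ext
      rw [vt_lev θ M hl, h]
      rfl
    · apply hmid.2
      apply Fin.ext
      rw [vt_lev θ M hl, h]
      rfl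

end Pool.Agent.H730.MB
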