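import Pool.Agent.H730.MB.Mix

/-!
# Homomorphisms to the product with `K₅`
-/

namespace Pool.Agent.H730.MB

namespace ProdL

variable {W : Type} {F : SimpleGraph W}

lemma lift_cn {f g : W → R × Fin 5} (h : Cn F H.Adj f g) (F1 : F →g H)
    (hF1 : (F1 : W → R × Fin 5) = f) : ∀ G1 : F →g H, (G1 : W → R × Fin 5) = g →
    Relation.ReflTransGen (fun a b : F →g H => DiffOne a b) F1 G1 := by
  induction h with
  | refl =>
    intro G1 hG1
    have : F1 = G1 := DFunLike.coe_injective (hF1.trans hG1.symm)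
    rw [this]
  | tail _ hbc ih =>
    rename_i b c _
    intro G1 hG1
    obtain ⟨h1, h2, w, hw⟩ := hbc
    set B1 : F →g H := ⟨b, fun {u v} huv => h1 u v huv⟩ with hB1
    have hB : (B1 : W → R × Fin 5) = b := rfl
    have h3 := ih B1 hB
    by_cases he : b w = c w
    · have : B1 = G1 := by
        apply DFunLike.coe_injective
        rw [hB, hG1]
        funext x
        by_cases hx : x = w
        · rw [hx, he]
        · exact hw x hx
      rw [← this]
      exact h3
    · refine h3.tail ⟨w, ?_, fun x hx => ?_⟩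
      · rw [hB, hG1]
        exact he
      · rw [hB, hG1]
        exact hw x hx

lemma fst_cn {f g : W → R} (h : Cn F RAdj f g) (c : W → Fin 5) (hc : IsHom F (· ≠ ·) c) :
    Cn F H.Adj (fun u => (f u, c u)) (fun u => (g u, c u)) := by
  induction h with
  | refl => exact Cn.refl _
  | tail _ hab ih =>
    obtain ⟨h1, h2, w, hw⟩ := hab
    refine ih.trans (Cn.single (fun u v huv => ⟨h1 u v huv, hc u v huv⟩)
      (fun u v huv => ⟨h2 u v huv, hc u v huv⟩) w fun x hx => ?_)
    rw [hw x hx]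

lemma snd_cn {f g : W → Fin 5} (h : Cn F (· ≠ ·) f g) (c : W → R) (hc : IsHom F RAdj c) :
    Cn F H.Adj (fun u => (c u, f u)) (fun u => (c u, g u)) := by
  induction h with
  | refl => exact Cn.refl _
  | tail _ hab ih =>
    obtain ⟨h1, h2, w, hw⟩ := hab
    refine ih.trans (Cn.single (fun u v huv => ⟨hc u v huv, h1 u v huv⟩)
      (fun u v huv => ⟨hc u v huv, h2 u v huv⟩) w fun x hx => ?_)
    rw [hw x hx]

end ProdL

open ProdL

theorem mobile_H
    (hk5 : ∀ (V : Type) [Finite V] (F : SimpleGraph V), (∀ v, (F.neighborSet v).ncard ≤ 3) →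
      ∀ f g : V → Fin 5, IsHom F (· ≠ ·) f → IsHom F (· ≠ ·) g → Cn F (· ≠ ·) f g)
    (hR : ∀ (V : Type) [Finite V] (F : SimpleGraph V), (∀ v, (F.neighborSet v).ncard ≤ 3) →
      ∀ f g : V → R, IsHom F RAdj f → IsHom F RAdj g → Cn F RAdj f g) :
    Mobile H 5 := by
  intro W _ F hd f g
  have hf : ∀ u v, F.Adj u v → RAdj (f u).1 (f v).1 ∧ (f u).2 ≠ (f v).2 := fun u v huv =>
    f.map_adj huv
  have hg : ∀ u v, F.Adj u v → RAdj (g u).1 (g v).1 ∧ (g u).2 ≠ (g v).2 := fun u v huv =>
    g.map_adj huv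
  have h1 := hR W F hd (fun u => (f u).1) (fun u => (g u).1) (fun u v huv => (hf u v huv).1)
    (fun u v huv => (hg u v huv).1)
  have h2 := hk5 W F hd (fun u => (f u).2) (fun u => (g u).2) (fun u v huv => (hf u v huv).2)
    (fun u v huv => (hg u v huv).2)
  have h3 := fst_cn h1 (fun u => (f u).2) (fun u v huv => (hf u v huv).2)
  have h4 := snd_cn h2 (fun u => (g u).1) (fun u v huv => (hg u v huv).1)
  exact lift_cn (h3.trans h4) f rfl g rfl

end Pool.Agent.H730.MB
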