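import Pool.Agent.H730.MB.Stage

/-!
# Homomorphisms with the same state are connected; valid states are realised
-/

namespace Pool.Agent.H730.MB

section
variable {V : Type} {F : SimpleGraph V}

lemma to_std [Finite V] {s : St V} (hv : Valid F s) {f : V → R} (hf : Rz F f s) {p : V → Nm}
    (hp : ∀ u, ∃ η, (p u, η) ∈ (f u).2.a0) {c : V → Nm}
    (hc : ∀ u w w', Wd F 2 u w → Wd F 2 u w' → c w = c w' → w = w')
    (hcp : ∀ u w w', Wd F 2 u w → Wd F 2 u w' → c w ≠ p w') :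
    Cn F RAdj f (mkf (lv F s) (gs_chn hv hc)) := by
  classical
  have hs := hv.sym
  have hl := lv_ok hv
  -- the chains
  have c0 : Chn s (fun u => (f u).2.a 0) (fun u => (f u).2.a 1) (fun u => (f u).2.a 2) :=
    ⟨fun u _ => (f u).2.h01, fun u _ => (f u).2.h12, fun u _ => (f u).2.ne,
      fun u _ => (f u).2.cons⟩
  have hPa : ∀ i u, Ps F s f p i u ⊆ (f u).2.a i := fun i u a ha => ha.1
  have hP0 : ∀ u, (Ps F s f p 0 u).Nonempty := by
    intro u
    obtain ⟨η, hη⟩ := hp u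
    exact ⟨(p u, η), hη, u, rfl, rfl⟩
  have c1 : Chn s (Ps F s f p 0) (fun u => (f u).2.a 1) (fun u => (f u).2.a 2) :=
    ⟨fun u _ => (hPa 0 u).trans (f u).2.h01, fun u _ => (f u).2.h12, fun u _ => hP0 u,
      fun u _ => (f u).2.cons⟩
  have c2 : Chn s (Ps F s f p 0) (Ps F s f p 1) (fun u => (f u).2.a 2) :=
    ⟨fun u _ => ps_mono 0 u, fun u _ => (hPa 1 u).trans (f u).2.h12, fun u _ => hP0 u,
      fun u _ => (f u).2.cons⟩
  have hcons : ∀ u, s.mid u → ∀ q ε ε', (q, ε) ∈ Ps F s f p 2 u ∪ Gs F s c 2 u →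
      (q, ε') ∈ Ps F s f p 2 u ∪ Gs F s c 2 u → ε = ε' := by
    intro u hu q ε ε' h h'
    rcases h with ⟨h1, w, h2, h3⟩ | ⟨w, h2, h3⟩
    · rcases h' with ⟨k1, w', k2, k3⟩ | ⟨w', k2, k3⟩
      · exact (f u).2.cons q _ _ h1 k1
      · exfalso
        exact hcp u w' w k2.wd h2 (by rw [← k3, ← h3])
    · rcases h' with ⟨k1, w', k2, k3⟩ | ⟨w', k2, k3⟩
      · exfalso
        exact hcp u w w' h2.wd k2 (by rw [← k3, ← h3])
      · exact (gs_chn hv hc).cons u hu q ε ε' ⟨w, h2, h3⟩ ⟨w', k2, k3⟩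
  have c3 : Chn s (Ps F s f p 0) (Ps F s f p 1) (fun u => Ps F s f p 2 u ∪ Gs F s c 2 u) :=
    ⟨fun u _ => ps_mono 0 u, fun u _ => (ps_mono 1 u).trans Set.subset_union_left,
      fun u _ => hP0 u, hcons⟩
  have c4 : Chn s (Ps F s f p 0) (fun u => Ps F s f p 1 u ∪ Gs F s c 1 u)
      (fun u => Ps F s f p 2 u ∪ Gs F s c 2 u) :=
    ⟨fun u _ => (ps_mono 0 u).trans Set.subset_union_left,
      fun u _ => Set.union_subset_union (ps_mono 1 u) (gs_mono 1 u), fun u _ => hP0 u, hcons⟩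
  have c5 : Chn s (Gs F s c 0) (fun u => Ps F s f p 1 u ∪ Gs F s c 1 u)
      (fun u => Ps F s f p 2 u ∪ Gs F s c 2 u) :=
    ⟨fun u _ => (gs_mono 0 u).trans Set.subset_union_right,
      fun u _ => Set.union_subset_union (ps_mono 1 u) (gs_mono 1 u), fun u _ => gs_ne u, hcons⟩
  have c6 : Chn s (Gs F s c 0) (Gs F s c 1) (fun u => Ps F s f p 2 u ∪ Gs F s c 2 u) :=
    ⟨fun u _ => gs_mono 0 u, fun u _ => (gs_mono 1 u).trans Set.subset_union_right,
      fun u _ => gs_ne u, hcons⟩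
  have c7 := gs_chn hv hc
  -- the arrows
  have ra0 : Arr F s (fun u => (f u).2.a 0) (fun u => (f u).2.a 1) := a_arr hf (by omega)
  have ra1 : Arr F s (fun u => (f u).2.a 1) (fun u => (f u).2.a 2) := a_arr hf (by omega)
  have rp0 : Arr F s (Ps F s f p 0) (Ps F s f p 1) := ps_arr hf (by omega)
  have rp1 : Arr F s (Ps F s f p 1) (Ps F s f p 2) := ps_arr hf (by omega)
  have rpa0 : Arr F s (Ps F s f p 0) (fun u => (f u).2.a 1) :=
    ra0.mono (hPa 0) (fun _ => subset_rfl)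
  have rpa1 : Arr F s (Ps F s f p 1) (fun u => (f u).2.a 2) :=
    ra1.mono (hPa 1) (fun _ => subset_rfl)
  have rg0 : Arr F s (Gs F s c 0) (Gs F s c 1) := gs_arr hs 0
  have rg1 : Arr F s (Gs F s c 1) (Gs F s c 2) := gs_arr hs 1
  have rpU0 : Arr F s (Ps F s f p 0) (fun u => Ps F s f p 1 u ∪ Gs F s c 1 u) :=
    rp0.mono (fun _ => subset_rfl) (fun _ => Set.subset_union_left)
  have rpU1 : Arr F s (Ps F s f p 1) (fun u => Ps F s f p 2 u ∪ Gs F s c 2 u) :=
    rp1.mono (fun _ => subset_rfl) (fun _ => Set.subset_union_left)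
  have rgU0 : Arr F s (Gs F s c 0) (fun u => Ps F s f p 1 u ∪ Gs F s c 1 u) :=
    rg0.mono (fun _ => subset_rfl) (fun _ => Set.subset_union_right)
  have rgU1 : Arr F s (Gs F s c 1) (fun u => Ps F s f p 2 u ∪ Gs F s c 2 u) :=
    rg1.mono (fun _ => subset_rfl) (fun _ => Set.subset_union_right)
  have rUU1 : Arr F s (fun u => Ps F s f p 1 u ∪ Gs F s c 1 u)
      (fun u => Ps F s f p 2 u ∪ Gs F s c 2 u) := rpU1.union rgU1
  -- the path
  have t0 : Cn F RAdj (fun u => (lv F s u, (f u).2)) (mkf (lv F s) c0) := by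
    have hn : ∀ u v, F.Adj u v → s.mid u → s.mid v → Near (s.σ u v) (f u).2 (f v).2 :=
      hf.near
    have hmk : ∀ u, s.mid u → (mkf (lv F s) c0 u).2 = (f u).2 := by
      intro u hu
      unfold mkf
      dsimp only
      rw [dif_pos hu]
      rfl
    apply mix (fun a b h => h.symm)
    · intro u v huv
      exact radj_mk (s := s) (u := u) (v := v) (hl.lip u v huv) (hl.lip v u huv.symm)
        (fun h => hl.tip h) (fun h => hl.tip h) (fun hu hv => ⟨_, hn u v huv hu hv⟩)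
    · intro u v huv
      exact radj_mk (s := s) (u := u) (v := v) (hl.lip u v huv) (hl.lip v u huv.symm)
        (fun h => hl.tip h) (fun h => hl.tip h) (fun hu hv' => ⟨s.σ u v, by
          have := hmk v hv'
          unfold mkf at this
          dsimp only at this ⊢
          rw [this]
          exact hn u v huv hu hv'⟩)
    · intro u v huv
      exact radj_mk (s := s) (u := u) (v := v) (hl.lip u v huv) (hl.lip v u huv.symm)
        (fun h => hl.tip h) (fun h => hl.tip h) (fun hu hv' => ⟨s.σ u v, by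
          have h1 := hmk v hv'
          have h2 := hmk u hu
          unfold mkf at h1 h2
          dsimp only at h1 h2 ⊢
          rw [h1, h2]
          exact hn u v huv hu hv'⟩)
  have t1 := stage (l := lv F s) hs hl c0 c1 ra0 ra0 rpa0 rpa0 ra1 ra1 ra1 ra1
  have t2 := stage (l := lv F s) hs hl c1 c2 rpa0 rp0 rpa0 rp0 ra1 ra1 rpa1 rpa1
  have t3 := stage (l := lv F s) hs hl c2 c3 rp0 rp0 rp0 rp0 rpa1 rpU1 rpa1 rpU1
  have t4 := stage (l := lv F s) hs hl c3 c4 rp0 rpU0 rp0 rpU0 rpU1 rpU1 rUU1 rUU1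
  have t5 := stage (l := lv F s) hs hl c4 c5 rpU0 rpU0 rgU0 rgU0 rUU1 rUU1 rUU1 rUU1
  have t6 := stage (l := lv F s) hs hl c5 c6 rgU0 rg0 rgU0 rg0 rUU1 rUU1 rgU1 rgU1
  have t7 := stage (l := lv F s) hs hl c6 c7 rg0 rg0 rg0 rg0 rgU1 rg1 rgU1 rg1
  exact (level_canon hv hf).trans (t0.trans (t1.trans (t2.trans (t3.trans (t4.trans
    (t5.trans (t6.trans t7)))))))

/-- homomorphisms with the same state are connected -/
theorem same_state [Finite V] (hd : ∀ v, (F.neighborSet v).ncard ≤ 3) {s : St V}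
    (hv : Valid F s) {f g : V → R} (hf : Rz F f s) (hg : Rz F g s) : Cn F RAdj f g := by
  have hex : ∀ h : V → R, ∃ p : V → Nm, ∀ u, ∃ η, (p u, η) ∈ (h u).2.a0 := by
    intro h
    choose a ha using fun u => (h u).2.ne
    exact ⟨fun u => (a u).1, fun u => ⟨(a u).2, ha u⟩⟩
  obtain ⟨p, hp⟩ := hex f
  obtain ⟨p', hp'⟩ := hex g
  obtain ⟨c, hc, hcp, hcp'⟩ := exists_col (F := F) hd p p'
  exact (to_std hv hf hp hc hcp).trans (to_std hv hg hp' hc hcp').symm

/-- the standard homomorphism -/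
lemma rz_mkf {s : St V} (hv : Valid F s) {l : V → Fin 5} (hl : Lv F s l) {c : V → Nm}
    (hc : ∀ u w w', Wd F 2 u w → Wd F 2 u w' → c w = c w' → w = w') :
    Rz F (mkf l (gs_chn hv hc)) s := by
  have hn : ∀ u v, F.Adj u v → s.mid u → s.mid v →
      Near (s.σ u v) (mkf l (gs_chn hv hc) u).2 (mkf l (gs_chn hv hc) v).2 :=
    fun u v huv hu hv' => near_mkf hv.sym _ _ (gs_arr hv.sym 0) (gs_arr hv.sym 0)
      (gs_arr hv.sym 1) (gs_arr hv.sym 1) huv hu hv'
  refine ⟨fun u v huv => ?_, fun u => hl.w u, fun u => hl.t u, hn⟩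
  exact radj_mk (s := s) (u := u) (v := v) (hl.lip u v huv) (hl.lip v u huv.symm)
    (fun h => hl.tip h) (fun h => hl.tip h) (fun hu hv' => ⟨_, hn u v huv hu hv'⟩)

/-- valid states are realised -/
theorem exists_rz [Finite V] (hd : ∀ v, (F.neighborSet v).ncard ≤ 3) {s : St V}
    (hv : Valid F s) : ∃ f, Rz F f s := by
  obtain ⟨c, hc, _, _⟩ := exists_col (F := F) hd (fun _ => 0) (fun _ => 0)
  exact ⟨_, rz_mkf hv (lv_ok hv) hc⟩

end

end Pool.Agent.H730.MB
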