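import Pool.Agent.H730.MB.Defs

/-!
# The sign cochain on the labels
-/

namespace Pool.Agent.H730.MB

/-- `x` and `x'` have a common neighbour, along which the signs add up to `δ` -/
def Rel2 (δ : ZMod 2) (x x' : X) : Prop :=
  ∃ y δ1 δ2, Near δ1 x y ∧ Near δ2 y x' ∧ δ = δ1 + δ2

open Classical in
/-- the relative sign of two elements with a common neighbour -/
noncomputable def sg (x x' : X) : ZMod 2 := if Rel2 1 x x' then 1 else 0

/-- the label is not a tip -/
def mid (p : R) : Prop := p.1 ≠ 0 ∧ p.1 ≠ 4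

/-- the label has level at least three -/
def up (p : R) : Prop := 3 ≤ (p.1 : ℕ)

open Classical in
/-- the sign of an edge of labels (zero if one of the labels is a tip) -/
noncomputable def es (p q : R) : ZMod 2 := if mid p ∧ mid q then sg p.2 q.2 else 0

open Classical in
/-- the value of a square of labels -/
noncomputable def csq (a b c d : R) : ZMod 2 :=
  if up a ∨ up b ∨ up c ∨ up d then es a b + es b c + es c d + es d a else 0

lemma rel2_unique {δ δ' : ZMod 2} {x x' : X} (h : Rel2 δ x x') (h' : Rel2 δ' x x') : δ = δ' := by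
  obtain ⟨y, d1, d2, h1, h2, rfl⟩ := h
  obtain ⟨z, e1, e2, k1, k2, rfl⟩ := h'
  obtain ⟨⟨q, ε⟩, hq⟩ := x.ne
  have a1 := h2.1.2 q _ (h1.1.1 q ε hq)
  have a2 := k2.1.2 q _ (k1.1.1 q ε hq)
  have := x'.cons q _ _ a1 a2
  have h3 : ε + (d1 + d2) = ε + (e1 + e2) := by rw [← add_assoc, this, add_assoc]
  exact add_left_cancel h3

lemma sg_of_rel2 {δ : ZMod 2} {x x' : X} (h : Rel2 δ x x') : sg x x' = δ := by
  unfold sg
  have h01 : ∀ δ : ZMod 2, δ = 0 ∨ δ = 1 := by decide
  split_ifs with h1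
  · exact rel2_unique h1 h
  · rcases h01 δ with rfl | rfl
    · rfl
    · exact absurd h h1

lemma near_self (x : X) : Near 0 x x := by
  constructor <;> constructor <;> intro q ε h
  · simpa using x.h01 h
  · simpa using x.h12 h
  · simpa using x.h01 h
  · simpa using x.h12 h

lemma Rel2.symm {δ : ZMod 2} {x x' : X} (h : Rel2 δ x x') : Rel2 δ x' x := by
  obtain ⟨y, d1, d2, h1, h2, rfl⟩ := h
  exact ⟨y, d2, d1, h2.symm, h1.symm, add_comm _ _⟩

lemma rel2_of_near {δ : ZMod 2} {x x' : X} (h : Near δ x x') : Rel2 δ x x' :=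
  ⟨x', δ, 0, h, near_self x', by simp⟩

lemma rel2_iff_symm {δ : ZMod 2} {x x' : X} : Rel2 δ x x' ↔ Rel2 δ x' x :=
  ⟨Rel2.symm, Rel2.symm⟩

lemma sg_comm (x x' : X) : sg x x' = sg x' x := by
  unfold sg
  by_cases h : Rel2 1 x x'
  · rw [if_pos h, if_pos h.symm]
  · rw [if_neg h, if_neg (fun h' => h h'.symm)]

lemma sg_self (x : X) : sg x x = 0 := sg_of_rel2 (rel2_of_near (near_self x))

lemma es_comm (p q : R) : es p q = es q p := by
  unfold es
  by_cases h : mid p ∧ mid q
  · rw [if_pos h, if_pos ⟨h.2, h.1⟩, sg_comm]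
  · rw [if_neg h, if_neg (fun h' => h ⟨h'.2, h'.1⟩)]

lemma es_self (p : R) : es p p = 0 := by
  unfold es; rw [sg_self]; simp

end Pool.Agent.H730.MB
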