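import Pool.Agent.H730.MB.Core
import Pool.Agent.H730.MB.Greedy

/-!
# Homomorphisms with the same state are connected; valid states are realised
-/

namespace Pool.Agent.H730.MB

section
variable {V : Type} {F : SimpleGraph V}

/-- balls are small -/
lemma ball_card [Finite V] (hd : ∀ v, (F.neighborSet v).ncard ≤ 3) (k : ℕ) (u : V) :
    {w | Wd F k u w}.ncard ≤ 4 ^ k := by
  classical
  have := Fintype.ofFinite V
  let B : ℕ → V → Finset V := fun k u => Finset.univ.filter (fun w => Wd F k u w)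
  have hB : ∀ k u, {w | Wd F k u w}.ncard = (B k u).card := by
    intro k u
    rw [Set.ncard_eq_toFinset_card']
    congr 1
    ext w
    simp [B]
  have key : ∀ k u, (B k u).card ≤ 4 ^ k := by
    intro k
    induction k with
    | zero =>
      intro u
      have h1 : B 0 u ⊆ {u} := by
        intro w hw
        have h2 : Wd F 0 u w := (Finset.mem_filter.1 hw).2
        rw [Finset.mem_singleton]
        exact Eq.symm h2
      simpa using Finset.card_le_card h1
    | succ k ih =>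
      intro u
      let N : Finset V := Finset.univ.filter (fun w => F.Adj u w)
      have hN : N.card ≤ 3 := by
        have h1 := hd u
        rw [Set.ncard_eq_toFinset_card'] at h1
        refine le_trans (le_of_eq ?_) h1
        congr 1
        ext w
        simp [N]
      have h1 : B (k + 1) u ⊆ B k u ∪ N.biUnion (fun u' => B k u') := by
        intro w hw
        have h2 : Wd F (k + 1) u w := (Finset.mem_filter.1 hw).2
        rw [Finset.mem_union, Finset.mem_biUnion]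
        rcases h2 with h2 | ⟨u', h3, h4⟩
        · exact Or.inl (Finset.mem_filter.2 ⟨Finset.mem_univ _, h2⟩)
        · exact Or.inr ⟨u', Finset.mem_filter.2 ⟨Finset.mem_univ _, h3⟩,
            Finset.mem_filter.2 ⟨Finset.mem_univ _, h4⟩⟩
      calc (B (k + 1) u).card ≤ (B k u ∪ N.biUnion (fun u' => B k u')).card :=
            Finset.card_le_card h1
        _ ≤ (B k u).card + (N.biUnion (fun u' => B k u')).card := Finset.card_union_le _ _
        _ ≤ 4 ^ k + N.card * 4 ^ k := Nat.add_le_add (ih u)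
            (Finset.card_biUnion_le_card_mul _ _ _ (fun u' _ => ih u'))
        _ ≤ 4 ^ k + 3 * 4 ^ k := by gcongr
        _ = 4 ^ (k + 1) := by ring
  rw [hB]; exact key k u

/-- a locally injective naming which avoids two given namings locally -/
lemma exists_col [Finite V] (hd : ∀ v, (F.neighborSet v).ncard ≤ 3) (p p' : V → Nm) :
    ∃ c : V → Nm, (∀ u w w', Wd F 2 u w → Wd F 2 u w' → c w = c w' → w = w') ∧
      (∀ u w w', Wd F 2 u w → Wd F 2 u w' → c w ≠ p w') ∧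
      (∀ u w w', Wd F 2 u w → Wd F 2 u w' → c w ≠ p' w') := by
  have hsub : ∀ v, {w | ∃ u, Wd F 2 u v ∧ Wd F 2 u w} ⊆ {w | Wd F 4 v w} := by
    rintro v w ⟨u, h1, h2⟩
    exact h1.symm.trans h2
  have h256 : ∀ v, {w | ∃ u, Wd F 2 u v ∧ Wd F 2 u w}.ncard ≤ 256 := fun v =>
    (Set.ncard_le_ncard (hsub v) (Set.toFinite _)).trans (ball_card hd 4 v)
  obtain ⟨c, h1, h2⟩ := greedy (fun v w => ∃ u, Wd F 2 u v ∧ Wd F 2 u w)
    (fun v w ⟨u, a, b⟩ => ⟨u, b, a⟩) 256 512 h256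
    (fun v => p '' {w | ∃ u, Wd F 2 u v ∧ Wd F 2 u w} ∪
      p' '' {w | ∃ u, Wd F 2 u v ∧ Wd F 2 u w})
    (fun v => by
      refine (Set.ncard_union_le _ _).trans ?_
      have a1 := Set.ncard_image_le (f := p) (Set.toFinite {w | ∃ u, Wd F 2 u v ∧ Wd F 2 u w})
      have a2 := Set.ncard_image_le (f := p') (Set.toFinite {w | ∃ u, Wd F 2 u v ∧ Wd F 2 u w})
      have a3 := h256 v
      omega) (by norm_num)
  refine ⟨c, ?_, ?_, ?_⟩
  · intro u w w' hw hw' hc
    by_contra hne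
    exact h2 w w' hne ⟨u, hw, hw'⟩ hc
  · intro u w w' hw hw' hc
    exact h1 w (Or.inl ⟨w', ⟨u, hw, hw'⟩, hc.symm⟩)
  · intro u w w' hw hw' hc
    exact h1 w (Or.inr ⟨w', ⟨u, hw, hw'⟩, hc.symm⟩)

/-- chains of sets, over the vertices off the tips -/
structure Chn (s : St V) (A B C : V → Set (Nm × ZMod 2)) : Prop where
  h01 : ∀ u, s.mid u → A u ⊆ B u
  h12 : ∀ u, s.mid u → B u ⊆ C u
  ne : ∀ u, s.mid u → (A u).Nonempty
  cons : ∀ u, s.mid u → ∀ q ε ε', (q, ε) ∈ C u → (q, ε') ∈ C u → ε = ε'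

/-- the default element -/
def x0 : X := ⟨{(0, 0)}, {(0, 0)}, {(0, 0)}, subset_rfl, subset_rfl, ⟨_, rfl⟩, by
  intro q ε ε' h h'
  rw [Set.mem_singleton_iff, Prod.mk.injEq] at h h'
  rw [h.2, h'.2]⟩

open Classical in
/-- the function given by a chain of sets -/
noncomputable def mkf (l : V → Fin 5) {s : St V} {A B C : V → Set (Nm × ZMod 2)}
    (h : Chn s A B C) : V → R := fun u =>
  (l u, if hu : s.mid u then ⟨A u, B u, C u, h.h01 u hu, h.h12 u hu, h.ne u hu, h.cons u hu⟩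
    else x0)

/-- the arrows between the sets of adjacent vertices -/
def Arr (F : SimpleGraph V) (s : St V) (S T : V → Set (Nm × ZMod 2)) : Prop :=
  ∀ u v, F.Adj u v → s.mid u → s.mid v → ∀ q ε, (q, ε) ∈ S u → (q, ε + s.σ u v) ∈ T v

lemma near_mkf {s : St V} (hs : ∀ u v, s.σ u v = s.σ v u) {l l' : V → Fin 5}
    {A B C A' B' C' : V → Set (Nm × ZMod 2)}
    (h : Chn s A B C) (h' : Chn s A' B' C') (a1 : Arr F s A B') (a2 : Arr F s A' B)
    (a3 : Arr F s B C') (a4 : Arr F s B' C) {u v : V} (huv : F.Adj u v) (hu : s.mid u)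
    (hv : s.mid v) : Near (s.σ u v) (mkf l h u).2 (mkf l' h' v).2 := by
  unfold mkf
  dsimp only
  rw [dif_pos hu, dif_pos hv]
  refine ⟨⟨fun q ε hq => a1 u v huv hu hv q ε hq, fun q ε hq => a3 u v huv hu hv q ε hq⟩,
    ⟨fun q ε hq => ?_, fun q ε hq => ?_⟩⟩
  · rw [hs u v]; exact a2 v u huv.symm hv hu q ε hq
  · rw [hs u v]; exact a4 v u huv.symm hv hu q ε hq

lemma stage [Finite V] {s : St V} (hs : ∀ u v, s.σ u v = s.σ v u) {l : V → Fin 5}
    (hl : Lv F s l) {A B C A' B' C' : V → Set (Nm × ZMod 2)}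
    (h : Chn s A B C) (h' : Chn s A' B' C')
    (a : Arr F s A B) (a1 : Arr F s A B') (a2 : Arr F s A' B) (a' : Arr F s A' B')
    (b : Arr F s B C) (a3 : Arr F s B C') (a4 : Arr F s B' C) (b' : Arr F s B' C') :
    Cn F RAdj (mkf l h) (mkf l h') := by
  apply mix (fun a b h => h.symm)
  · intro u v huv
    exact radj_mk (s := s) (u := u) (v := v) (hl.lip u v huv) (hl.lip v u huv.symm)
      (fun h => hl.tip h) (fun h => hl.tip h)
      (fun hu hv => ⟨_, near_mkf (l := l) (l' := l) hs h h a a b b huv hu hv⟩)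
  · intro u v huv
    exact radj_mk (s := s) (u := u) (v := v) (hl.lip u v huv) (hl.lip v u huv.symm)
      (fun h => hl.tip h) (fun h => hl.tip h)
      (fun hu hv => ⟨_, near_mkf (l := l) (l' := l) hs h h' a1 a2 a3 a4 huv hu hv⟩)
  · intro u v huv
    exact radj_mk (s := s) (u := u) (v := v) (hl.lip u v huv) (hl.lip v u huv.symm)
      (fun h => hl.tip h) (fun h => hl.tip h)
      (fun hu hv => ⟨_, near_mkf (l := l) (l' := l) hs h' h' a' a' b' b' huv hu hv⟩)

/-- the sets of the standard homomorphism with the naming `c` -/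
def Gs (F : SimpleGraph V) (s : St V) (c : V → Nm) (i : ℕ) (u : V) : Set (Nm × ZMod 2) :=
  {a | ∃ w, Wk F s.σ s.mid i u w a.2 ∧ a.1 = c w}

/-- the sets of `f`, restricted to the names of the vertices nearby -/
def Ps (F : SimpleGraph V) (s : St V) (f : V → R) (p : V → Nm) (i : ℕ) (u : V) :
    Set (Nm × ZMod 2) :=
  {a | a ∈ (f u).2.a i ∧ ∃ w, Wd F i u w ∧ a.1 = p w}

lemma gs_mono {s : St V} {c : V → Nm} (i : ℕ) (u : V) : Gs F s c i u ⊆ Gs F s c (i + 1) u := by
  rintro ⟨q, ε⟩ ⟨w, h1, h2⟩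
  exact ⟨w, h1.mono, h2⟩

lemma gs_arr {s : St V} (hs : ∀ u v, s.σ u v = s.σ v u) {c : V → Nm} (i : ℕ) :
    Arr F s (Gs F s c i) (Gs F s c (i + 1)) := by
  rintro u v huv hu hv q ε ⟨w, h1, h2⟩
  refine ⟨w, ?_, h2⟩
  change Wk F s.σ s.mid (i + 1) v w (ε + s.σ u v)
  rw [hs u v]
  exact Wk.cons huv.symm hv hu h1

lemma gs_ne {s : St V} {c : V → Nm} (u : V) : (Gs F s c 0 u).Nonempty :=
  ⟨(c u, 0), u, ⟨rfl, rfl⟩, rfl⟩

lemma gs_chn {s : St V} (hv : Valid F s) {c : V → Nm}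
    (hc : ∀ u w w', Wd F 2 u w → Wd F 2 u w' → c w = c w' → w = w') :
    Chn s (Gs F s c 0) (Gs F s c 1) (Gs F s c 2) := by
  refine ⟨fun u _ => gs_mono 0 u, fun u _ => gs_mono 1 u, fun u _ => gs_ne u, ?_⟩
  rintro u hu q ε ε' ⟨w, h1, h2⟩ ⟨w', h1', h2'⟩
  have hw : w = w' := hc u w w' h1.wd h1'.wd (by rw [← h2, ← h2'])
  subst hw
  exact hv.bal u w ε ε' h1 h1'

lemma ps_mono {s : St V} {f : V → R} {p : V → Nm} (i : ℕ) (u : V) :
    Ps F s f p i u ⊆ Ps F s f p (i + 1) u := by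
  rintro ⟨q, ε⟩ ⟨h1, w, h2, h3⟩
  exact ⟨X.a_mono _ _ h1, w, h2.mono, h3⟩

lemma ps_arr {s : St V} {f : V → R} (hf : Rz F f s) {p : V → Nm} {i : ℕ} (hi : i ≤ 1) :
    Arr F s (Ps F s f p i) (Ps F s f p (i + 1)) := by
  rintro u v huv hu hv q ε ⟨h1, w, h2, h3⟩
  exact ⟨near_a (hf.near u v huv hu hv) hi h1, w, h2.cons huv.symm, h3⟩

lemma a_arr {s : St V} {f : V → R} (hf : Rz F f s) {i : ℕ} (hi : i ≤ 1) :
    Arr F s (fun u => (f u).2.a i) (fun u => (f u).2.a (i + 1)) := by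
  intro u v huv hu hv q ε h1
  exact near_a (hf.near u v huv hu hv) hi h1

lemma Arr.mono {s : St V} {S S' T T' : V → Set (Nm × ZMod 2)} (h : Arr F s S T)
    (h1 : ∀ u, S' u ⊆ S u) (h2 : ∀ u, T u ⊆ T' u) : Arr F s S' T' :=
  fun u v huv hu hv q ε hq => h2 v (h u v huv hu hv q ε (h1 u hq))

lemma Arr.union {s : St V} {S S' T : V → Set (Nm × ZMod 2)} (h : Arr F s S T)
    (h' : Arr F s S' T) : Arr F s (fun u => S u ∪ S' u) T := by
  intro u v huv hu hv q ε hq
  rcases hq with hq | hq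
  · exact h u v huv hu hv q ε hq
  · exact h' u v huv hu hv q ε hq

end

end Pool.Agent.H730.MB
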