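import Pool.Agent.H730.MB.Mix

/-!
# States `(W, T, σ)` of homomorphisms to `R`
-/

namespace Pool.Agent.H730.MB

section
variable {V : Type} (F : SimpleGraph V)

/-- walks of length at most `k` inside `G`, with their sign -/
def Wk (σ : V → V → ZMod 2) (G : V → Prop) : ℕ → V → V → ZMod 2 → Prop
  | 0, u, w, ε => u = w ∧ ε = 0
  | k + 1, u, w, ε => Wk σ G k u w ε ∨
      ∃ u', F.Adj u u' ∧ G u ∧ G u' ∧ Wk σ G k u' w (ε + σ u u')

/-- walks of length at most `k` -/
def Wd : ℕ → V → V → Prop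
  | 0, u, w => u = w
  | k + 1, u, w => Wd k u w ∨ ∃ u', F.Adj u u' ∧ Wd k u' w

end

/-- a state: the vertices at the tips and the signs of the edges -/
structure St (V : Type) where
  W : Set V
  T : Set V
  σ : V → V → ZMod 2

/-- the vertices which are not at a tip -/
def St.mid {V : Type} (s : St V) (u : V) : Prop := u ∉ s.W ∧ u ∉ s.T

/-- valid states -/
structure Valid {V : Type} (F : SimpleGraph V) (s : St V) : Prop where
  sym : ∀ u v, s.σ u v = s.σ v u
  dist : ∀ u ∈ s.W, ∀ t ∈ s.T, ¬ Wd F 3 u t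
  bal : ∀ u w ε ε', Wk F s.σ s.mid 2 u w ε → Wk F s.σ s.mid 2 u w ε' → ε = ε'

/-- the homomorphism `f` has the state `s` -/
structure Rz {V : Type} (F : SimpleGraph V) (f : V → R) (s : St V) : Prop where
  hom : IsHom F RAdj f
  w : ∀ u, (f u).1 = 0 ↔ u ∈ s.W
  t : ∀ u, (f u).1 = 4 ↔ u ∈ s.T
  near : ∀ u v, F.Adj u v → s.mid u → s.mid v → Near (s.σ u v) (f u).2 (f v).2

section
variable {V : Type} {F : SimpleGraph V}

lemma zadd (a b : ZMod 2) : a + b + b = a := by
  rw [add_assoc, CharTwo.add_self_eq_zero, add_zero]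

lemma Wk.mono {σ : V → V → ZMod 2} {G : V → Prop} {k : ℕ} {u w : V} {ε : ZMod 2}
    (h : Wk F σ G k u w ε) : Wk F σ G (k + 1) u w ε := Or.inl h

lemma Wk.cons {σ : V → V → ZMod 2} {G : V → Prop} {k : ℕ} {u u' w : V} {ε : ZMod 2}
    (ha : F.Adj u u') (hu : G u) (hu' : G u') (h : Wk F σ G k u' w ε) :
    Wk F σ G (k + 1) u w (ε + σ u u') :=
  Or.inr ⟨u', ha, hu, hu', by rwa [zadd]⟩

lemma Wk.wd {σ : V → V → ZMod 2} {G : V → Prop} {k : ℕ} {u w : V} {ε : ZMod 2}
    (h : Wk F σ G k u w ε) : Wd F k u w := by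
  induction k generalizing u ε with
  | zero => exact h.1
  | succ k ih =>
    rcases h with h | ⟨u', h1, _, _, h2⟩
    · exact Or.inl (ih h)
    · exact Or.inr ⟨u', h1, ih h2⟩

lemma Wk.zero (σ : V → V → ZMod 2) (G : V → Prop) (k : ℕ) (u : V) : Wk F σ G k u u 0 := by
  induction k with
  | zero => exact ⟨rfl, rfl⟩
  | succ k ih => exact Or.inl ih

/-- the last vertex is in `G` -/
lemma Wk.right {σ : V → V → ZMod 2} {G : V → Prop} {k : ℕ} {u w : V} {ε : ZMod 2}
    (h : Wk F σ G k u w ε) (hu : G u) : G w := by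
  induction k generalizing u ε with
  | zero => rw [← h.1]; exact hu
  | succ k ih =>
    rcases h with h | ⟨u', h1, _, h3, h2⟩
    · exact ih h hu
    · exact ih h2 h3

/-- restriction to a smaller set and other signs which agree there -/
lemma Wk.congr {σ σ' : V → V → ZMod 2} {G G' : V → Prop} (hG : ∀ u, G u → G' u)
    (hσ : ∀ u v, F.Adj u v → G u → G v → σ u v = σ' u v) {k : ℕ} {u w : V} {ε : ZMod 2}
    (h : Wk F σ G k u w ε) : Wk F σ' G' k u w ε := by
  induction k generalizing u ε with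
  | zero => exact h
  | succ k ih =>
    rcases h with h | ⟨u', h1, h2, h3, h4⟩
    · exact Or.inl (ih h)
    · refine Or.inr ⟨u', h1, hG _ h2, hG _ h3, ?_⟩
      rw [← hσ u u' h1 h2 h3]
      exact ih h4

lemma Wd.mono {k : ℕ} {u w : V} (h : Wd F k u w) : Wd F (k + 1) u w := Or.inl h

lemma Wd.mono' {k l : ℕ} {u w : V} (h : Wd F k u w) (hkl : k ≤ l) : Wd F l u w := by
  induction l, hkl using Nat.le_induction with
  | base => exact h
  | succ l _ ih => exact ih.mono

lemma Wd.cons {k : ℕ} {u u' w : V} (ha : F.Adj u u') (h : Wd F k u' w) : Wd F (k + 1) u w :=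
  Or.inr ⟨u', ha, h⟩

lemma Wd.refl (k : ℕ) (u : V) : Wd F k u u := by
  induction k with
  | zero => rfl
  | succ k ih => exact Or.inl ih

lemma Wd.snoc {k : ℕ} {u w w' : V} (h : Wd F k u w) (ha : F.Adj w w') : Wd F (k + 1) u w' := by
  induction k generalizing u with
  | zero => cases h; exact Or.inr ⟨w', ha, rfl⟩
  | succ k ih =>
    rcases h with h | ⟨u', h1, h2⟩
    · exact Or.inl (ih h)
    · exact Or.inr ⟨u', h1, ih h2⟩

lemma Wd.symm {k : ℕ} {u w : V} (h : Wd F k u w) : Wd F k w u := by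
  induction k generalizing u with
  | zero => exact Eq.symm h
  | succ k ih =>
    rcases h with h | ⟨u', h1, h2⟩
    · exact Or.inl (ih h)
    · exact (ih h2).snoc h1.symm

lemma Wd.trans {k l : ℕ} {u v w : V} (h : Wd F k u v) (h' : Wd F l v w) :
    Wd F (k + l) u w := by
  induction k generalizing u with
  | zero => cases h; simpa using h'
  | succ k ih =>
    rcases h with h | ⟨u', h1, h2⟩
    · exact (ih h).mono' (by omega)
    · have := (ih h2).cons h1
      rwa [show k + 1 + l = k + l + 1 by omega]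

/-- levels change slowly -/
lemma level_wd {f : V → R} (hf : IsHom F RAdj f) {k : ℕ} {u w : V} (h : Wd F k u w) :
    ((f u).1 : ℕ) ≤ (f w).1 + k ∧ ((f w).1 : ℕ) ≤ (f u).1 + k := by
  induction k generalizing u with
  | zero => cases h; simp
  | succ k ih =>
    rcases h with h | ⟨u', h1, h2⟩
    · have := ih h; omega
    · have := ih h2
      have h3 := hf u u' h1
      have := h3.1; have := h3.2.1
      omega

/-- the sets of a chain, indexed -/
def X.a (x : X) : ℕ → Set (Nm × ZMod 2)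
  | 0 => x.a0
  | 1 => x.a1
  | _ + 2 => x.a2

lemma X.a_mono (x : X) (i : ℕ) : x.a i ⊆ x.a (i + 1) := by
  rcases i with _ | _ | i
  · exact x.h01
  · exact x.h12
  · exact subset_rfl

lemma near_a {δ : ZMod 2} {x y : X} (h : Near δ x y) {i : ℕ} (hi : i ≤ 1) {q : Nm} {ε : ZMod 2}
    (hq : (q, ε) ∈ x.a i) : (q, ε + δ) ∈ y.a (i + 1) := by
  rcases i with _ | _ | i
  · exact h.1.1 q ε hq
  · exact h.1.2 q ε hq
  · omega

lemma wk_transport {f : V → R} {s : St V} (hf : Rz F f s) {k : ℕ} :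
    ∀ {i : ℕ} {u w : V} {ε : ZMod 2}, i + k ≤ 2 → Wk F s.σ s.mid k u w ε →
      ∀ {q : Nm} {η : ZMod 2}, (q, η) ∈ (f u).2.a i → (q, η + ε) ∈ (f w).2.a (i + k) := by
  induction k with
  | zero =>
    intro i u w ε _ h q η hq
    obtain ⟨rfl, rfl⟩ := h
    simpa using hq
  | succ k ih =>
    intro i u w ε hik h q η hq
    rcases h with h | ⟨u', h1, h2, h3, h4⟩
    · exact X.a_mono _ _ (ih (by omega) h hq)
    · have h5 := near_a (hf.near u u' h1 h2 h3) (i := i) (by omega) hq
      have h6 := ih (i := i + 1) (by omega) h4 h5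
      rw [show i + (k + 1) = i + 1 + k by omega]
      have h7 : η + s.σ u u' + (ε + s.σ u u') = η + ε := by
        rw [add_add_add_comm, CharTwo.add_self_eq_zero, add_zero]
      rwa [h7] at h6

lemma Rz.bal {f : V → R} {s : St V} (hf : Rz F f s) (u w : V) (ε ε' : ZMod 2)
    (h : Wk F s.σ s.mid 2 u w ε) (h' : Wk F s.σ s.mid 2 u w ε') : ε = ε' := by
  obtain ⟨⟨q, η⟩, hq⟩ := (f u).2.ne
  have a1 := wk_transport hf (i := 0) (by omega) h (q := q) (η := η) hq
  have a2 := wk_transport hf (i := 0) (by omega) h' (q := q) (η := η) hq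
  exact add_left_cancel ((f w).2.cons q _ _ a1 a2)

lemma Rz.dist {f : V → R} {s : St V} (hf : Rz F f s) (u : V) (hu : u ∈ s.W) (t : V)
    (ht : t ∈ s.T) : ¬ Wd F 3 u t := by
  intro h
  have h1 := level_wd hf.hom h
  have h2 := (hf.w u).2 hu
  have h3 := (hf.t t).2 ht
  rw [h2, h3] at h1
  have := h1.2
  norm_num at this

lemma Rz.valid {f : V → R} {s : St V} (hf : Rz F f s) (hs : ∀ u v, s.σ u v = s.σ v u) :
    Valid F s := ⟨hs, hf.dist, hf.bal⟩

lemma near_unique {δ δ' : ZMod 2} {x y : X} (h : Near δ x y) (h' : Near δ' x y) : δ = δ' := by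
  obtain ⟨⟨q, η⟩, hq⟩ := x.ne
  have a1 := y.h12 (h.1.1 q η hq)
  have a2 := y.h12 (h'.1.1 q η hq)
  exact add_left_cancel (y.cons q _ _ a1 a2)

/-- every homomorphism has a state -/
lemma exists_state {f : V → R} (hf : IsHom F RAdj f) :
    ∃ s : St V, Valid F s ∧ Rz F f s := by
  classical
  let σ : V → V → ZMod 2 := fun u v => if Near 1 (f u).2 (f v).2 then 1 else 0
  let s : St V := ⟨{u | (f u).1 = 0}, {u | (f u).1 = 4}, σ⟩
  have hR : Rz F f s := by
    refine ⟨hf, fun u => Iff.rfl, fun u => Iff.rfl, fun u v huv hu hv => ?_⟩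
    have h1 := (hf u v huv).2.2
    have h01 : ∀ δ : ZMod 2, δ = 0 ∨ δ = 1 := by decide
    have h2 : ∃ δ, Near δ (f u).2 (f v).2 := by
      rcases h1 with h | h | h | h | h
      · exact absurd h hu.1
      · exact absurd h hu.2
      · exact absurd h hv.1
      · exact absurd h hv.2
      · exact h
    obtain ⟨δ, hδ⟩ := h2
    change Near (if Near 1 (f u).2 (f v).2 then 1 else 0) (f u).2 (f v).2
    split_ifs with h
    · exact h
    · rcases h01 δ with rfl | rfl
      · exact hδ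
      · exact absurd hδ h
  refine ⟨s, hR.valid (fun u v => ?_), hR⟩
  change (if Near 1 (f u).2 (f v).2 then (1 : ZMod 2) else 0) =
    if Near 1 (f v).2 (f u).2 then 1 else 0
  by_cases h : Near 1 (f u).2 (f v).2
  · rw [if_pos h, if_pos h.symm]
  · rw [if_neg h, if_neg (fun h' => h h'.symm)]

end

end Pool.Agent.H730.MB
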