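import Pool.Agent.H730.MB.Sgn

/-!
# An essential 5-cycle in `X`
-/

namespace Pool.Agent.H730.MB

namespace ThetaL

/-- absolute difference -/
def df (u w : Fin 5) : ℕ := if w ≤ u then (u : ℕ) - w else (w : ℕ) - u

/-- distance at most `i` in the 5-cycle -/
def inn (u : Fin 5) (i : ℕ) (w : Fin 5) : Bool := decide (df u w ≤ i) || decide (5 - i ≤ df u w)

/-- the sign of the short arc is nontrivial -/
def sb (u w : Fin 5) : Bool := decide (3 ≤ df u w)

/-- the sign of the short arc -/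
def ep (u w : Fin 5) : ZMod 2 := if sb u w then 1 else 0

/-- the names -/
def emb (w : Fin 5) : Nm := Fin.castLE (by norm_num) w

lemma emb_inj {w w' : Fin 5} (h : emb w = emb w') : w = w' := Fin.castLE_injective _ h

/-- the signed names at distance at most `i` from `u` -/
def L (u : Fin 5) (i : ℕ) : Set (Nm × ZMod 2) := {p | ∃ w : Fin 5, inn u i w = true ∧ p = (emb w, ep u w)}

lemma sub01 : ∀ u w : Fin 5, inn u 0 w = true → inn u 1 w = true := by decide

lemma sub12 : ∀ u w : Fin 5, inn u 1 w = true → inn u 2 w = true := by decide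

lemma ne0 : ∀ u : Fin 5, inn u 0 u = true := by decide

/-- the vertices of the 5-cycle -/
def th (u : Fin 5) : X where
  a0 := L u 0
  a1 := L u 1
  a2 := L u 2
  h01 := by
    rintro p ⟨w, h, rfl⟩
    exact ⟨w, sub01 u w h, rfl⟩
  h12 := by
    rintro p ⟨w, h, rfl⟩
    exact ⟨w, sub12 u w h, rfl⟩
  ne := ⟨_, u, ne0 u, rfl⟩
  cons := by
    rintro q ε ε' ⟨w, h, e⟩ ⟨w', h', e'⟩
    rw [Prod.mk.injEq] at e e'
    have hw := emb_inj (e.1.symm.trans e'.1)
    rw [e.2, e'.2, hw]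

lemma half_th (δ : ZMod 2) (u v : Fin 5)
    (h0 : ∀ w, inn u 0 w = true → inn v 1 w = true ∧ ep u w + δ = ep v w)
    (h1 : ∀ w, inn u 1 w = true → inn v 2 w = true ∧ ep u w + δ = ep v w) :
    Half δ (th u) (th v) := by
  constructor
  · rintro q ε ⟨w, h, e⟩
    rw [Prod.mk.injEq] at e
    exact ⟨w, (h0 w h).1, by rw [e.1, e.2, (h0 w h).2]⟩
  · rintro q ε ⟨w, h, e⟩
    rw [Prod.mk.injEq] at e
    exact ⟨w, (h1 w h).1, by rw [e.1, e.2, (h1 w h).2]⟩

lemma n01 : Near 0 (th 0) (th 1) :=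
  ⟨half_th _ _ _ (by decide) (by decide), half_th _ _ _ (by decide) (by decide)⟩

lemma n12 : Near 0 (th 1) (th 2) :=
  ⟨half_th _ _ _ (by decide) (by decide), half_th _ _ _ (by decide) (by decide)⟩

lemma n23 : Near 0 (th 2) (th 3) :=
  ⟨half_th _ _ _ (by decide) (by decide), half_th _ _ _ (by decide) (by decide)⟩

lemma n34 : Near 0 (th 3) (th 4) :=
  ⟨half_th _ _ _ (by decide) (by decide), half_th _ _ _ (by decide) (by decide)⟩

lemma n40 : Near 1 (th 4) (th 0) :=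
  ⟨half_th _ _ _ (by decide) (by decide), half_th _ _ _ (by decide) (by decide)⟩

/-- the closed walk -/
def tt : ℕ → X
  | 0 => th 0
  | 1 => th 1
  | 2 => th 2
  | 3 => th 3
  | 4 => th 4
  | _ + 5 => th 0

end ThetaL

open ThetaL in
/-- an essential 5-cycle in `X` -/
theorem exists_theta : ∃ θ : ℕ → X, Near 0 (θ 0) (θ 1) ∧ Near 0 (θ 1) (θ 2) ∧
    Near 0 (θ 2) (θ 3) ∧ Near 0 (θ 3) (θ 4) ∧ Near 1 (θ 4) (θ 5) ∧ θ 5 = θ 0 :=
  ⟨tt, n01, n12, n23, n34, n40, rfl⟩

end Pool.Agent.H730.MB
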