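import Pool.Agent.H730.MB.Labels
import Pool.Agent.H730.MB.Grid
import Pool.Agent.H730.MB.Eval
import Pool.Agent.H730.MB.Theta
import Pool.Agent.H730.MB.Phi

/-!
# The neighbourhood complex of `H` is not 2-connected
-/

namespace Pool.Agent.H730.MB

/-- some map from the 2-sphere to `|N(H)|` is not null-homotopic -/
theorem exists_essential :
    ∃ φ : C(Metric.sphere (0 : EuclideanSpace ℝ (Fin 3)) 1, nbhd H), ¬ φ.Nullhomotopic := by
  by_contra hcon
  push Not at hcon
  obtain ⟨θ, h01, h12, h23, h34, h40, h5⟩ := exists_theta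
  obtain ⟨Φ, p1, p2, p3, p4⟩ := exists_phi θ h01 h12 h23 h34 h40 h5
  obtain ⟨n, hn, h20, r, r1, r2, r3, r4, r5, r6⟩ := labels H Φ p1 p2 p3 hcon 20 (by norm_num)
  have hg := grid n (fun i j k => (r i j k).1)
    (fun i j k hi hj hk => by
      obtain ⟨y, hy⟩ := r1 i j k hi hj hk
      exact ⟨y.1, fun a b c ha hb hc => (hy a b c ha hb hc).1⟩)
    (fun i k => congrArg Prod.fst (r2 i k)) (fun j k => congrArg Prod.fst (r3 j k))
    (fun j k => congrArg Prod.fst (r4 j k))
    (by
      obtain ⟨y, hy⟩ := r5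
      exact ⟨y.1, fun i j hi hj => (hy i j hi hj).1⟩)
  have hn' : (0 : ℝ) < n := by exact_mod_cast hn
  have he := eval θ h01 h12 h23 h34 h40 h5 n hn h20 (fun i j => (r i j 0).1)
    (fun i => congrArg Prod.fst (r2 i 0))
    (fun i j hi hj => by
      have hi' : (i : ℝ) ≤ n := by exact_mod_cast hi
      have hj' : (j : ℝ) ≤ n := by exact_mod_cast hj
      have h1 := r6 ⟨(i : ℝ) / n, by positivity, (div_le_one hn').2 hi'⟩
        ⟨(j : ℝ) / n, by positivity, (div_le_one hn').2 hj'⟩ i j rfl rfl hi hj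
      exact p4 _ _ _ h1)
  rw [hg] at he
  exact absurd he (by decide)

end Pool.Agent.H730.MB
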